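import Mathlib

/-!
# A dual object for the polynomial degree of OR: the nodes

Divided differences at the nodes `0, 1, 64, 64 * 4, 64 * 9, ..., 64 * D ^ 2`.
-/

namespace Pool.Agent.Lib_helper65.Rand

open Finset Polynomial

/-- nodes `0, 1, 64 * 1 ^ 2, 64 * 2 ^ 2, ...` -/
noncomputable def node : ℕ → ℝ
  | 0 => 0
  | 1 => 1
  | (i + 2) => 64 * ((i : ℝ) + 1) ^ 2

lemma node_zero : node 0 = 0 := rfl
lemma node_one : node 1 = 1 := rfl
lemma node_add (i : ℕ) : node (i + 2) = 64 * ((i : ℝ) + 1) ^ 2 := rfl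

lemma node_strictMono : StrictMono node := by
  refine strictMono_nat_of_lt_succ (fun n => ?_)
  match n with
  | 0 => simp [node]
  | 1 => simp [node]
  | (i + 2) =>
    rw [node_add, show i + 2 + 1 = (i + 1) + 2 by ring, node_add]
    push_cast
    have : (0 : ℝ) ≤ i := Nat.cast_nonneg i
    nlinarith

lemma one_le_node {k : ℕ} (h : 1 ≤ k) : 1 ≤ node k := by
  have := node_strictMono.monotone h
  rwa [node_one] at this

lemma node_nonneg (k : ℕ) : 0 ≤ node k := by
  have := node_strictMono.monotone (Nat.zero_le k)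
  rwa [node_zero] at this

lemma node_le {D k : ℕ} (hD : 1 ≤ D) (h : k < D + 2) : node k ≤ 64 * (D : ℝ) ^ 2 := by
  have h1 : k ≤ (D - 1) + 2 := by omega
  have := node_strictMono.monotone h1
  rw [node_add] at this
  have h2 : (((D - 1 : ℕ) : ℝ)) + 1 = D := by
    rw [Nat.cast_sub hD]; push_cast; ring
  rwa [h2] at this

/-- weights -/
noncomputable def wt (D k : ℕ) : ℝ := 1 / ∏ j ∈ (range (D + 2)).erase k, (node k - node j)

lemma wt_orth (D : ℕ) (q : ℝ[X]) (hq : q.natDegree ≤ D) :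
    ∑ k ∈ range (D + 2), wt D k * q.eval (node k) = 0 := by
  have hinj : Set.InjOn node (range (D + 2) : Finset ℕ) := node_strictMono.injective.injOn
  have hdeg : q.degree < #(range (D + 2)) := by
    rw [card_range]
    refine lt_of_le_of_lt Polynomial.degree_le_natDegree ?_
    exact_mod_cast (by omega : q.natDegree < D + 2)
  have h := Lagrange.coeff_eq_sum hinj hdeg
  rw [card_range] at h
  have h0 : q.coeff (D + 2 - 1) = 0 := Polynomial.coeff_eq_zero_of_natDegree_lt (by omega)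
  rw [h0] at h
  rw [h]
  refine sum_congr rfl (fun k _ => ?_)
  unfold wt
  ring

/-- product identity -/
lemma prod_identity (i m : ℕ) :
    (∏ l ∈ (range (i + 1 + m)).erase i, ((l : ℝ) + 1) ^ 2) * (m.factorial * (2 * (i + 1) + m).factorial : ℕ)
      = 2 * (((i + 1 + m).factorial : ℕ) : ℝ) ^ 2 *
        ∏ l ∈ (range (i + 1 + m)).erase i, |((i : ℝ) + 1) ^ 2 - ((l : ℝ) + 1) ^ 2| := by
  induction m with
  | zero =>
    have her : (range (i + 1 + 0)).erase i = range i := by
      ext l; simp; omega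
    rw [her]
    have e1 : ∀ n : ℕ, ∏ l ∈ range n, ((l : ℝ) + 1) ^ 2 = ((n.factorial : ℕ) : ℝ) ^ 2 := by
      intro n
      induction n with
      | zero => simp
      | succ n ih =>
        rw [prod_range_succ, ih, Nat.factorial_succ]
        push_cast; ring
    have e2 : ∏ l ∈ range i, |((i : ℝ) + 1) ^ 2 - ((l : ℝ) + 1) ^ 2| =
        ∏ l ∈ range i, (((i : ℝ) - l) * ((i : ℝ) + l + 2)) := by
      refine prod_congr rfl (fun l hl => ?_)
      have hl' : (l : ℝ) < i := by exact_mod_cast mem_range.1 hl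
      have h0 : (0 : ℝ) ≤ l := Nat.cast_nonneg l
      rw [abs_of_nonneg (by nlinarith)]
      ring
    have e3 : ∏ l ∈ range i, ((i : ℝ) - l) = ((i.factorial : ℕ) : ℝ) := by
      rw [← prod_range_reflect]
      have : ∀ n : ℕ, ∏ l ∈ range n, ((n : ℝ) - ((n - 1 - l : ℕ) : ℝ)) = ((n.factorial : ℕ) : ℝ) := by
        intro n
        have h1 : ∀ l ∈ range n, ((n : ℝ) - ((n - 1 - l : ℕ) : ℝ)) = (l : ℝ) + 1 := by
          intro l hl
          have hl' := mem_range.1 hl
          have : n - 1 - l = n - (l + 1) := by omega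
          rw [this, Nat.cast_sub (by omega)]
          push_cast; ring
        rw [prod_congr rfl h1]
        clear h1
        induction n with
        | zero => simp
        | succ n ih => rw [prod_range_succ, ih, Nat.factorial_succ]; push_cast; ring
      exact this i
    have e4 : ∀ n : ℕ, (∏ l ∈ range n, ((i : ℝ) + l + 2)) * (((i + 1).factorial : ℕ) : ℝ) =
        (((i + 1 + n).factorial : ℕ) : ℝ) := by
      intro n
      induction n with
      | zero => simp
      | succ n ih =>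
        rw [prod_range_succ, show i + 1 + (n + 1) = (i + 1 + n) + 1 by ring, Nat.factorial_succ (i + 1 + n)]
        push_cast
        rw [← ih]; ring
    rw [e1, e2, prod_mul_distrib, e3]
    have e4i := e4 i
    have hf : (2 * (i + 1) + 0).factorial = (2 * i + 2) * (i + 1 + i).factorial := by
      rw [show 2 * (i + 1) + 0 = (i + 1 + i) + 1 by ring, Nat.factorial_succ]
      congr 1; ring
    rw [hf]
    have hg : (i + 1 + 0).factorial = (i + 1) * i.factorial := by
      rw [Nat.add_zero, Nat.factorial_succ]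
    have hg2 : (i + 1).factorial = (i + 1) * i.factorial := Nat.factorial_succ i
    rw [hg2] at e4i
    rw [hg]
    push_cast at e4i ⊢
    rw [← e4i]
    simp only [Nat.factorial_zero]
    push_cast
    ring
  | succ m ih =>
    have her : (range (i + 1 + (m + 1))).erase i = insert (i + 1 + m) ((range (i + 1 + m)).erase i) := by
      ext l; simp; omega
    have hnot : i + 1 + m ∉ (range (i + 1 + m)).erase i := by simp
    rw [her, prod_insert hnot, prod_insert hnot]
    have hab : |((i : ℝ) + 1) ^ 2 - (((i + 1 + m : ℕ) : ℝ) + 1) ^ 2| =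
        ((m : ℝ) + 1) * (2 * ((i : ℝ) + 1) + m + 1) := by
      push_cast
      have h0 : (0 : ℝ) ≤ i := Nat.cast_nonneg i
      have h1 : (0 : ℝ) ≤ m := Nat.cast_nonneg m
      rw [abs_of_nonpos (by nlinarith)]
      ring
    rw [hab, Nat.factorial_succ m, show 2 * (i + 1) + (m + 1) = (2 * (i + 1) + m) + 1 by ring,
      Nat.factorial_succ (2 * (i + 1) + m), show i + 1 + (m + 1) = (i + 1 + m) + 1 by ring,
      Nat.factorial_succ (i + 1 + m)]
    push_cast at ih ⊢
    linear_combination (((i : ℝ) + 1 + m + 1) ^ 2 * ((m : ℝ) + 1) * (2 * ((i : ℝ) + 1) + m + 1)) * ih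

lemma fact_le (i m : ℕ) : ((i + m).factorial) ^ 2 ≤ m.factorial * (2 * i + m).factorial := by
  induction i with
  | zero => simp [sq]
  | succ i ih =>
    have h1 : (i + 1 + m).factorial = (i + m + 1) * (i + m).factorial := by
      rw [show i + 1 + m = (i + m) + 1 by ring, Nat.factorial_succ]
    have h2 : (2 * (i + 1) + m).factorial = (2 * i + m + 2) * ((2 * i + m + 1) * (2 * i + m).factorial) := by
      rw [show 2 * (i + 1) + m = (2 * i + m + 1) + 1 by ring, Nat.factorial_succ, Nat.factorial_succ]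
    rw [h1, h2, mul_pow]
    calc (i + m + 1) ^ 2 * (i + m).factorial ^ 2
        ≤ (i + m + 1) ^ 2 * (m.factorial * (2 * i + m).factorial) := Nat.mul_le_mul_left _ ih
      _ ≤ ((2 * i + m + 2) * (2 * i + m + 1)) * (m.factorial * (2 * i + m).factorial) := by
          apply Nat.mul_le_mul_right
          nlinarith
      _ = _ := by ring

lemma prod_bound {D i : ℕ} (hi : i < D) :
    ∏ l ∈ (range D).erase i, ((l : ℝ) + 1) ^ 2 ≤
      2 * ∏ l ∈ (range D).erase i, |((i : ℝ) + 1) ^ 2 - ((l : ℝ) + 1) ^ 2| := by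
  obtain ⟨m, rfl⟩ : ∃ m, D = i + 1 + m := ⟨D - (i + 1), by omega⟩
  have h := prod_identity i m
  have hf := fact_le (i + 1) m
  set A := ∏ l ∈ (range (i + 1 + m)).erase i, ((l : ℝ) + 1) ^ 2 with hA
  set B := ∏ l ∈ (range (i + 1 + m)).erase i, |((i : ℝ) + 1) ^ 2 - ((l : ℝ) + 1) ^ 2| with hB
  have hB0 : 0 ≤ B := prod_nonneg (fun _ _ => abs_nonneg _)
  have hF0 : (0 : ℝ) < (((i + 1 + m).factorial : ℕ) : ℝ) ^ 2 := by positivity
  have hF : ((((i + 1 + m).factorial : ℕ) : ℝ)) ^ 2 ≤ ((m.factorial * (2 * (i + 1) + m).factorial : ℕ) : ℝ) := by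
    exact_mod_cast hf
  have hA0 : 0 ≤ A := prod_nonneg (fun _ _ => sq_nonneg _)
  have h1 : A * (((i + 1 + m).factorial : ℕ) : ℝ) ^ 2 ≤ 2 * (((i + 1 + m).factorial : ℕ) : ℝ) ^ 2 * B := by
    rw [← h]
    exact mul_le_mul_of_nonneg_left hF hA0
  have h2 : A * (((i + 1 + m).factorial : ℕ) : ℝ) ^ 2 ≤ (2 * B) * (((i + 1 + m).factorial : ℕ) : ℝ) ^ 2 := by
    linarith
  exact le_of_mul_le_mul_right h2 hF0

lemma range_split (D : ℕ) (f : ℕ → ℝ) :
    ∏ j ∈ range (D + 2), f j = f 0 * f 1 * ∏ l ∈ range D, f (l + 2) := by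
  rw [prod_range_succ', prod_range_succ']
  simp only [zero_add]
  ring

lemma wt_ratio {D i : ℕ} (hi : i < D) :
    |wt D (i + 2)| ≤ 2 / (64 * ((i : ℝ) + 1) ^ 2 - 1) * |wt D 0| := by
  have hi0 : (0 : ℝ) ≤ i := Nat.cast_nonneg i
  set x := 64 * ((i : ℝ) + 1) ^ 2 with hx
  have hx1 : 1 < x := by rw [hx]; nlinarith
  -- product for node 0
  have h0 : |∏ j ∈ (range (D + 2)).erase 0, (node 0 - node j)| = ∏ l ∈ range D, (64 * ((l : ℝ) + 1) ^ 2) := by
    have he : (range (D + 2)).erase 0 = insert 1 ((range D).image (fun l => l + 2)) := by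
      ext j
      simp only [mem_erase, mem_range, mem_insert, mem_image]
      constructor
      · rintro ⟨h1, h2⟩
        by_cases hj : j = 1
        · left; exact hj
        · right; exact ⟨j - 2, by omega, by omega⟩
      · rintro (h | ⟨l, hl, rfl⟩) <;> omega
    rw [he, prod_insert (by simp), prod_image (by intro a _ b _ h; simpa using h), abs_mul, abs_prod]
    rw [node_zero, node_one]
    simp only [zero_sub, abs_neg, abs_one, one_mul]
    refine prod_congr rfl (fun l _ => ?_)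
    rw [node_add, abs_of_nonneg (by positivity)]
  have h1 : |∏ j ∈ (range (D + 2)).erase (i + 2), (node (i + 2) - node j)| =
      x * (x - 1) * ∏ l ∈ (range D).erase i, (64 * |((i : ℝ) + 1) ^ 2 - ((l : ℝ) + 1) ^ 2|) := by
    have he : (range (D + 2)).erase (i + 2) = insert 0 (insert 1 (((range D).erase i).image (fun l => l + 2))) := by
      ext j
      simp only [mem_erase, mem_range, mem_insert, mem_image]
      constructor
      · rintro ⟨h1, h2⟩
        by_cases hj0 : j = 0
        · left; exact hj0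
        by_cases hj : j = 1
        · right; left; exact hj
        · right; right; exact ⟨j - 2, ⟨by omega, by omega⟩, by omega⟩
      · rintro (h | h | ⟨l, ⟨hl1, hl2⟩, rfl⟩) <;> omega
    rw [he, prod_insert (by simp), prod_insert (by simp), prod_image (by intro a _ b _ h; simpa using h),
      abs_mul, abs_mul, abs_prod]
    have hpc : ∏ l ∈ (range D).erase i, |node (i + 2) - node (l + 2)| =
        ∏ l ∈ (range D).erase i, (64 * |((i : ℝ) + 1) ^ 2 - ((l : ℝ) + 1) ^ 2|) := by
      refine prod_congr rfl (fun l _ => ?_)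
      rw [node_add, node_add, ← mul_sub, abs_mul, abs_of_pos (by norm_num : (0:ℝ) < 64)]
    rw [hpc, node_zero, node_one, node_add, sub_zero,
      abs_of_nonneg (by positivity : (0:ℝ) ≤ 64 * ((i:ℝ) + 1) ^ 2),
      ← hx, abs_of_pos (by linarith : (0:ℝ) < x - 1)]
    ring
  unfold wt
  rw [abs_div, abs_div, abs_one, h0, h1]
  have hpos : 0 < ∏ l ∈ (range D).erase i, (64 * |((i : ℝ) + 1) ^ 2 - ((l : ℝ) + 1) ^ 2|) := by
    refine Finset.prod_pos (fun l hl => ?_)
    have hne : l ≠ i := (mem_erase.1 hl).1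
    have : ((i : ℝ) + 1) ^ 2 - ((l : ℝ) + 1) ^ 2 ≠ 0 := by
      intro h
      have h2 : ((i : ℝ) - l) * ((i : ℝ) + l + 2) = 0 := by linear_combination h
      rcases mul_eq_zero.1 h2 with h3 | h3
      · exact hne (by exact_mod_cast (sub_eq_zero.1 h3).symm)
      · have : (0 : ℝ) ≤ l := Nat.cast_nonneg l
        linarith
    have := abs_pos.2 this
    linarith
  have hprod : ∏ l ∈ range D, (64 * ((l : ℝ) + 1) ^ 2) = x * ∏ l ∈ (range D).erase i, (64 * ((l : ℝ) + 1) ^ 2) := by
    exact (mul_prod_erase (range D) (fun l : ℕ => 64 * ((l : ℝ) + 1) ^ 2) (mem_range.2 hi)).symm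
  have hb : ∏ l ∈ (range D).erase i, (64 * ((l : ℝ) + 1) ^ 2) ≤
      2 * ∏ l ∈ (range D).erase i, (64 * |((i : ℝ) + 1) ^ 2 - ((l : ℝ) + 1) ^ 2|) := by
    rw [prod_mul_distrib, prod_mul_distrib]
    have := prod_bound hi
    have hc : (0 : ℝ) ≤ ∏ _l ∈ (range D).erase i, (64 : ℝ) := by positivity
    nlinarith
  have hP0 : 0 < ∏ l ∈ range D, (64 * ((l : ℝ) + 1) ^ 2) := by
    refine prod_pos (fun l _ => ?_)
    positivity
  rw [div_mul_div_comm, mul_one, div_le_div_iff₀ (by positivity) (by nlinarith)]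
  rw [hprod] at hP0 ⊢
  have hxx : 0 < x - 1 := by linarith
  calc 1 * ((x - 1) * (x * ∏ l ∈ (range D).erase i, (64 * ((l : ℝ) + 1) ^ 2)))
      = (x - 1) * x * ∏ l ∈ (range D).erase i, (64 * ((l : ℝ) + 1) ^ 2) := by ring
    _ ≤ (x - 1) * x * (2 * ∏ l ∈ (range D).erase i, (64 * |((i : ℝ) + 1) ^ 2 - ((l : ℝ) + 1) ^ 2|)) :=
        mul_le_mul_of_nonneg_left hb (by positivity)
    _ = _ := by ring

lemma sum_inv_sq (D : ℕ) : ∑ i ∈ range D, 1 / ((i : ℝ) + 1) ^ 2 ≤ 2 - 2 / ((D : ℝ) + 1) := by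
  induction D with
  | zero => simp
  | succ D ih =>
    rw [sum_range_succ]
    have hD : (0 : ℝ) ≤ D := Nat.cast_nonneg D
    have key : 1 / ((D : ℝ) + 1) ^ 2 ≤ 2 / ((D : ℝ) + 1) - 2 / ((D : ℝ) + 1 + 1) := by
      rw [div_sub_div _ _ (by positivity) (by positivity), div_le_div_iff₀ (by positivity) (by positivity)]
      nlinarith
    push_cast
    linarith

theorem dual_nodes (D : ℕ) : ∃ β : ℕ → ℝ, (∑ k ∈ range (D + 2), |β k|) = 1 ∧
    47 / 100 ≤ β 0 ∧ ∀ q : ℝ[X], q.natDegree ≤ D → ∑ k ∈ range (D + 2), β k * q.eval (node k) = 0 := by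
  set W := ∑ k ∈ range (D + 2), |wt D k| with hW
  have hw0 : wt D 0 ≠ 0 := by
    unfold wt
    refine one_div_ne_zero (prod_ne_zero_iff.2 (fun j hj => ?_))
    have hne : j ≠ 0 := (mem_erase.1 hj).1
    exact sub_ne_zero.2 (fun h => hne (node_strictMono.injective h).symm)
  have hw0' : 0 < |wt D 0| := abs_pos.2 hw0
  have hsplit : ∀ f : ℕ → ℝ, ∑ k ∈ range (D + 2), f k = f 0 + f 1 + ∑ l ∈ range D, f (l + 2) := by
    intro f
    rw [sum_range_succ', sum_range_succ']
    simp only [zero_add]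
    ring
  -- rest
  have hrest : ∑ l ∈ range D, |wt D (l + 2)| ≤ 4 / 63 * |wt D 0| := by
    have h1 : ∀ l ∈ range D, |wt D (l + 2)| ≤ (2 / 63 * |wt D 0|) * (1 / ((l : ℝ) + 1) ^ 2) := by
      intro l hl
      refine (wt_ratio (mem_range.1 hl)).trans ?_
      have hl0 : (0 : ℝ) ≤ l := Nat.cast_nonneg l
      have h2 : 2 / (64 * ((l : ℝ) + 1) ^ 2 - 1) ≤ 2 / 63 * (1 / ((l : ℝ) + 1) ^ 2) := by
        rw [div_mul_div_comm, mul_one, div_le_div_iff₀ (by nlinarith) (by positivity)]
        nlinarith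
      calc 2 / (64 * ((l : ℝ) + 1) ^ 2 - 1) * |wt D 0| ≤ (2 / 63 * (1 / ((l : ℝ) + 1) ^ 2)) * |wt D 0| :=
            mul_le_mul_of_nonneg_right h2 hw0'.le
        _ = _ := by ring
    refine (sum_le_sum h1).trans ?_
    rw [← mul_sum]
    have h3 := sum_inv_sq D
    have h4 : (0 : ℝ) ≤ 2 / ((D : ℝ) + 1) := by positivity
    have h5 : ∑ i ∈ range D, 1 / ((i : ℝ) + 1) ^ 2 ≤ 2 := by linarith
    calc (2 / 63 * |wt D 0|) * ∑ i ∈ range D, 1 / ((i : ℝ) + 1) ^ 2 ≤ (2 / 63 * |wt D 0|) * 2 :=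
          mul_le_mul_of_nonneg_left h5 (by positivity)
      _ = _ := by ring
  -- sum of weights is zero
  have hsum0 : ∑ k ∈ range (D + 2), wt D k = 0 := by
    have := wt_orth D 1 (by simp)
    simpa using this
  rw [hsplit] at hsum0
  have hw1 : |wt D 1| ≤ |wt D 0| + 4 / 63 * |wt D 0| := by
    have h1 : wt D 1 = -(wt D 0 + ∑ l ∈ range D, wt D (l + 2)) := by linarith
    rw [h1, abs_neg]
    refine (abs_add_le _ _).trans ?_
    have := (abs_sum_le_sum_abs (fun l => wt D (l + 2)) (range D)).trans hrest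
    linarith
  have hWle : W ≤ 134 / 63 * |wt D 0| := by
    rw [hW, hsplit]
    linarith
  have hW0 : 0 < W := by
    rw [hW, hsplit]
    have := sum_nonneg (fun l (_ : l ∈ range D) => abs_nonneg (wt D (l + 2)))
    have := abs_nonneg (wt D 1)
    linarith
  set σ : ℝ := if 0 ≤ wt D 0 then 1 else -1 with hσ
  have hσ1 : σ * wt D 0 = |wt D 0| := by
    rw [hσ]
    split_ifs with h
    · rw [abs_of_nonneg h]; ring
    · rw [abs_of_neg (not_le.1 h)]; ring
  have hσ2 : |σ| = 1 := by rw [hσ]; split_ifs <;> simp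
  refine ⟨fun k => σ * wt D k / W, ?_, ?_, ?_⟩
  · have : ∀ k ∈ range (D + 2), |σ * wt D k / W| = |wt D k| / W := by
      intro k _
      rw [abs_div, abs_mul, hσ2, one_mul, abs_of_pos hW0]
    rw [sum_congr rfl this, ← sum_div, ← hW, div_self hW0.ne']
  · show 47 / 100 ≤ σ * wt D 0 / W
    rw [hσ1, le_div_iff₀ hW0]
    linarith
  · intro q hq
    have := wt_orth D q hq
    calc ∑ k ∈ range (D + 2), σ * wt D k / W * q.eval (node k)
        = (σ / W) * ∑ k ∈ range (D + 2), wt D k * q.eval (node k) := by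
          rw [mul_sum]
          refine sum_congr rfl (fun k _ => ?_)
          ring
      _ = 0 := by rw [this, mul_zero]

end Pool.Agent.Lib_helper65.Rand
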