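import Mathlib
import Pool.Agent.Lib_helper65.Rand.RNodes

/-!
# A dual object for the polynomial degree of OR on the cube
-/

namespace Pool.Agent.Lib_helper65.Rand

open Finset Polynomial

/-- product weight -/
noncomputable def bern (t : ℕ) (p : ℝ) (v : Fin t → Bool) : ℝ := ∏ b, (if v b then p else 1 - p)

lemma bern_nonneg {t : ℕ} {p : ℝ} (h0 : 0 ≤ p) (h1 : p ≤ 1) (v : Fin t → Bool) : 0 ≤ bern t p v := by
  unfold bern
  refine prod_nonneg (fun b _ => ?_)
  split_ifs <;> linarith

lemma bern_sum {t : ℕ} (p : ℝ) (J : Finset (Fin t)) (u : Fin t → Bool) :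
    ∑ v ∈ univ.filter (fun v : Fin t → Bool => ∀ b ∈ J, v b = u b), bern t p v =
      ∏ b ∈ J, (if u b then p else 1 - p) := by
  classical
  have h1 : univ.filter (fun v : Fin t → Bool => ∀ b ∈ J, v b = u b) =
      Fintype.piFinset (fun b => if b ∈ J then ({u b} : Finset Bool) else univ) := by
    ext v
    simp only [mem_filter, mem_univ, true_and, Fintype.mem_piFinset]
    refine forall_congr' (fun b => ?_)
    by_cases hb : b ∈ J <;> simp [hb]
  rw [h1]
  unfold bern
  have h2 := Finset.prod_univ_sum (fun b : Fin t => if b ∈ J then ({u b} : Finset Bool) else univ)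
    (fun (_ : Fin t) (c : Bool) => if c then p else 1 - p)
  rw [← h2]
  have h3 : ∀ b : Fin t, (∑ c ∈ (if b ∈ J then ({u b} : Finset Bool) else univ), (if c then p else 1 - p)) =
      if b ∈ J then (if u b then p else 1 - p) else 1 := by
    intro b
    by_cases hb : b ∈ J
    · simp [hb]
    · simp [hb]
  rw [prod_congr rfl (fun b _ => h3 b), Finset.prod_ite_mem, univ_inter]

/-- dual object -/
structure IsDual (t D : ℕ) (ψ : (Fin t → Bool) → ℝ) : Prop where
  l1 : ∑ v, |ψ v| ≤ 1
  orth : ∀ J : Finset (Fin t), J.card ≤ D → ∀ u : Fin t → Bool,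
    ∑ v ∈ univ.filter (fun v : Fin t → Bool => ∀ b ∈ J, v b = u b), ψ v = 0
  zero : 46 / 100 ≤ ψ (fun _ => false)

theorem dual_exists (D : ℕ) (hD : 1 ≤ D) : ∃ ψ, IsDual (512 * D ^ 2) D ψ := by
  classical
  obtain ⟨β, hβ1, hβ0, hβ⟩ := dual_nodes D
  set t := 512 * D ^ 2 with ht
  have hDr : (1 : ℝ) ≤ D := by exact_mod_cast hD
  have htr : (t : ℝ) = 512 * (D : ℝ) ^ 2 := by rw [ht]; push_cast; ring
  have ht0 : (0 : ℝ) < t := by rw [htr]; positivity
  set a : ℝ := 8 / t with ha
  have ha0 : 0 < a := by rw [ha]; positivity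
  have hp0 : ∀ k, 0 ≤ a * node k := fun k => mul_nonneg ha0.le (node_nonneg k)
  have hp1 : ∀ k, k < D + 2 → a * node k ≤ 1 := by
    intro k hk
    have h1 := node_le hD hk
    calc a * node k ≤ a * (64 * (D : ℝ) ^ 2) := mul_le_mul_of_nonneg_left h1 ha0.le
      _ = 1 := by rw [ha, htr]; field_simp; norm_num
  refine ⟨fun v => ∑ k ∈ range (D + 2), β k * bern t (a * node k) v, ?_, ?_, ?_⟩
  · calc ∑ v : Fin t → Bool, |∑ k ∈ range (D + 2), β k * bern t (a * node k) v|
        ≤ ∑ v : Fin t → Bool, ∑ k ∈ range (D + 2), |β k| * bern t (a * node k) v := by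
          refine sum_le_sum (fun v _ => (abs_sum_le_sum_abs _ _).trans (sum_le_sum (fun k hk => ?_)))
          rw [abs_mul, abs_of_nonneg (bern_nonneg (hp0 k) (hp1 k (mem_range.1 hk)) v)]
      _ = ∑ k ∈ range (D + 2), |β k| * ∑ v : Fin t → Bool, bern t (a * node k) v := by
          rw [sum_comm]
          refine sum_congr rfl (fun k _ => ?_)
          rw [mul_sum]
      _ = ∑ k ∈ range (D + 2), |β k| * 1 := by
          refine sum_congr rfl (fun k _ => ?_)
          have := bern_sum (t := t) (a * node k) ∅ (fun _ => false)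
          simp only [notMem_empty, false_imp_iff, implies_true, filter_true, prod_empty] at this
          rw [this]
      _ = 1 := by simp only [mul_one]; exact hβ1
      _ ≤ 1 := le_rfl
  · intro J hJ u
    rw [sum_comm]
    have h1 : ∀ k ∈ range (D + 2), ∑ v ∈ univ.filter (fun v : Fin t → Bool => ∀ b ∈ J, v b = u b),
        β k * bern t (a * node k) v = β k * (∏ b ∈ J, (if u b then C a * X else 1 - C a * X : ℝ[X])).eval (node k) := by
      intro k _
      rw [← mul_sum, bern_sum]
      congr 1
      rw [eval_prod]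
      refine prod_congr rfl (fun b _ => ?_)
      split_ifs <;> simp
    rw [sum_congr rfl h1]
    refine hβ _ ?_
    refine (natDegree_prod_le _ _).trans ?_
    refine (sum_le_card_nsmul J _ 1 (fun b _ => ?_)).trans (by simpa using hJ)
    split_ifs
    · exact (natDegree_C_mul_le a X).trans natDegree_X_le
    · refine (natDegree_sub_le _ _).trans ?_
      simp only [natDegree_one]
      exact max_le (by norm_num) ((natDegree_C_mul_le a X).trans natDegree_X_le)
  · show 46 / 100 ≤ ∑ k ∈ range (D + 2), β k * bern t (a * node k) (fun _ => false)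
    have hb : ∀ k, bern t (a * node k) (fun _ => false) = (1 - a * node k) ^ t := by
      intro k; simp [bern]
    simp only [hb]
    rw [sum_range_succ']
    simp only [node_zero, mul_zero, sub_zero, one_pow, mul_one]
    rw [sum_range_succ'] at hβ1
    have hsmall : |∑ k ∈ range (D + 1), β (k + 1) * (1 - a * node (k + 1)) ^ t| ≤ 1 / 100 := by
      refine (abs_sum_le_sum_abs _ _).trans ?_
      have h1 : ∀ k ∈ range (D + 1), |β (k + 1) * (1 - a * node (k + 1)) ^ t| ≤ |β (k + 1)| * (1 / 100) := by
        intro k hk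
        rw [abs_mul]
        refine mul_le_mul_of_nonneg_left ?_ (abs_nonneg _)
        have hk' : k + 1 < D + 2 := by have := mem_range.1 hk; omega
        have hq0 : 0 ≤ 1 - a * node (k + 1) := by linarith [hp1 _ hk']
        rw [abs_of_nonneg (pow_nonneg hq0 _)]
        have h2 : 1 - a * node (k + 1) ≤ Real.exp (-(8 / t)) := by
          have h3 := Real.add_one_le_exp (-(8 / (t : ℝ)))
          have h4 : a ≤ a * node (k + 1) := by
            have := one_le_node (k := k + 1) (by omega)
            nlinarith
          rw [ha] at h4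
          rw [ha]
          linarith
        calc (1 - a * node (k + 1)) ^ t ≤ Real.exp (-(8 / t)) ^ t := pow_le_pow_left₀ hq0 h2 _
          _ = Real.exp (-8) := by
              rw [← Real.exp_nat_mul]
              congr 1
              field_simp
          _ ≤ 1 / 100 := by
              rw [Real.exp_neg, ← one_div]
              apply one_div_le_one_div_of_le (by norm_num)
              have h5 : (2 : ℝ) ≤ Real.exp 1 := by
                have := Real.add_one_le_exp (1 : ℝ)
                linarith
              calc (100 : ℝ) ≤ 2 ^ 8 := by norm_num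
                _ ≤ Real.exp 1 ^ 8 := pow_le_pow_left₀ (by norm_num) h5 8
                _ = Real.exp 8 := by rw [← Real.exp_nat_mul]; norm_num
      refine (sum_le_sum h1).trans ?_
      rw [← sum_mul]
      have : ∑ k ∈ range (D + 1), |β (k + 1)| ≤ 1 := by
        have := abs_nonneg (β 0)
        linarith
      nlinarith
    have := (abs_le.1 hsmall).1
    linarith

end Pool.Agent.Lib_helper65.Rand
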