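import Mathlib
import Pool.Agent.Lib_helper65.Rand.RDual

/-!
# Three-party number-on-the-forehead discrepancy of a composed dual object
-/

namespace Pool.Agent.Lib_helper65.Rand

open Finset

abbrev XT (t s : ℕ) := Fin t → Fin s
abbrev ZT (t s : ℕ) := Fin t → Fin s → Fin s → Bool

/-- the selected bits -/
def sel {t s : ℕ} (z : ZT t s) (x y : XT t s) : Fin t → Bool := fun b => z b (x b) (y b)

/-- flip the bits selected by `(x, y)` in the blocks of `ε` -/
def flipAt {t s : ℕ} (x y : XT t s) (ε : Fin t → Bool) (z : ZT t s) : ZT t s :=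
  fun b i j => xor (z b i j) (ε b && decide (i = x b) && decide (j = y b))

lemma flipAt_flipAt {t s : ℕ} (x y : XT t s) (ε : Fin t → Bool) (z : ZT t s) :
    flipAt x y ε (flipAt x y ε z) = z := by
  funext b i j
  simp only [flipAt, Bool.xor_assoc, Bool.xor_self, Bool.xor_false]

def vxor {t : ℕ} (v ε : Fin t → Bool) : Fin t → Bool := fun b => xor (v b) (ε b)

lemma sel_flipAt_self {t s : ℕ} (x y : XT t s) (ε : Fin t → Bool) (z : ZT t s) :
    sel (flipAt x y ε z) x y = vxor (sel z x y) ε := by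
  funext b
  simp [sel, flipAt, vxor]

lemma sel_flipAt_ne {t s : ℕ} (x y x' y' : XT t s) (ε : Fin t → Bool) (z : ZT t s)
    (h : ∀ b, ε b = true → x' b ≠ x b ∨ y' b ≠ y b) :
    sel (flipAt x y ε z) x' y' = sel z x' y' := by
  funext b
  simp only [sel, flipAt]
  by_cases he : ε b = true
  · rcases h b he with h | h <;> simp [h]
  · simp [he]

/-- vectors supported on `N` -/
def supp {t : ℕ} (N : Finset (Fin t)) : Finset (Fin t → Bool) :=
  univ.filter (fun ε => ∀ b, b ∉ N → ε b = false)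

lemma card_supp {t : ℕ} (N : Finset (Fin t)) : (supp N).card = 2 ^ N.card := by
  classical
  have h : supp N = Fintype.piFinset (fun b => if b ∈ N then (univ : Finset Bool) else {false}) := by
    ext ε
    simp only [supp, mem_filter, mem_univ, true_and, Fintype.mem_piFinset]
    refine forall_congr' (fun b => ?_)
    by_cases hb : b ∈ N <;> simp [hb]
  rw [h, Fintype.card_piFinset]
  have h2 : ∀ b : Fin t, (if b ∈ N then (univ : Finset Bool) else {false}).card = if b ∈ N then 2 else 1 := by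
    intro b
    by_cases hb : b ∈ N <;> simp [hb]
  rw [prod_congr rfl (fun b _ => h2 b), Finset.prod_ite_mem, univ_inter, prod_const]

/-- sum over a subcube -/
def cubeSum {t : ℕ} (N : Finset (Fin t)) (a : (Fin t → Bool) → ℝ) (v : Fin t → Bool) : ℝ :=
  ∑ ε ∈ supp N, a (vxor v ε)

lemma corner_avg {t s : ℕ} (x y : XT t s) (N : Finset (Fin t)) (a : (Fin t → Bool) → ℝ) (H : ZT t s → ℝ)
    (hH : ∀ ε ∈ supp N, ∀ z, H (flipAt x y ε z) = H z) :
    (2 : ℝ) ^ N.card * ∑ z, a (sel z x y) * H z = ∑ z, cubeSum N a (sel z x y) * H z := by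
  have h1 : ∀ ε ∈ supp N, ∑ z, a (vxor (sel z x y) ε) * H z = ∑ z, a (sel z x y) * H z := by
    intro ε hε
    let e : Equiv.Perm (ZT t s) := Function.Involutive.toPerm (flipAt x y ε) (flipAt_flipAt x y ε)
    rw [← Equiv.sum_comp e (fun z => a (sel z x y) * H z)]
    refine sum_congr rfl (fun z _ => ?_)
    show _ = a (sel (flipAt x y ε z) x y) * H (flipAt x y ε z)
    rw [sel_flipAt_self, hH ε hε]
  calc (2 : ℝ) ^ N.card * ∑ z, a (sel z x y) * H z
      = ∑ _ε ∈ supp N, ∑ z, a (sel z x y) * H z := by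
        rw [sum_const, card_supp, nsmul_eq_mul]; push_cast; ring
    _ = ∑ ε ∈ supp N, ∑ z, a (vxor (sel z x y) ε) * H z := (sum_congr rfl h1).symm
    _ = ∑ z, cubeSum N a (sel z x y) * H z := by
        rw [sum_comm]
        refine sum_congr rfl (fun z _ => ?_)
        rw [cubeSum, sum_mul]

lemma vxor_inj {t : ℕ} (v : Fin t → Bool) : Function.Injective (vxor v) := by
  intro ε ε' h
  funext b
  have := congrFun h b
  simp only [vxor] at this
  cases hv : v b <;> simp_all

lemma cubeSum_abs_le {t : ℕ} (N : Finset (Fin t)) (ψ : (Fin t → Bool) → ℝ) (h : ∑ v, |ψ v| ≤ 1)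
    (v : Fin t → Bool) : cubeSum N (fun v => |ψ v|) v ≤ 1 := by
  classical
  unfold cubeSum
  rw [← sum_image (f := fun v => |ψ v|) (g := vxor v) (fun a _ b _ hab => vxor_inj v hab)]
  exact (sum_le_univ_sum_of_nonneg (fun _ => abs_nonneg _)).trans h

lemma cubeSum_abs_nonneg {t : ℕ} (N : Finset (Fin t)) (ψ : (Fin t → Bool) → ℝ)
    (v : Fin t → Bool) : 0 ≤ cubeSum N (fun v => |ψ v|) v := sum_nonneg (fun _ _ => abs_nonneg _)

lemma cubeSum_zero {t D : ℕ} (N : Finset (Fin t)) {ψ : (Fin t → Bool) → ℝ} (hψ : IsDual t D ψ)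
    (hN : (univ \ N).card ≤ D) (v : Fin t → Bool) : cubeSum N ψ v = 0 := by
  classical
  unfold cubeSum
  rw [← sum_image (f := ψ) (g := vxor v) (fun a _ b _ hab => vxor_inj v hab)]
  rw [← hψ.orth (univ \ N) hN v]
  refine sum_congr ?_ (fun _ _ => rfl)
  ext w
  simp only [mem_image, mem_filter, mem_univ, true_and, supp, mem_sdiff]
  constructor
  · rintro ⟨ε, hε, rfl⟩ b hb
    simp [vxor, hε b hb]
  · intro h
    refine ⟨vxor v w, ?_, ?_⟩
    · intro b hb
      simp [vxor, h b hb]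
    · funext b
      simp [vxor]

/-- nondegenerate blocks -/
def nondeg {t s : ℕ} (x x' y y' : XT t s) : Finset (Fin t) := univ.filter (fun b => x b ≠ x' b ∧ y b ≠ y' b)

/-- degenerate blocks -/
def deg {t s : ℕ} (x x' y y' : XT t s) : Finset (Fin t) := univ.filter (fun b => x b = x' b ∨ y b = y' b)

lemma sdiff_nondeg {t s : ℕ} (x x' y y' : XT t s) : univ \ nondeg x x' y y' = deg x x' y y' := by
  ext b
  simp only [nondeg, deg, mem_sdiff, mem_filter, mem_univ, true_and]
  tauto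

lemma card_deg_add {t s : ℕ} (x x' y y' : XT t s) :
    (deg x x' y y').card + (nondeg x x' y y').card = t := by
  rw [← sdiff_nondeg, card_sdiff_add_card_eq_card (subset_univ _), card_univ, Fintype.card_fin]

section corners

variable {t s : ℕ} (x x' y y' : XT t s)

lemma supp_nondeg {ε : Fin t → Bool} (hε : ε ∈ supp (nondeg x x' y y')) (b : Fin t) (hb : ε b = true) :
    x b ≠ x' b ∧ y b ≠ y' b := by
  simp only [supp, mem_filter, mem_univ, true_and] at hε
  by_contra hcon
  have : b ∉ nondeg x x' y y' := by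
    simp only [nondeg, mem_filter, mem_univ, true_and]; exact hcon
  rw [hε b this] at hb
  exact absurd hb (by simp)

/-- averaging over all four corners -/
lemma four_avg (a1 a2 a3 a4 : (Fin t → Bool) → ℝ) :
    ((2 : ℝ) ^ (nondeg x x' y y').card) ^ 4 *
      ∑ z : ZT t s, (a1 (sel z x y) * a2 (sel z x y')) * (a3 (sel z x' y) * a4 (sel z x' y')) =
    ∑ z : ZT t s, (cubeSum (nondeg x x' y y') a1 (sel z x y) * cubeSum (nondeg x x' y y') a2 (sel z x y')) *
      (cubeSum (nondeg x x' y y') a3 (sel z x' y) * cubeSum (nondeg x x' y y') a4 (sel z x' y')) := by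
  set N := nondeg x x' y y' with hN
  have step1 : ∀ b1 b2 b3 b4 : (Fin t → Bool) → ℝ, (2 : ℝ) ^ N.card *
      ∑ z : ZT t s, (b1 (sel z x y) * b2 (sel z x y')) * (b3 (sel z x' y) * b4 (sel z x' y')) =
      ∑ z : ZT t s, (cubeSum N b1 (sel z x y) * b2 (sel z x y')) * (b3 (sel z x' y) * b4 (sel z x' y')) := by
    intro b1 b2 b3 b4
    have := corner_avg x y N b1 (fun z => b2 (sel z x y') * (b3 (sel z x' y) * b4 (sel z x' y'))) ?_
    · simpa only [mul_assoc] using this
    · intro ε hε z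
      rw [sel_flipAt_ne x y x y' ε z (fun b hb => Or.inr (supp_nondeg x x' y y' hε b hb).2.symm),
        sel_flipAt_ne x y x' y ε z (fun b hb => Or.inl (supp_nondeg x x' y y' hε b hb).1.symm),
        sel_flipAt_ne x y x' y' ε z (fun b hb => Or.inl (supp_nondeg x x' y y' hε b hb).1.symm)]
  have step2 : ∀ b1 b2 b3 b4 : (Fin t → Bool) → ℝ, (2 : ℝ) ^ N.card *
      ∑ z : ZT t s, (b1 (sel z x y) * b2 (sel z x y')) * (b3 (sel z x' y) * b4 (sel z x' y')) =
      ∑ z : ZT t s, (b1 (sel z x y) * cubeSum N b2 (sel z x y')) * (b3 (sel z x' y) * b4 (sel z x' y')) := by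
    intro b1 b2 b3 b4
    have := corner_avg x y' N b2 (fun z => b1 (sel z x y) * (b3 (sel z x' y) * b4 (sel z x' y'))) ?_
    · rw [show (∑ z : ZT t s, (b1 (sel z x y) * b2 (sel z x y')) * (b3 (sel z x' y) * b4 (sel z x' y'))) =
        ∑ z : ZT t s, b2 (sel z x y') * (b1 (sel z x y) * (b3 (sel z x' y) * b4 (sel z x' y'))) from
        sum_congr rfl (fun z _ => by ring), this]
      exact sum_congr rfl (fun z _ => by ring)
    · intro ε hε z
      rw [sel_flipAt_ne x y' x y ε z (fun b hb => Or.inr (supp_nondeg x x' y y' hε b hb).2),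
        sel_flipAt_ne x y' x' y ε z (fun b hb => Or.inl (supp_nondeg x x' y y' hε b hb).1.symm),
        sel_flipAt_ne x y' x' y' ε z (fun b hb => Or.inl (supp_nondeg x x' y y' hε b hb).1.symm)]
  have step3 : ∀ b1 b2 b3 b4 : (Fin t → Bool) → ℝ, (2 : ℝ) ^ N.card *
      ∑ z : ZT t s, (b1 (sel z x y) * b2 (sel z x y')) * (b3 (sel z x' y) * b4 (sel z x' y')) =
      ∑ z : ZT t s, (b1 (sel z x y) * b2 (sel z x y')) * (cubeSum N b3 (sel z x' y) * b4 (sel z x' y')) := by
    intro b1 b2 b3 b4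
    have := corner_avg x' y N b3 (fun z => b1 (sel z x y) * (b2 (sel z x y') * b4 (sel z x' y'))) ?_
    · rw [show (∑ z : ZT t s, (b1 (sel z x y) * b2 (sel z x y')) * (b3 (sel z x' y) * b4 (sel z x' y'))) =
        ∑ z : ZT t s, b3 (sel z x' y) * (b1 (sel z x y) * (b2 (sel z x y') * b4 (sel z x' y'))) from
        sum_congr rfl (fun z _ => by ring), this]
      exact sum_congr rfl (fun z _ => by ring)
    · intro ε hε z
      rw [sel_flipAt_ne x' y x y ε z (fun b hb => Or.inl (supp_nondeg x x' y y' hε b hb).1),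
        sel_flipAt_ne x' y x y' ε z (fun b hb => Or.inl (supp_nondeg x x' y y' hε b hb).1),
        sel_flipAt_ne x' y x' y' ε z (fun b hb => Or.inr (supp_nondeg x x' y y' hε b hb).2.symm)]
  have step4 : ∀ b1 b2 b3 b4 : (Fin t → Bool) → ℝ, (2 : ℝ) ^ N.card *
      ∑ z : ZT t s, (b1 (sel z x y) * b2 (sel z x y')) * (b3 (sel z x' y) * b4 (sel z x' y')) =
      ∑ z : ZT t s, (b1 (sel z x y) * b2 (sel z x y')) * (b3 (sel z x' y) * cubeSum N b4 (sel z x' y')) := by
    intro b1 b2 b3 b4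
    have := corner_avg x' y' N b4 (fun z => b1 (sel z x y) * (b2 (sel z x y') * b3 (sel z x' y))) ?_
    · rw [show (∑ z : ZT t s, (b1 (sel z x y) * b2 (sel z x y')) * (b3 (sel z x' y) * b4 (sel z x' y'))) =
        ∑ z : ZT t s, b4 (sel z x' y') * (b1 (sel z x y) * (b2 (sel z x y') * b3 (sel z x' y))) from
        sum_congr rfl (fun z _ => by ring), this]
      exact sum_congr rfl (fun z _ => by ring)
    · intro ε hε z
      rw [sel_flipAt_ne x' y' x y ε z (fun b hb => Or.inl (supp_nondeg x x' y y' hε b hb).1),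
        sel_flipAt_ne x' y' x y' ε z (fun b hb => Or.inl (supp_nondeg x x' y y' hε b hb).1),
        sel_flipAt_ne x' y' x' y ε z (fun b hb => Or.inr (supp_nondeg x x' y y' hε b hb).2)]
  rw [← step4, ← step3, ← step2, ← step1]
  ring

lemma four_zero {D : ℕ} {ψ : (Fin t → Bool) → ℝ} (hψ : IsDual t D ψ) (hD : (deg x x' y y').card ≤ D) :
    ∑ z : ZT t s, (ψ (sel z x y) * ψ (sel z x y')) * (ψ (sel z x' y) * ψ (sel z x' y')) = 0 := by
  have h := four_avg x x' y y' ψ ψ ψ ψ
  have h0 : ∀ v, cubeSum (nondeg x x' y y') ψ v = 0 := by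
    intro v
    refine cubeSum_zero _ hψ ?_ v
    rw [sdiff_nondeg]; exact hD
  simp only [h0, mul_zero, sum_const_zero] at h
  have hp : ((2 : ℝ) ^ (nondeg x x' y y').card) ^ 4 ≠ 0 := by positivity
  exact (mul_eq_zero.1 h).resolve_left hp

lemma four_le {ψ : (Fin t → Bool) → ℝ} (hψ : ∑ v, |ψ v| ≤ 1) :
    |∑ z : ZT t s, (ψ (sel z x y) * ψ (sel z x y')) * (ψ (sel z x' y) * ψ (sel z x' y'))| * 16 ^ t ≤
      Fintype.card (ZT t s) * 16 ^ (deg x x' y y').card := by
  have h := four_avg x x' y y' (fun v => |ψ v|) (fun v => |ψ v|) (fun v => |ψ v|) (fun v => |ψ v|)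
  set N := nondeg x x' y y' with hN
  have h1 : |∑ z : ZT t s, (ψ (sel z x y) * ψ (sel z x y')) * (ψ (sel z x' y) * ψ (sel z x' y'))| ≤
      ∑ z : ZT t s, (|ψ (sel z x y)| * |ψ (sel z x y')|) * (|ψ (sel z x' y)| * |ψ (sel z x' y')|) := by
    refine (abs_sum_le_sum_abs _ _).trans (sum_le_sum (fun z _ => ?_))
    rw [abs_mul, abs_mul, abs_mul]
  have h2 : ∑ z : ZT t s, (cubeSum N (fun v => |ψ v|) (sel z x y) * cubeSum N (fun v => |ψ v|) (sel z x y')) *
      (cubeSum N (fun v => |ψ v|) (sel z x' y) * cubeSum N (fun v => |ψ v|) (sel z x' y')) ≤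
      Fintype.card (ZT t s) := by
    calc _ ≤ ∑ _z : ZT t s, (1 : ℝ) := by
          refine sum_le_sum (fun z _ => ?_)
          have a1 := cubeSum_abs_le N ψ hψ (sel z x y)
          have a2 := cubeSum_abs_le N ψ hψ (sel z x y')
          have a3 := cubeSum_abs_le N ψ hψ (sel z x' y)
          have a4 := cubeSum_abs_le N ψ hψ (sel z x' y')
          have b1 := cubeSum_abs_nonneg N ψ (sel z x y)
          have b2 := cubeSum_abs_nonneg N ψ (sel z x y')
          have b3 := cubeSum_abs_nonneg N ψ (sel z x' y)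
          have b4 := cubeSum_abs_nonneg N ψ (sel z x' y')
          exact mul_le_one₀ (mul_le_one₀ a1 b2 a2) (mul_nonneg b3 b4) (mul_le_one₀ a3 b4 a4)
      _ = _ := by simp
  rw [← h] at h2
  have h3 : (16 : ℝ) ^ t = ((2 : ℝ) ^ N.card) ^ 4 * 16 ^ (deg x x' y y').card := by
    have := card_deg_add x x' y y'
    rw [← hN] at this
    calc (16 : ℝ) ^ t = 16 ^ ((deg x x' y y').card + N.card) := by rw [this]
      _ = _ := by
        rw [pow_add, ← pow_mul, mul_comm N.card 4, pow_mul]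
        norm_num
        ring
  rw [h3]
  calc |∑ z : ZT t s, (ψ (sel z x y) * ψ (sel z x y')) * (ψ (sel z x' y) * ψ (sel z x' y'))| *
        (((2 : ℝ) ^ N.card) ^ 4 * 16 ^ (deg x x' y y').card)
      ≤ (∑ z : ZT t s, (|ψ (sel z x y)| * |ψ (sel z x y')|) * (|ψ (sel z x' y)| * |ψ (sel z x' y')|)) *
        (((2 : ℝ) ^ N.card) ^ 4 * 16 ^ (deg x x' y y').card) :=
        mul_le_mul_of_nonneg_right h1 (by positivity)
    _ = (((2 : ℝ) ^ N.card) ^ 4 * ∑ z : ZT t s, (|ψ (sel z x y)| * |ψ (sel z x y')|) *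
          (|ψ (sel z x' y)| * |ψ (sel z x' y')|)) * 16 ^ (deg x x' y y').card := by ring
    _ ≤ _ := mul_le_mul_of_nonneg_right h2 (by positivity)

end corners

end Pool.Agent.Lib_helper65.Rand
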