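import Mathlib
import Pool.Agent.Lib_helper65.Rand.RDisc

/-!
# The discrepancy bound
-/

namespace Pool.Agent.Lib_helper65.Rand

open Finset

def patt (s : ℕ) (c : (Fin s × Fin s) × (Fin s × Fin s)) : ℝ := if c.1.1 = c.1.2 ∨ c.2.1 = c.2.2 then 512 else 1

lemma card_patt (s : ℕ) : ((univ : Finset ((Fin s × Fin s) × (Fin s × Fin s))).filter
    (fun c => c.1.1 = c.1.2 ∨ c.2.1 = c.2.2)).card ≤ 2 * s ^ 3 := by
  classical
  have hsub : (univ : Finset ((Fin s × Fin s) × (Fin s × Fin s))).filter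
      (fun c => c.1.1 = c.1.2 ∨ c.2.1 = c.2.2) ⊆
      (univ.image (fun p : Fin s × (Fin s × Fin s) => (((p.1, p.1), p.2) : (Fin s × Fin s) × (Fin s × Fin s)))) ∪
      (univ.image (fun p : (Fin s × Fin s) × Fin s => ((p.1, (p.2, p.2)) : (Fin s × Fin s) × (Fin s × Fin s)))) := by
    intro p hp
    simp only [mem_filter, mem_univ, true_and] at hp
    simp only [mem_union, mem_image, mem_univ, true_and]
    rcases hp with hp | hp
    · left
      exact ⟨(p.1.1, p.2), by ext <;> simp [hp]⟩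
    · right
      exact ⟨(p.1, p.2.1), by ext <;> simp [hp]⟩
  refine (card_le_card hsub).trans ((card_union_le _ _).trans ?_)
  have h1 : (univ.image (fun p : Fin s × (Fin s × Fin s) =>
      (((p.1, p.1), p.2) : (Fin s × Fin s) × (Fin s × Fin s)))).card ≤ s ^ 3 := by
    refine card_image_le.trans ?_
    simp only [card_univ, Fintype.card_prod, Fintype.card_fin]
    apply le_of_eq; ring
  have h2 : (univ.image (fun p : (Fin s × Fin s) × Fin s =>
      ((p.1, (p.2, p.2)) : (Fin s × Fin s) × (Fin s × Fin s)))).card ≤ s ^ 3 := by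
    refine card_image_le.trans ?_
    simp only [card_univ, Fintype.card_prod, Fintype.card_fin]
    apply le_of_eq; ring
  omega

lemma patt_sum (s : ℕ) : ∑ c, patt s c ≤ (s : ℝ) ^ 4 + 1022 * (s : ℝ) ^ 3 := by
  classical
  have h1 : ∀ c, patt s c = 1 + 511 * (if c.1.1 = c.1.2 ∨ c.2.1 = c.2.2 then (1 : ℝ) else 0) := by
    intro c
    unfold patt
    split_ifs <;> norm_num
  rw [sum_congr rfl (fun c _ => h1 c), sum_add_distrib, ← mul_sum, sum_boole]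
  have h2 : (((univ : Finset ((Fin s × Fin s) × (Fin s × Fin s))).filter
    (fun c => c.1.1 = c.1.2 ∨ c.2.1 = c.2.2)).card : ℝ) ≤ 2 * (s : ℝ) ^ 3 := by
    exact_mod_cast card_patt s
  have h3 : ∑ _c : (Fin s × Fin s) × (Fin s × Fin s), (1 : ℝ) = (s : ℝ) ^ 4 := by
    simp only [sum_const, card_univ, Fintype.card_prod, Fintype.card_fin, nsmul_eq_mul, mul_one]
    push_cast; ring
  rw [h3]
  linarith

lemma deg_sum (t s : ℕ) : ∑ q : (XT t s × XT t s) × (XT t s × XT t s),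
    (512 : ℝ) ^ (deg q.1.1 q.1.2 q.2.1 q.2.2).card ≤ ((s : ℝ) ^ 4 + 1022 * (s : ℝ) ^ 3) ^ t := by
  classical
  have h1 : ∀ q : (XT t s × XT t s) × (XT t s × XT t s), (512 : ℝ) ^ (deg q.1.1 q.1.2 q.2.1 q.2.2).card =
      ∏ b, patt s ((q.1.1 b, q.1.2 b), (q.2.1 b, q.2.2 b)) := by
    intro q
    unfold patt deg
    rw [prod_ite, prod_const, prod_const_one, mul_one]
  rw [sum_congr rfl (fun q _ => h1 q)]
  let e : ((XT t s × XT t s) × (XT t s × XT t s)) ≃ (Fin t → (Fin s × Fin s) × (Fin s × Fin s)) :=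
    { toFun := fun q b => ((q.1.1 b, q.1.2 b), (q.2.1 b, q.2.2 b))
      invFun := fun f => ((fun b => (f b).1.1, fun b => (f b).1.2), (fun b => (f b).2.1, fun b => (f b).2.2))
      left_inv := fun q => rfl
      right_inv := fun f => rfl }
  rw [show (∑ q : (XT t s × XT t s) × (XT t s × XT t s), ∏ b, patt s ((q.1.1 b, q.1.2 b), (q.2.1 b, q.2.2 b))) =
    ∑ f : Fin t → (Fin s × Fin s) × (Fin s × Fin s), ∏ b, patt s (f b) from
    Equiv.sum_comp e (fun f => ∏ b, patt s (f b))]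
  rw [← Fintype.sum_pow]
  refine pow_le_pow_left₀ (sum_nonneg (fun c _ => ?_)) (patt_sum s) t
  unfold patt
  split_ifs <;> norm_num

theorem disc_bound {t s D : ℕ} {ψ : (Fin t → Bool) → ℝ} (hψ : IsDual t D ψ)
    (f1 : XT t s → ZT t s → ℝ) (f2 : XT t s → XT t s → ℝ) (f3 : XT t s → ZT t s → ℝ)
    (h1 : ∀ x z, |f1 x z| ≤ 1) (h2 : ∀ x y, |f2 x y| ≤ 1) (h3 : ∀ y z, |f3 y z| ≤ 1) :
    (∑ p : XT t s × ZT t s, f1 p.1 p.2 * ∑ y : XT t s, f2 p.1 y * f3 y p.2 * ψ (sel p.2 p.1 y)) ^ 4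
      * (16 ^ t * 32 ^ D) ≤ ((Fintype.card (XT t s) : ℝ)) ^ 4 * (Fintype.card (ZT t s) : ℝ) ^ 4 *
        ((s : ℝ) ^ 4 + 1022 * (s : ℝ) ^ 3) ^ t := by
  set nX : ℝ := (Fintype.card (XT t s) : ℝ) with hnX
  set nZ : ℝ := (Fintype.card (ZT t s) : ℝ) with hnZ
  have hnX0 : 0 ≤ nX := by rw [hnX]; positivity
  have hnZ0 : 0 ≤ nZ := by rw [hnZ]; positivity
  set G : XT t s × ZT t s → ℝ := fun p => ∑ y : XT t s, f2 p.1 y * f3 y p.2 * ψ (sel p.2 p.1 y) with hG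
  set H : (XT t s × XT t s) × ZT t s → ℝ :=
    fun r => ∑ x : XT t s, (f2 x r.1.1 * f2 x r.1.2) * (ψ (sel r.2 x r.1.1) * ψ (sel r.2 x r.1.2)) with hH
  have sq1 : ∀ a : ℝ, |a| ≤ 1 → a ^ 2 ≤ 1 := by
    intro a ha
    rw [← sq_abs]
    have := abs_nonneg a
    nlinarith
  -- step 1
  have step1 : (∑ p, f1 p.1 p.2 * G p) ^ 2 ≤ (nX * nZ) * ∑ p, (G p) ^ 2 := by
    refine (Finset.sum_mul_sq_le_sq_mul_sq Finset.univ (fun p : XT t s × ZT t s => f1 p.1 p.2) G).trans ?_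
    refine mul_le_mul_of_nonneg_right ?_ (Finset.sum_nonneg (fun p _ => sq_nonneg _))
    refine (Finset.sum_le_sum (fun p _ => sq1 _ (h1 p.1 p.2))).trans ?_
    simp [hnX, hnZ]
  -- step 2
  have step2 : ∑ p, (G p) ^ 2 = ∑ r : (XT t s × XT t s) × ZT t s, (f3 r.1.1 r.2 * f3 r.1.2 r.2) * H r := by
    have e1 : ∀ p : XT t s × ZT t s, (G p) ^ 2 =
        ∑ y : XT t s, ∑ y' : XT t s, (f3 y p.2 * f3 y' p.2) * ((f2 p.1 y * f2 p.1 y') *
          (ψ (sel p.2 p.1 y) * ψ (sel p.2 p.1 y'))) := by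
      intro p
      simp only [hG]
      rw [sq, Finset.sum_mul_sum]
      refine Finset.sum_congr rfl (fun y _ => Finset.sum_congr rfl (fun y' _ => ?_))
      ring
    rw [Finset.sum_congr rfl (fun p _ => e1 p)]
    rw [Fintype.sum_prod_type, Fintype.sum_prod_type, Fintype.sum_prod_type]
    simp only [hH]
    have e2 : ∀ x : XT t s, (∑ z : ZT t s, ∑ y : XT t s, ∑ y' : XT t s, (f3 y z * f3 y' z) * ((f2 x y * f2 x y') *
          (ψ (sel z x y) * ψ (sel z x y')))) = ∑ y : XT t s, ∑ y' : XT t s, ∑ z : ZT t s, (f3 y z * f3 y' z) * ((f2 x y * f2 x y') *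
          (ψ (sel z x y) * ψ (sel z x y'))) := by
      intro x
      rw [Finset.sum_comm]
      refine Finset.sum_congr rfl (fun y _ => ?_)
      rw [Finset.sum_comm]
    rw [Finset.sum_congr rfl (fun x _ => e2 x)]
    rw [Finset.sum_comm]
    refine Finset.sum_congr rfl (fun y _ => ?_)
    rw [Finset.sum_comm]
    refine Finset.sum_congr rfl (fun y' _ => ?_)
    rw [Finset.sum_comm]
    refine Finset.sum_congr rfl (fun z _ => ?_)
    rw [Finset.mul_sum]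
  -- step 3
  have step3 : (∑ r, (f3 r.1.1 r.2 * f3 r.1.2 r.2) * H r) ^ 2 ≤ (nX ^ 2 * nZ) * ∑ r, (H r) ^ 2 := by
    refine (Finset.sum_mul_sq_le_sq_mul_sq Finset.univ
      (fun r : (XT t s × XT t s) × ZT t s => f3 r.1.1 r.2 * f3 r.1.2 r.2) H).trans ?_
    refine mul_le_mul_of_nonneg_right ?_ (Finset.sum_nonneg (fun p _ => sq_nonneg _))
    have hle : ∀ r ∈ (Finset.univ : Finset ((XT t s × XT t s) × ZT t s)),
        (f3 r.1.1 r.2 * f3 r.1.2 r.2) ^ 2 ≤ 1 := by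
      intro r _
      apply sq1
      rw [abs_mul]
      exact mul_le_one₀ (h3 r.1.1 r.2) (abs_nonneg _) (h3 r.1.2 r.2)
    refine (Finset.sum_le_sum hle).trans ?_
    simp only [Finset.sum_const, Finset.card_univ, Fintype.card_prod, nsmul_eq_mul, mul_one]
    push_cast
    rw [hnX, hnZ]
    apply le_of_eq
    ring
  -- step 4
  set Φ : (XT t s × XT t s) × (XT t s × XT t s) → ℝ := fun q =>
    |∑ z : ZT t s, (ψ (sel z q.1.1 q.2.1) * ψ (sel z q.1.1 q.2.2)) *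
      (ψ (sel z q.1.2 q.2.1) * ψ (sel z q.1.2 q.2.2))| with hΦ
  have step4 : ∑ r, (H r) ^ 2 ≤ ∑ q, Φ q := by
    have e1 : ∀ r : (XT t s × XT t s) × ZT t s, (H r) ^ 2 =
        ∑ x : XT t s, ∑ x' : XT t s, ((f2 x r.1.1 * f2 x r.1.2) * (f2 x' r.1.1 * f2 x' r.1.2)) *
          ((ψ (sel r.2 x r.1.1) * ψ (sel r.2 x r.1.2)) * (ψ (sel r.2 x' r.1.1) * ψ (sel r.2 x' r.1.2))) := by
      intro r
      simp only [hH]
      rw [sq, Finset.sum_mul_sum]
      refine Finset.sum_congr rfl (fun y _ => Finset.sum_congr rfl (fun y' _ => ?_))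
      ring
    rw [Finset.sum_congr rfl (fun r _ => e1 r)]
    rw [Fintype.sum_prod_type]
    have e2 : ∀ q : XT t s × XT t s, (∑ z : ZT t s, ∑ x : XT t s, ∑ x' : XT t s,
          ((f2 x q.1 * f2 x q.2) * (f2 x' q.1 * f2 x' q.2)) *
          ((ψ (sel z x q.1) * ψ (sel z x q.2)) * (ψ (sel z x' q.1) * ψ (sel z x' q.2)))) ≤
        ∑ x : XT t s, ∑ x' : XT t s, Φ ((x, x'), q) := by
      intro q
      rw [Finset.sum_comm]
      refine Finset.sum_le_sum (fun x _ => ?_)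
      rw [Finset.sum_comm]
      refine Finset.sum_le_sum (fun x' _ => ?_)
      rw [← Finset.mul_sum]
      refine (le_abs_self _).trans ?_
      rw [abs_mul]
      have ha : |(f2 x q.1 * f2 x q.2) * (f2 x' q.1 * f2 x' q.2)| ≤ 1 := by
        rw [abs_mul, abs_mul, abs_mul]
        have b1 : |f2 x q.1| * |f2 x q.2| ≤ 1 := mul_le_one₀ (h2 x q.1) (abs_nonneg _) (h2 x q.2)
        have b2 : |f2 x' q.1| * |f2 x' q.2| ≤ 1 := mul_le_one₀ (h2 x' q.1) (abs_nonneg _) (h2 x' q.2)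
        exact mul_le_one₀ b1 (mul_nonneg (abs_nonneg _) (abs_nonneg _)) b2
      exact mul_le_of_le_one_left (abs_nonneg _) ha
    refine (Finset.sum_le_sum (fun q _ => e2 q)).trans ?_
    apply le_of_eq
    calc ∑ q : XT t s × XT t s, ∑ x : XT t s, ∑ x' : XT t s, Φ ((x, x'), q)
        = ∑ q : XT t s × XT t s, ∑ w : XT t s × XT t s, Φ (w, q) := by
          refine Finset.sum_congr rfl (fun q _ => ?_)
          rw [Fintype.sum_prod_type]
      _ = ∑ p : (XT t s × XT t s) × (XT t s × XT t s), Φ p := by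
          exact (Fintype.sum_prod_type_right Φ).symm
  -- step 5
  have step5 : (∑ q, Φ q) * (16 ^ t * 32 ^ D) ≤ nZ * ((s : ℝ) ^ 4 + 1022 * (s : ℝ) ^ 3) ^ t := by
    rw [Finset.sum_mul]
    calc ∑ q, Φ q * (16 ^ t * 32 ^ D) ≤ ∑ q : (XT t s × XT t s) × (XT t s × XT t s),
          nZ * (512 : ℝ) ^ (deg q.1.1 q.1.2 q.2.1 q.2.2).card := by
          refine Finset.sum_le_sum (fun q _ => ?_)
          by_cases hd : (deg q.1.1 q.1.2 q.2.1 q.2.2).card ≤ D
          · have h0 : Φ q = 0 := by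
              simp only [hΦ]
              rw [four_zero q.1.1 q.1.2 q.2.1 q.2.2 hψ hd, abs_zero]
            rw [h0, zero_mul]
            positivity
          · have hle := four_le q.1.1 q.1.2 q.2.1 q.2.2 hψ.l1
            have h32 : (32 : ℝ) ^ D ≤ 32 ^ (deg q.1.1 q.1.2 q.2.1 q.2.2).card :=
              pow_le_pow_right₀ (by norm_num) (by omega)
            calc Φ q * (16 ^ t * 32 ^ D) = (Φ q * 16 ^ t) * 32 ^ D := by ring
              _ ≤ (nZ * 16 ^ (deg q.1.1 q.1.2 q.2.1 q.2.2).card) * 32 ^ (deg q.1.1 q.1.2 q.2.1 q.2.2).card := by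
                  apply mul_le_mul hle h32 (by positivity) (by positivity)
              _ = nZ * (512 : ℝ) ^ (deg q.1.1 q.1.2 q.2.1 q.2.2).card := by
                  rw [mul_assoc, ← mul_pow]; norm_num
      _ = nZ * ∑ q : (XT t s × XT t s) × (XT t s × XT t s), (512 : ℝ) ^ (deg q.1.1 q.1.2 q.2.1 q.2.2).card := by
          rw [Finset.mul_sum]
      _ ≤ _ := mul_le_mul_of_nonneg_left (deg_sum t s) hnZ0
  have hS2 : 0 ≤ ∑ p, (G p) ^ 2 := Finset.sum_nonneg (fun p _ => sq_nonneg _)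
  have hc0 : (0 : ℝ) ≤ 16 ^ t * 32 ^ D := by positivity
  calc (∑ p, f1 p.1 p.2 * G p) ^ 4 * (16 ^ t * 32 ^ D)
      = ((∑ p, f1 p.1 p.2 * G p) ^ 2) ^ 2 * (16 ^ t * 32 ^ D) := by ring
    _ ≤ ((nX * nZ) * ∑ p, (G p) ^ 2) ^ 2 * (16 ^ t * 32 ^ D) := by
        apply mul_le_mul_of_nonneg_right _ hc0
        apply pow_le_pow_left₀ (sq_nonneg _) step1
    _ = (nX * nZ) ^ 2 * (∑ p, (G p) ^ 2) ^ 2 * (16 ^ t * 32 ^ D) := by ring
    _ ≤ (nX * nZ) ^ 2 * ((nX ^ 2 * nZ) * ∑ r, (H r) ^ 2) * (16 ^ t * 32 ^ D) := by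
        apply mul_le_mul_of_nonneg_right _ hc0
        apply mul_le_mul_of_nonneg_left _ (sq_nonneg _)
        rw [step2]
        exact step3
    _ ≤ (nX * nZ) ^ 2 * ((nX ^ 2 * nZ) * ∑ q, Φ q) * (16 ^ t * 32 ^ D) := by
        apply mul_le_mul_of_nonneg_right _ hc0
        apply mul_le_mul_of_nonneg_left _ (sq_nonneg _)
        apply mul_le_mul_of_nonneg_left step4
        positivity
    _ = (nX * nZ) ^ 2 * (nX ^ 2 * nZ) * ((∑ q, Φ q) * (16 ^ t * 32 ^ D)) := by ring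
    _ ≤ (nX * nZ) ^ 2 * (nX ^ 2 * nZ) * (nZ * ((s : ℝ) ^ 4 + 1022 * (s : ℝ) ^ 3) ^ t) :=
        mul_le_mul_of_nonneg_left step5 (by positivity)
    _ = nX ^ 4 * nZ ^ 4 * ((s : ℝ) ^ 4 + 1022 * (s : ℝ) ^ 3) ^ t := by ring

/-- the mass of a value of `sel` -/
noncomputable def mass (t s : ℕ) : ℝ := (Fintype.card (XT t s) : ℝ) ^ 2 * Fintype.card (ZT t s) / 2 ^ t

lemma mass_nonneg (t s : ℕ) : 0 ≤ mass t s := by unfold mass; positivity

/-- parameters: `t = 512 D²`, `s = 2²⁰ D` -/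
theorem disc_final {D t s : ℕ} (hD : 1 ≤ D) (ht : t = 512 * D ^ 2) (hs : s = 2 ^ 20 * D)
    {ψ : (Fin t → Bool) → ℝ} (hψ : IsDual t D ψ)
    (f1 : XT t s → ZT t s → ℝ) (f2 : XT t s → XT t s → ℝ) (f3 : XT t s → ZT t s → ℝ)
    (h1 : ∀ x z, |f1 x z| ≤ 1) (h2 : ∀ x y, |f2 x y| ≤ 1) (h3 : ∀ y z, |f3 y z| ≤ 1) :
    |∑ p : XT t s × ZT t s, f1 p.1 p.2 * ∑ y : XT t s, f2 p.1 y * f3 y p.2 * ψ (sel p.2 p.1 y)| * 2 ^ D ≤
      mass t s := by
  have h := disc_bound hψ f1 f2 f3 h1 h2 h3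
  set S := ∑ p : XT t s × ZT t s, f1 p.1 p.2 * ∑ y : XT t s, f2 p.1 y * f3 y p.2 * ψ (sel p.2 p.1 y) with hS
  have hDr : (1 : ℝ) ≤ D := by exact_mod_cast hD
  have hsr : (s : ℝ) = 2 ^ 20 * D := by rw [hs]; push_cast; ring
  have hs0 : (0 : ℝ) < s := by rw [hsr]; positivity
  have hnX : (Fintype.card (XT t s) : ℝ) = (s : ℝ) ^ t := by simp [XT]
  set nX : ℝ := (Fintype.card (XT t s) : ℝ) with hnXd
  set nZ : ℝ := (Fintype.card (ZT t s) : ℝ) with hnZd
  have hnX0 : 0 ≤ nX := by rw [hnXd]; positivity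
  have hnZ0 : 0 ≤ nZ := by rw [hnZd]; positivity
  have hexp : ((s : ℝ) ^ 4 + 1022 * (s : ℝ) ^ 3) ^ t ≤ nX ^ 4 * 2 ^ D := by
    have e1 : (s : ℝ) ^ 4 + 1022 * (s : ℝ) ^ 3 = (s : ℝ) ^ 4 * (1 + 1022 / s) := by
      field_simp
    have e2 : (1 + 1022 / (s : ℝ)) ^ t ≤ 2 ^ D := by
      have e3 : 1 + 1022 / (s : ℝ) ≤ Real.exp (1022 / s) := by
        have := Real.add_one_le_exp (1022 / (s : ℝ))
        linarith
      calc (1 + 1022 / (s : ℝ)) ^ t ≤ Real.exp (1022 / s) ^ t := pow_le_pow_left₀ (by positivity) e3 t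
        _ = Real.exp (t * (1022 / s)) := by rw [← Real.exp_nat_mul]
        _ ≤ Real.exp (D * Real.log 2) := by
            apply Real.exp_le_exp.2
            have e4 : (t : ℝ) * (1022 / s) = D * (512 * 1022 / 2 ^ 20) := by
              rw [hsr, ht]
              push_cast
              field_simp
            rw [e4]
            apply mul_le_mul_of_nonneg_left _ (by linarith)
            have := Real.log_two_gt_d9
            norm_num
            linarith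
        _ = 2 ^ D := by
            rw [Real.exp_nat_mul, Real.exp_log (by norm_num)]
    rw [e1, mul_pow, hnX]
    have e5 : ((s : ℝ) ^ 4) ^ t = ((s : ℝ) ^ t) ^ 4 := by rw [← pow_mul, ← pow_mul, mul_comm]
    rw [e5]
    exact mul_le_mul_of_nonneg_left e2 (by positivity)
  have h' : S ^ 4 * (16 ^ t * 32 ^ D) ≤ nX ^ 4 * nZ ^ 4 * (nX ^ 4 * 2 ^ D) :=
    h.trans (mul_le_mul_of_nonneg_left hexp (by positivity))
  have h4 : (|S| * 2 ^ D) ^ 4 ≤ (mass t s) ^ 4 := by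
    unfold mass
    rw [← hnXd, ← hnZd, div_pow, le_div_iff₀ (by positivity)]
    have e6 : (|S| * 2 ^ D) ^ 4 = S ^ 4 * 16 ^ D := by
      rw [mul_pow, ← abs_pow, abs_of_nonneg (by positivity : (0:ℝ) ≤ S ^ 4)]
      congr 1
      rw [← pow_mul, mul_comm, pow_mul]; norm_num
    have e7 : ((2 : ℝ) ^ t) ^ 4 = 16 ^ t := by
      rw [← pow_mul, mul_comm, pow_mul]; norm_num
    rw [e6, e7]
    have e8 : (32 : ℝ) ^ D = 16 ^ D * 2 ^ D := by rw [← mul_pow]; norm_num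
    rw [e8] at h'
    have h2D : (0 : ℝ) < 2 ^ D := by positivity
    have h9 : (S ^ 4 * 16 ^ D * 16 ^ t) * 2 ^ D ≤ ((nX ^ 2 * nZ) ^ 4) * 2 ^ D := by
      calc (S ^ 4 * 16 ^ D * 16 ^ t) * 2 ^ D = S ^ 4 * (16 ^ t * (16 ^ D * 2 ^ D)) := by ring
        _ ≤ _ := h'
        _ = _ := by ring
    exact le_of_mul_le_mul_right h9 h2D
  exact le_of_pow_le_pow_left₀ (n := 4) (by norm_num) (mass_nonneg t s) h4

end Pool.Agent.Lib_helper65.Rand
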