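import Mathlib

/-!
# Randomised sequential machines with several read heads

The input, a simple graph on `Fin n`, is given as its adjacency matrix, written row by row on a
read-only tape with `n * n` cells. A machine has `k` two-way heads on this tape, a memory with
states in `Q` and a random seed `ω : Ω` (for instance an infinite sequence of coin tosses).
-/

open MeasureTheory

namespace Pool.Agent.Lib_helper65.Rand

/-- Configurations: a memory state and the positions of the `k` heads. -/
abbrev Conf (n k : ℕ) (Q : Type) : Type := Q × (Fin k → Fin (n * n))

/-- The bits scanned by the heads: cell `p` of the tape holds the adjacency bit of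
(row `p / n`, column `p % n`). -/
def scan {n k : ℕ} (G : SimpleGraph (Fin n)) (pos : Fin k → Fin (n * n)) : Fin k → Prop :=
  fun h => G.Adj (pos h).divNat (pos h).modNat

/-- A randomised machine with `k` two-way read-only heads on a tape with `n * n` cells, with memory
states `Q` and random seeds `Ω`. -/
structure RMachine (n k : ℕ) (Q Ω : Type) where
  /-- initial configuration -/
  start : Ω → Conf n k Q
  /-- `step ω t c b` is the next configuration when at time `t` the machine is in configuration `c`
  and scans the bits `b` (arbitrary function: nonuniform, unlimited computing power) -/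
  step : Ω → ℕ → Conf n k Q → (Fin k → Prop) → Conf n k Q
  /-- in one step every head moves by at most one cell -/
  slow : ∀ ω t c b h,
    ((step ω t c b).2 h : ℕ) ≤ (c.2 h : ℕ) + 1 ∧ (c.2 h : ℕ) ≤ ((step ω t c b).2 h : ℕ) + 1
  /-- `answer c = some b`: in configuration `c` the machine stops with the answer `b`
  (`true`: there is a triangle) -/
  answer : Conf n k Q → Option Bool

/-- The configuration after `t` steps on input `G` with seed `ω`; a machine that has answered
does not move any more. -/
def RMachine.run {n k : ℕ} {Q Ω : Type} (M : RMachine n k Q Ω) (ω : Ω) (G : SimpleGraph (Fin n)) :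
    ℕ → Conf n k Q
  | 0 => M.start ω
  | t + 1 =>
    if (M.answer (M.run ω G t)).isSome then M.run ω G t
    else M.step ω t (M.run ω G t) (scan G (M.run ω G t).2)

/-- `b` is the correct answer for the graph `G`. -/
def Correct {n : ℕ} (G : SimpleGraph (Fin n)) (b : Bool) : Prop := b = true ↔ ¬ G.CliqueFree 3

/-- `M` detects triangles in `n`-vertex graphs with error probability at most `1 / 3` on every
input, the seed being distributed according to `μ`. (First clause: the configuration at every time
is a random variable.) -/
def RMachine.DetectsTriangles {n k : ℕ} {Q Ω : Type} [MeasurableSpace Ω] (M : RMachine n k Q Ω)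
    (μ : Measure Ω) : Prop :=
  (∀ (G : SimpleGraph (Fin n)) (t : ℕ) (c : Conf n k Q), MeasurableSet {ω | M.run ω G t = c}) ∧
    ∀ G : SimpleGraph (Fin n),
      2 / 3 ≤ μ.real {ω | ∃ t b, M.answer (M.run ω G t) = some b ∧ Correct G b}

/-- The expected running time of `M` is at most `T` on every input: the expected number of steps
made before time `m`, which is the sum over `t < m` of the probability that `M` has not yet answered
at time `t`, is at most `T` for every `m`. -/
def RMachine.ExpectedTimeLE {n k : ℕ} {Q Ω : Type} [MeasurableSpace Ω] (M : RMachine n k Q Ω)
    (μ : Measure Ω) (T : ℝ) : Prop :=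
  ∀ (G : SimpleGraph (Fin n)) (m : ℕ),
    ∑ t ∈ Finset.range m, μ.real {ω | M.answer (M.run ω G t) = none} ≤ T

end Pool.Agent.Lib_helper65.Rand
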