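import Mathlib
import Pool.Agent.Lib_helper65.Rand.RDefs
import Pool.Agent.Lib_helper65.Rand.RCount

/-!
# Deterministic machines and the cores that they touch

Adapted from `Pool.Agent.Lib_helper21.SeqPath`.
-/

namespace Pool.Agent.Lib_helper65.Rand

open Finset

/-- a deterministic machine -/
structure DM (n k : ℕ) (Q : Type) where
  start : Conf n k Q
  step : ℕ → Conf n k Q → (Fin k → Prop) → Conf n k Q
  slow : ∀ t c b h, ((step t c b).2 h : ℕ) ≤ (c.2 h : ℕ) + 1 ∧ (c.2 h : ℕ) ≤ ((step t c b).2 h : ℕ) + 1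

/-- the configuration `i` steps after time `a`, starting from `c` at time `a` -/
def DM.evolve {n k : ℕ} {Q : Type} (D : DM n k Q) (G : SimpleGraph (Fin n)) (a : ℕ) (c : Conf n k Q) :
    ℕ → Conf n k Q
  | 0 => c
  | i + 1 => D.step (a + i) (D.evolve G a c i) (scan G (D.evolve G a c i).2)

/-- the computation -/
def DM.path {n k : ℕ} {Q : Type} (D : DM n k Q) (G : SimpleGraph (Fin n)) (t : ℕ) : Conf n k Q :=
  D.evolve G 0 D.start t

lemma DM.evolve_add {n k : ℕ} {Q : Type} (D : DM n k Q) (G : SimpleGraph (Fin n)) (a : ℕ)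
    (c : Conf n k Q) (i j : ℕ) :
    D.evolve G a c (i + j) = D.evolve G (a + i) (D.evolve G a c i) j := by
  induction j with
  | zero => rfl
  | succ j ih =>
    show D.step (a + (i + j)) (D.evolve G a c (i + j)) (scan G (D.evolve G a c (i + j)).2) =
      D.step (a + i + j) _ _
    rw [ih, ← add_assoc]

lemma DM.path_add {n k : ℕ} {Q : Type} (D : DM n k Q) (G : SimpleGraph (Fin n)) (i j : ℕ) :
    D.path G (i + j) = D.evolve G i (D.path G i) j := by
  unfold DM.path
  rw [DM.evolve_add, zero_add]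

lemma DM.path_succ {n k : ℕ} {Q : Type} (D : DM n k Q) (G : SimpleGraph (Fin n)) (t : ℕ) :
    D.path G (t + 1) = D.step t (D.path G t) (scan G (D.path G t).2) := by
  rw [DM.path_add]
  show D.step (t + 0) _ _ = _
  rfl

/-- locality -/
lemma DM.evolve_congr {n k : ℕ} {Q : Type} (D : DM n k Q) {G G' : SimpleGraph (Fin n)} (a : ℕ)
    (c : Conf n k Q) (ok : Fin n → Prop) (m : ℕ)
    (hok : ∀ i < m, ∀ h, ok ((D.evolve G a c i).2 h).divNat)
    (hG : ∀ r, ok r → ∀ s, G.Adj r s ↔ G'.Adj r s) (i : ℕ) (hi : i ≤ m) :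
    D.evolve G' a c i = D.evolve G a c i := by
  induction i with
  | zero => rfl
  | succ i ih =>
    have ih' := ih (by omega)
    show D.step (a + i) (D.evolve G' a c i) (scan G' (D.evolve G' a c i).2) =
      D.step (a + i) (D.evolve G a c i) (scan G (D.evolve G a c i).2)
    rw [ih']
    congr 1
    funext hd
    exact propext (hG _ (hok i (by omega) hd) _).symm

section cores

variable {n k : ℕ} {Q : Type}

/-- movement bound -/
lemma pos_bound (D : DM n k Q) (G : SimpleGraph (Fin n)) (hd : Fin k) (t d : ℕ) :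
    (((D.path G (t + d)).2 hd : ℕ) ≤ ((D.path G t).2 hd : ℕ) + d) ∧
      (((D.path G t).2 hd : ℕ) ≤ ((D.path G (t + d)).2 hd : ℕ) + d) := by
  induction d with
  | zero => simp
  | succ d ih =>
    have hst := D.slow (t + d) (D.path G (t + d)) (scan G (D.path G (t + d)).2) hd
    rw [← DM.path_succ] at hst
    have e : t + (d + 1) = t + d + 1 := by ring
    rw [e]
    omega

lemma far_cores {t s : ℕ} (L : Layout n t s) {p q : Fin (n * n)} {β β' : ℕ}
    (h : L.InCore β (p.divNat : Fin n)) (h' : L.InCore β' (q.divNat : Fin n)) (hlt : β < β') :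
    (p : ℕ) + L.w * n < q := by
  have hp : ((p.divNat : Fin n) : ℕ) = p / n := rfl
  have hq : ((q.divNat : Fin n) : ℕ) = q / n := rfl
  have hn : 0 < n := by
    rcases Nat.eq_zero_or_pos n with h0 | h0
    · subst h0
      have := p.2
      simp at this
    · exact h0
  unfold Layout.InCore at h h'
  rw [hp] at h
  rw [hq] at h'
  have h1 : (p : ℕ) / n + L.w + 1 ≤ (q : ℕ) / n := by
    have : 4 * L.w * β + 4 * L.w ≤ 4 * L.w * β' := by
      calc 4 * L.w * β + 4 * L.w = 4 * L.w * (β + 1) := by ring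
        _ ≤ 4 * L.w * β' := Nat.mul_le_mul_left _ hlt
    omega
  have h2 : (q : ℕ) / n * n ≤ q := Nat.div_mul_le_self _ _
  have h3 : (p : ℕ) < ((p : ℕ) / n + 1) * n := by
    have := Nat.lt_div_mul_add (a := (p : ℕ)) hn
    rw [Nat.add_mul, one_mul]
    exact this
  have h4 : ((p : ℕ) / n + L.w + 1) * n ≤ (q : ℕ) / n * n := Nat.mul_le_mul_right _ h1
  have h5 : ((p : ℕ) / n + L.w + 1) * n = ((p : ℕ) / n + 1) * n + L.w * n := by ring
  omega

/-- in a short time interval a head touches at most one core -/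
lemma one_core {t s : ℕ} (D : DM n k Q) (G : SimpleGraph (Fin n)) (L : Layout n t s) {a b : ℕ}
    (hab : b ≤ a + L.w * n) (hd : Fin k) {t1 t2 β1 β2 : ℕ} (h1 : a ≤ t1 ∧ t1 < b) (h2 : a ≤ t2 ∧ t2 < b)
    (c1 : L.InCore β1 (((D.path G t1).2 hd).divNat : Fin n))
    (c2 : L.InCore β2 (((D.path G t2).2 hd).divNat : Fin n)) :
    β1 = β2 := by
  rcases lt_trichotomy β1 β2 with h | h | h
  · exfalso
    have hf := far_cores L c1 c2 h
    rcases le_total t1 t2 with ht | ht
    · obtain ⟨d, rfl⟩ := Nat.exists_eq_add_of_le ht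
      have := pos_bound D G hd t1 d
      omega
    · obtain ⟨d, rfl⟩ := Nat.exists_eq_add_of_le ht
      have := pos_bound D G hd t2 d
      omega
  · exact h
  · exfalso
    have hf := far_cores L c2 c1 h
    rcases le_total t1 t2 with ht | ht
    · obtain ⟨d, rfl⟩ := Nat.exists_eq_add_of_le ht
      have := pos_bound D G hd t1 d
      omega
    · obtain ⟨d, rfl⟩ := Nat.exists_eq_add_of_le ht
      have := pos_bound D G hd t2 d
      omega

open Classical in
/-- cores touched in a time interval -/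
noncomputable def touch {t s : ℕ} (L : Layout n t s) (p : ℕ → Conf n k Q)
    (a b : ℕ) : Finset ℕ :=
  (range (6 * L.g)).filter (fun β => ∃ t', (a ≤ t' ∧ t' < b) ∧ ∃ hd, L.InCore β (((p t').2 hd).divNat : Fin n))

lemma mem_touch {t s : ℕ} (L : Layout n t s) (p : ℕ → Conf n k Q) (a b : ℕ) (τ : L.Tau) (e : Fin 3) :
    L.core τ e ∈ touch L p a b ↔
      ∃ t', (a ≤ t' ∧ t' < b) ∧ ∃ hd, L.InCore (L.core τ e) (((p t').2 hd).divNat : Fin n) := by
  classical
  simp only [touch, Finset.mem_filter, Finset.mem_range]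
  exact ⟨fun h => h.2, fun h => ⟨L.core_lt τ e, h⟩⟩

lemma touch_card {t s : ℕ} (D : DM n k Q) (G : SimpleGraph (Fin n)) (L : Layout n t s) {a b : ℕ}
    (hab : b ≤ a + L.w * n) : (touch L (D.path G) a b).card ≤ k := by
  classical
  have hex : ∀ β ∈ touch L (D.path G) a b, ∃ hd : Fin k, ∃ t', (a ≤ t' ∧ t' < b) ∧
      L.InCore β (((D.path G t').2 hd).divNat : Fin n) := by
    intro β hβ
    simp only [touch, Finset.mem_filter] at hβ
    obtain ⟨_, t', ht', hd, hc⟩ := hβ
    exact ⟨hd, t', ht', hc⟩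
  by_cases hk : Nonempty (Fin k)
  · have hex' : ∀ β, ∃ hd : Fin k, β ∈ touch L (D.path G) a b → ∃ t', (a ≤ t' ∧ t' < b) ∧
      L.InCore β (((D.path G t').2 hd).divNat : Fin n) := by
      intro β
      by_cases hβ : β ∈ touch L (D.path G) a b
      · obtain ⟨hd, h⟩ := hex β hβ
        exact ⟨hd, fun _ => h⟩
      · exact ⟨hk.some, fun h => absurd h hβ⟩
    choose f hf using hex'
    have : (touch L (D.path G) a b).card ≤ (Finset.univ : Finset (Fin k)).card := by
      refine Finset.card_le_card_of_injOn f (fun _ _ => Finset.mem_coe.2 (Finset.mem_univ _)) ?_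
      intro β hβ β' hβ' heq
      obtain ⟨t1, h1, c1⟩ := hf β hβ
      obtain ⟨t2, h2, c2⟩ := hf β' hβ'
      rw [← heq] at c2
      exact one_core D G L hab (f β) h1 h2 c1 c2
    simpa using this
  · have : touch L (D.path G) a b = ∅ := by
      rw [Finset.eq_empty_iff_forall_notMem]
      intro β hβ
      obtain ⟨hd, _⟩ := hex β hβ
      exact hk ⟨hd⟩
    rw [this]; simp

end cores

end Pool.Agent.Lib_helper65.Rand
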