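import Mathlib
import Pool.Agent.Lib_helper65.Rand.RPath

/-!
# Transcripts of a deterministic machine are cylinder intersections
-/

namespace Pool.Agent.Lib_helper65.Rand

open Finset

/-- a family of raw instances with prescribed instance at `τ` -/
noncomputable def ins {n t s : ℕ} (L : Layout n t s) (τ : L.Tau) (r : {τ' : L.Tau // τ' ≠ τ} → Inst t s)
    (p : Raw t s) : L.Tau → Raw t s := by
  classical
  exact fun τ' => if h : τ' = τ then p else (r ⟨τ', h⟩).1

lemma ins_congr {n t s : ℕ} (L : Layout n t s) (τ : L.Tau) (r : {τ' : L.Tau // τ' ≠ τ} → Inst t s)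
    (p p' : Raw t s) (row : Fin n)
    (h : ∀ q e1 e2, e1 ≠ e2 → L.InCore (L.core τ e1) row → (bit p q (edg e1 e2) ↔ bit p' q (edg e1 e2)))
    (c : Fin n) : (L.graph (ins L τ r p)).Adj row c ↔ (L.graph (ins L τ r p')).Adj row c := by
  refine L.row_congr _ _ row ?_ c
  intro τ' q e1 e2 hne hin
  by_cases hτ : τ' = τ
  · subst hτ
    simp only [ins, dif_pos]
    exact h q e1 e2 hne hin
  · simp only [ins, dif_neg hτ]

lemma ins_cliqueFree {n t s : ℕ} (L : Layout n t s) (τ : L.Tau) (r : {τ' : L.Tau // τ' ≠ τ} → Inst t s)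
    (p : Raw t s) : (L.graph (ins L τ r p)).CliqueFree 3 ↔ Ok p.1.1 p.1.2 p.2 := by
  rw [L.cliqueFree_iff]
  constructor
  · intro h
    have := h τ
    simpa [ins] using this
  · intro h τ'
    by_cases hτ : τ' = τ
    · subst hτ
      simpa [ins] using h
    · simp only [ins, dif_neg hτ]
      exact (r ⟨τ', hτ⟩).2

/-- times -/
def am (l T j : ℕ) : ℕ := min (j * l) T

lemma am_mono (l T : ℕ) : Monotone (am l T) := by
  intro i j h
  exact min_le_min_right _ (Nat.mul_le_mul_right _ h)

lemma am_zero (l T : ℕ) : am l T 0 = 0 := by simp [am]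

lemma am_succ (l T j : ℕ) : am l T (j + 1) ≤ am l T j + l := by
  unfold am
  have : (j + 1) * l = j * l + l := by ring
  omega

/-- rows allowed for corner `e` -/
def okE {n t s : ℕ} (L : Layout n t s) (τ : L.Tau) (e : Fin 3) (row : Fin n) : Prop :=
  ∀ e', L.InCore (L.core τ e') row → e' = e

/-- in the time interval `[a, b)` only the corner `e` of `τ` is touched, it is touched, and the
computation leads from `c` to `c'` -/
def Win {n k t s : ℕ} {Q : Type} (L : Layout n t s) (D : DM n k Q) (τ : L.Tau) (G : SimpleGraph (Fin n))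
    (a b : ℕ) (e : Fin 3) (c c' : Conf n k Q) : Prop :=
  (∀ i < b - a, ∀ h, okE L τ e ((D.evolve G a c i).2 h).divNat) ∧
    (∃ i < b - a, ∃ h, L.InCore (L.core τ e) ((D.evolve G a c i).2 h).divNat) ∧
    D.evolve G a c (b - a) = c'

lemma Win.congr {n k t s : ℕ} {Q : Type} {L : Layout n t s} {D : DM n k Q} {τ : L.Tau}
    {G G' : SimpleGraph (Fin n)} {a b : ℕ} {e : Fin 3} {c c' : Conf n k Q} (h : Win L D τ G a b e c c')
    (hG : ∀ r, okE L τ e r → ∀ s, G.Adj r s ↔ G'.Adj r s) : Win L D τ G' a b e c c' := by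
  have key := D.evolve_congr a c (okE L τ e) (b - a) h.1 hG
  obtain ⟨i, hi, hd, hin⟩ := h.2.1
  refine ⟨fun i hi hd => ?_, ⟨i, hi, hd, ?_⟩, ?_⟩
  · rw [key i hi.le]; exact h.1 i hi hd
  · rw [key i hi.le]; exact hin
  · rw [key (b - a) le_rfl]; exact h.2.2

section cyl

variable {n k t s N : ℕ} {Q : Type} [Fintype Q] (L : Layout n t s) (D : DM n k Q) (τ : L.Tau)
  (r : {τ' : L.Tau // τ' ≠ τ} → Inst t s) (am' : ℕ → ℕ)

/-- the path on the instance `p` -/
noncomputable def pth (p : Raw t s) : ℕ → Conf n k Q := D.path (L.graph (ins L τ r p))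

/-- touched cores -/
noncomputable def tch (p : Raw t s) (j : ℕ) : Finset ℕ := touch L (pth L D τ r p) (am' j) (am' (j + 1))

open Classical in
/-- transcript -/
noncomputable def trn (N : ℕ) (p : Raw t s) : Finset (Fin N × Fin 3 × Conf n k Q × Conf n k Q) :=
  univ.filter (fun x => L.core τ x.2.1 ∈ tch L D τ r am' p x.1 ∧
    x.2.2.1 = pth L D τ r p (am' x.1) ∧ x.2.2.2 = pth L D τ r p (am' (x.1 + 1)))

lemma mem_trn (p : Raw t s) (x : Fin N × Fin 3 × Conf n k Q × Conf n k Q) :
    x ∈ trn L D τ r am' N p ↔ L.core τ x.2.1 ∈ tch L D τ r am' p x.1 ∧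
      x.2.2.1 = pth L D τ r p (am' x.1) ∧ x.2.2.2 = pth L D τ r p (am' (x.1 + 1)) := by
  classical
  simp [trn]

/-- the event of a given transcript -/
def Ev (N c T : ℕ) (Acc : Conf n k Q → Prop)
    (E0 : Finset (Fin N × Fin 3 × Conf n k Q × Conf n k Q)) (p : Raw t s) : Prop :=
  Good L N c (tch L D τ r am' p) τ ∧ trn L D τ r am' N p = E0 ∧ Acc (pth L D τ r p T)

omit [Fintype Q] in
lemma pth_window (p : Raw t s) (j i : ℕ) :
    pth L D τ r p (am' j + i) = D.evolve (L.graph (ins L τ r p)) (am' j) (pth L D τ r p (am' j)) i := by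
  unfold pth
  rw [DM.path_add]

lemma cong0 (x y y' : XT t s) (z : ZT t s) (row : Fin n) (hok : okE L τ 0 row) (c : Fin n) :
    ((L.graph (ins L τ r ((x, y), z))).Adj row c ↔ (L.graph (ins L τ r ((x, y'), z))).Adj row c) := by
  refine ins_congr L τ r _ _ row ?_ c
  intro q e1 e2 hne hin
  have he1 := hok e1 hin
  subst he1
  fin_cases e2 <;> simp [edg, bit] at hne ⊢

lemma cong1 (x y : XT t s) (z z' : ZT t s) (row : Fin n) (hok : okE L τ 1 row) (c : Fin n) :
    ((L.graph (ins L τ r ((x, y), z))).Adj row c ↔ (L.graph (ins L τ r ((x, y), z'))).Adj row c) := by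
  refine ins_congr L τ r _ _ row ?_ c
  intro q e1 e2 hne hin
  have he1 := hok e1 hin
  subst he1
  fin_cases e2 <;> simp [edg, bit] at hne ⊢

lemma cong2 (x x' y : XT t s) (z : ZT t s) (row : Fin n) (hok : okE L τ 2 row) (c : Fin n) :
    ((L.graph (ins L τ r ((x, y), z))).Adj row c ↔ (L.graph (ins L τ r ((x', y), z))).Adj row c) := by
  refine ins_congr L τ r _ _ row ?_ c
  intro q e1 e2 hne hin
  have he1 := hok e1 hin
  subst he1
  fin_cases e2 <;> simp [edg, bit] at hne ⊢

open Classical in
theorem cyl (hmono : Monotone am') (h0 : am' 0 = 0) (c T : ℕ) (hNT : am' N = T) (Acc : Conf n k Q → Prop)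
    (E0 : Finset (Fin N × Fin 3 × Conf n k Q × Conf n k Q)) :
    ∃ (P1 : XT t s → ZT t s → Prop) (P2 : XT t s → XT t s → Prop) (P3 : XT t s → ZT t s → Prop),
      ∀ x y z, (Ev L D τ r am' N c T Acc E0 ((x, y), z) ↔ P1 x z ∧ P2 x y ∧ P3 y z) := by
  by_cases hex : ∃ p0, Ev L D τ r am' N c T Acc E0 p0
  swap
  · refine ⟨fun _ _ => False, fun _ _ => False, fun _ _ => False, fun x y z => ?_⟩
    constructor
    · intro h; exact absurd ⟨_, h⟩ hex
    · rintro ⟨h, _⟩; exact h.elim
  obtain ⟨p0, hG0, hE0, hA0⟩ := hex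
  -- default values
  let x0 : XT t s := p0.1.1
  let y0 : XT t s := p0.1.2
  let z0 : ZT t s := p0.2
  refine ⟨fun x z => ∀ a ∈ E0, a.2.1 = 0 →
      Win L D τ (L.graph (ins L τ r ((x, y0), z))) (am' a.1) (am' (a.1 + 1)) 0 a.2.2.1 a.2.2.2,
    fun x y => ∀ a ∈ E0, a.2.1 = 1 →
      Win L D τ (L.graph (ins L τ r ((x, y), z0))) (am' a.1) (am' (a.1 + 1)) 1 a.2.2.1 a.2.2.2,
    fun y z => ∀ a ∈ E0, a.2.1 = 2 →
      Win L D τ (L.graph (ins L τ r ((x0, y), z))) (am' a.1) (am' (a.1 + 1)) 2 a.2.2.1 a.2.2.2,
    fun x y z => ?_⟩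
  set p : Raw t s := ((x, y), z) with hp
  constructor
  · rintro ⟨hG, hE, -⟩
    have hwin : ∀ a ∈ E0, ∀ e, a.2.1 = e →
        Win L D τ (L.graph (ins L τ r p)) (am' a.1) (am' (a.1 + 1)) e a.2.2.1 a.2.2.2 := by
      intro a ha e hae
      rw [← hE, mem_trn] at ha
      obtain ⟨h1, h2, h3⟩ := ha
      rw [hae] at h1
      have hle : am' a.1 ≤ am' (a.1 + 1) := hmono (Nat.le_succ _)
      have h1' := (mem_touch L _ _ _ τ e).1 h1
      refine ⟨fun i hi hd e' hin => ?_, ?_, ?_⟩
      · rw [h2, ← pth_window L D τ r am'] at hin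
        refine hG.1 a.1 a.1.2 e' e ?_ h1
        unfold tch
        rw [mem_touch]
        exact ⟨am' a.1 + i, ⟨by omega, by omega⟩, hd, hin⟩
      · obtain ⟨t', ⟨ht1, ht2⟩, hd, hin⟩ := h1'
        refine ⟨t' - am' a.1, by omega, hd, ?_⟩
        rw [h2, ← pth_window L D τ r am']
        rw [show am' a.1 + (t' - am' a.1) = t' by omega]
        exact hin
      · rw [h2, ← pth_window L D τ r am', h3]
        rw [show am' (a.1 : ℕ) + (am' (a.1 + 1) - am' a.1) = am' (a.1 + 1) by omega]
    refine ⟨?_, ?_, ?_⟩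
    · intro a ha hae
      exact (hwin a ha 0 hae).congr (fun row hrow c => cong0 L τ r x y y0 z row hrow c)
    · intro a ha hae
      exact (hwin a ha 1 hae).congr (fun row hrow c => cong1 L τ r x y z z0 row hrow c)
    · intro a ha hae
      exact (hwin a ha 2 hae).congr (fun row hrow c => cong2 L τ r x x0 y z row hrow c)
  · rintro ⟨hp1, hp2, hp3⟩
    have hwin : ∀ a ∈ E0, Win L D τ (L.graph (ins L τ r p)) (am' a.1) (am' (a.1 + 1)) a.2.1 a.2.2.1 a.2.2.2 := by
      intro a ha
      have hcases : a.2.1 = 0 ∨ a.2.1 = 1 ∨ a.2.1 = 2 := by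
        generalize a.2.1 = e
        revert e; decide
      rcases hcases with h | h | h
      · rw [h]
        exact (hp1 a ha h).congr (fun row hrow c => cong0 L τ r x y0 y z row hrow c)
      · rw [h]
        exact (hp2 a ha h).congr (fun row hrow c => cong1 L τ r x y z0 z row hrow c)
      · rw [h]
        exact (hp3 a ha h).congr (fun row hrow c => cong2 L τ r x0 x y z row hrow c)
    -- one window
    have step : ∀ j : ℕ, j < N → pth L D τ r p (am' j) = pth L D τ r p0 (am' j) →
        pth L D τ r p (am' (j + 1)) = pth L D τ r p0 (am' (j + 1)) ∧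
        ∀ e, (L.core τ e ∈ tch L D τ r am' p j ↔ L.core τ e ∈ tch L D τ r am' p0 j) := by
      intro j hj hst
      have hle : am' j ≤ am' (j + 1) := hmono (Nat.le_succ _)
      have hsub : am' j + (am' (j + 1) - am' j) = am' (j + 1) := by omega
      by_cases hto : ∃ e, L.core τ e ∈ tch L D τ r am' p0 j
      · obtain ⟨e, he⟩ := hto
        have hmem : ((⟨j, hj⟩ : Fin N), e, pth L D τ r p0 (am' j), pth L D τ r p0 (am' (j + 1))) ∈ E0 := by
          rw [← hE0, mem_trn]
          exact ⟨he, rfl, rfl⟩
        obtain ⟨w1, w2, w3⟩ := hwin _ hmem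
        simp only at w1 w2 w3
        rw [← hst] at w1 w2 w3
        have hrow : ∀ e', (L.core τ e' ∈ tch L D τ r am' p j ↔ e' = e) := by
          intro e'
          constructor
          · intro h
            unfold tch at h
            rw [mem_touch] at h
            obtain ⟨t', ⟨ht1, ht2⟩, hd, hin⟩ := h
            have e1 : t' = am' j + (t' - am' j) := by omega
            rw [e1, pth_window L D τ r am'] at hin
            exact w1 _ (by omega) hd e' hin
          · intro h
            subst h
            unfold tch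
            rw [mem_touch]
            obtain ⟨i, hi, hd, hin⟩ := w2
            refine ⟨am' j + i, ⟨by omega, by omega⟩, hd, ?_⟩
            rw [pth_window L D τ r am']
            exact hin
        refine ⟨?_, fun e' => ?_⟩
        · rw [← pth_window L D τ r am', hsub] at w3
          exact w3
        · rw [hrow]
          constructor
          · intro h; rw [h]; exact he
          · intro h; exact hG0.1 j hj e' e h he
      · push Not at hto
        have hrows : ∀ i < am' (j + 1) - am' j, ∀ h, (∀ e', ¬ L.InCore (L.core τ e')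
            (((D.evolve (L.graph (ins L τ r p0)) (am' j) (pth L D τ r p0 (am' j)) i).2 h).divNat : Fin n)) := by
          intro i hi hd e' hin
          refine hto e' ?_
          unfold tch
          rw [mem_touch]
          refine ⟨am' j + i, ⟨by omega, by omega⟩, hd, ?_⟩
          rw [pth_window L D τ r am']
          exact hin
        have hcong := D.evolve_congr (G := L.graph (ins L τ r p0)) (G' := L.graph (ins L τ r p)) (am' j)
          (pth L D τ r p0 (am' j)) (fun row => ∀ e', ¬ L.InCore (L.core τ e') row) (am' (j + 1) - am' j) hrows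
          (by
            intro row hrow c
            refine ins_congr L τ r _ _ row ?_ c
            intro q e1 e2 _ hin
            exact absurd hin (hrow e1))
        refine ⟨?_, fun e => ?_⟩
        · have h1 := pth_window L D τ r am' p j (am' (j + 1) - am' j)
          have h2 := pth_window L D τ r am' p0 j (am' (j + 1) - am' j)
          rw [hsub] at h1 h2
          rw [h1, h2, hst]
          exact hcong _ le_rfl
        · constructor
          · intro h
            exfalso
            unfold tch at h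
            rw [mem_touch] at h
            obtain ⟨t', ⟨ht1, ht2⟩, hd, hin⟩ := h
            have e1 : t' = am' j + (t' - am' j) := by omega
            rw [e1, pth_window L D τ r am', hst, hcong _ (by omega)] at hin
            exact hrows _ (by omega) hd e hin
          · intro h
            exact absurd h (hto e)
    have hall : ∀ j : ℕ, j ≤ N → pth L D τ r p (am' j) = pth L D τ r p0 (am' j) := by
      intro j
      induction j with
      | zero =>
        intro _
        rw [h0]
        rfl
      | succ j ih =>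
        intro hj
        exact (step j (by omega) (ih (by omega))).1
    have htou : ∀ j : ℕ, j < N → ∀ e, (L.core τ e ∈ tch L D τ r am' p j ↔ L.core τ e ∈ tch L D τ r am' p0 j) :=
      fun j hj => (step j hj (hall j hj.le)).2
    refine ⟨⟨?_, ?_⟩, ?_, ?_⟩
    · intro j hj e e' h h'
      exact hG0.1 j hj e e' ((htou j hj e).1 h) ((htou j hj e').1 h')
    · refine le_trans (le_of_eq ?_) hG0.2
      congr 1
      ext j
      simp only [Finset.mem_filter, Finset.mem_range]
      refine and_congr_right (fun hj => exists_congr (fun e => htou j hj e))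
    · rw [← hE0]
      ext a
      rw [mem_trn, mem_trn, htou a.1 a.1.2, hall a.1 a.1.2.le, hall (a.1 + 1) a.1.2]
    · rw [← hNT, hall N le_rfl, hNT]
      exact hA0

end cyl

end Pool.Agent.Lib_helper65.Rand
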