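import Mathlib
import Pool.Agent.Lib_helper65.Rand.RSim

/-!
# Masses, fibres and transcripts
-/

namespace Pool.Agent.Lib_helper65.Rand

open Finset

/-- indicator of a proposition -/
noncomputable def ind (P : Prop) : ℝ := by
  classical
  exact if P then 1 else 0

lemma ind_of {P : Prop} (h : P) : ind P = 1 := by unfold ind; exact if_pos h
lemma ind_of_not {P : Prop} (h : ¬ P) : ind P = 0 := by unfold ind; exact if_neg h
lemma ind_nonneg (P : Prop) : 0 ≤ ind P := by
  by_cases h : P
  · rw [ind_of h]; exact zero_le_one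
  · rw [ind_of_not h]
lemma ind_le_one (P : Prop) : ind P ≤ 1 := by
  by_cases h : P
  · rw [ind_of h]
  · rw [ind_of_not h]; exact zero_le_one
lemma ind_abs (P : Prop) : |ind P| ≤ 1 := by
  rw [abs_of_nonneg (ind_nonneg P)]; exact ind_le_one P
lemma ind_mono {P P' : Prop} (h : P → P') : ind P ≤ ind P' := by
  by_cases hP : P
  · rw [ind_of hP, ind_of (h hP)]
  · rw [ind_of_not hP]; exact ind_nonneg _

lemma cubeSum_univ {t : ℕ} (a : (Fin t → Bool) → ℝ) (v : Fin t → Bool) :
    cubeSum univ a v = ∑ w, a w := by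
  classical
  unfold cubeSum
  have h1 : supp (univ : Finset (Fin t)) = univ := by
    ext ε; simp [supp]
  rw [h1]
  let e : Equiv.Perm (Fin t → Bool) := Function.Involutive.toPerm (vxor v) (by
    intro ε; funext b; simp [vxor])
  exact Equiv.sum_comp e a

lemma fiber_sum_z {t s : ℕ} (x y : XT t s) (a : (Fin t → Bool) → ℝ) :
    (2 : ℝ) ^ t * ∑ z, a (sel z x y) = Fintype.card (ZT t s) * ∑ w, a w := by
  have h := corner_avg x y univ a (fun _ => 1) (fun _ _ _ => rfl)
  simp only [mul_one, cubeSum_univ, card_univ, Fintype.card_fin, sum_const, nsmul_eq_mul] at h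
  exact h

/-- the selected bits of a raw instance -/
def slct {t s : ℕ} (p : Raw t s) : Fin t → Bool := sel p.2 p.1.1 p.1.2

lemma fiber_sum {t s : ℕ} (a : (Fin t → Bool) → ℝ) :
    ∑ p : Raw t s, a (slct p) = mass t s * ∑ w, a w := by
  rw [Fintype.sum_prod_type]
  have h1 : ∀ q : XT t s × XT t s, ∑ z : ZT t s, a (slct (q, z)) =
      Fintype.card (ZT t s) / 2 ^ t * ∑ w, a w := by
    intro q
    have := fiber_sum_z (s := s) q.1 q.2 a
    show ∑ z, a (sel z q.1 q.2) = _
    field_simp
    linarith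
  rw [sum_congr rfl (fun q _ => h1 q), sum_const, card_univ, Fintype.card_prod, nsmul_eq_mul]
  unfold mass
  push_cast
  ring

lemma ok_iff {t s : ℕ} (p : Raw t s) : Ok p.1.1 p.1.2 p.2 ↔ slct p = fun _ => false := by
  unfold Ok slct sel
  exact ⟨fun h => funext h, fun h b => congrFun h b⟩

lemma card_inst {t s : ℕ} : (Fintype.card (Inst t s) : ℝ) = mass t s := by
  classical
  have h := fiber_sum (s := s) (fun v : Fin t → Bool => if v = (fun _ => false) then (1 : ℝ) else 0)
  simp only [sum_ite_eq', mem_univ, if_true, mul_one] at h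
  rw [← h, Fintype.card_subtype, card_filter]
  push_cast
  refine sum_congr rfl (fun p _ => ?_)
  simp only [ok_iff]

lemma sum_inst {t s : ℕ} (f : Raw t s → ℝ) :
    ∑ i : Inst t s, f i.1 = ∑ p : Raw t s, ind (Ok p.1.1 p.1.2 p.2) * f p := by
  have h : ∑ p : Raw t s, ind (Ok p.1.1 p.1.2 p.2) * f p =
      ∑ p : Raw t s, if Ok p.1.1 p.1.2 p.2 then f p else 0 := by
    refine sum_congr rfl (fun p _ => ?_)
    by_cases hp : Ok p.1.1 p.1.2 p.2
    · rw [ind_of hp, if_pos hp, one_mul]
    · rw [ind_of_not hp, if_neg hp, zero_mul]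
  rw [h, ← sum_filter]
  symm
  exact sum_subtype _ (fun p => by simp) f

open Classical in
lemma small_finsets (I : Type) [Fintype I] (c : ℕ) :
    ((Finset.univ : Finset (Finset I)).filter (fun E => E.card ≤ c)).card ≤ (Fintype.card I + 1) ^ c := by
  have h := Finset.card_le_card_of_surjOn (s := (Finset.univ : Finset (Fin c → Option I)))
    (t := (Finset.univ : Finset (Finset I)).filter (fun E => E.card ≤ c))
    (fun f => Finset.univ.filter (fun i => ∃ j, f j = some i)) ?_
  · refine h.trans ?_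
    simp [Fintype.card_option]
  · intro E hE
    simp only [Finset.coe_filter, Finset.mem_univ, true_and, Set.mem_ofPred_eq] at hE
    refine ⟨fun j => E.toList[(j : ℕ)]?, Finset.mem_coe.2 (Finset.mem_univ _), ?_⟩
    ext i
    simp only [Finset.mem_filter, Finset.mem_univ, true_and]
    constructor
    · rintro ⟨j, hj⟩
      exact Finset.mem_toList.1 (List.mem_iff_getElem?.2 ⟨_, hj⟩)
    · intro hi
      obtain ⟨m, hm⟩ := List.mem_iff_getElem?.1 (Finset.mem_toList.2 hi)
      have hlt : m < E.toList.length := by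
        by_contra hcon
        rw [List.getElem?_eq_none (not_lt.1 hcon)] at hm
        exact absurd hm (by simp)
      rw [Finset.length_toList] at hlt
      exact ⟨⟨m, lt_of_lt_of_le hlt hE⟩, hm⟩

section

variable {n k t s N : ℕ} {Q : Type} [Fintype Q] (L : Layout n t s) (D : DM n k Q) (τ : L.Tau)
  (r : {τ' : L.Tau // τ' ≠ τ} → Inst t s) (am' : ℕ → ℕ)

lemma trn_card (c : ℕ) (p : Raw t s) (hG : Good L N c (tch L D τ r am' p) τ) :
    (trn L D τ r am' N p).card ≤ c := by
  classical
  refine le_trans ?_ hG.2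
  refine Finset.card_le_card_of_injOn (fun x => (x.1 : ℕ)) ?_ ?_
  · intro x hx
    have hx' := (mem_trn L D τ r am' p x).1 (Finset.mem_coe.1 hx)
    simp only [Finset.coe_filter, Finset.mem_range, Set.mem_ofPred_eq]
    exact ⟨x.1.2, x.2.1, hx'.1⟩
  · intro x hx y hy hxy
    have hx' := (mem_trn L D τ r am' p x).1 (Finset.mem_coe.1 hx)
    have hy' := (mem_trn L D τ r am' p y).1 (Finset.mem_coe.1 hy)
    have h1 : x.1 = y.1 := Fin.ext hxy
    have h2 : x.2.1 = y.2.1 := by
      refine hG.1 x.1 x.1.2 _ _ hx'.1 ?_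
      rw [h1]; exact hy'.1
    refine Prod.ext h1 (Prod.ext h2 (Prod.ext ?_ ?_))
    · rw [hx'.2.1, hy'.2.1, h1]
    · rw [hx'.2.2, hy'.2.2, h1]

/-- one transcript -/
lemma one_transcript {d : ℕ} (hd : 1 ≤ d) (ht : t = 512 * d ^ 2) (hs : s = 2 ^ 20 * d)
    {ψ : (Fin t → Bool) → ℝ} (hψ : IsDual t d ψ)
    (hmono : Monotone am') (h0 : am' 0 = 0) (c T : ℕ) (hNT : am' N = T) (Acc : Conf n k Q → Prop)
    (E0 : Finset (Fin N × Fin 3 × Conf n k Q × Conf n k Q)) :
    |∑ p : Raw t s, ind (Ev L D τ r am' N c T Acc E0 p) * ψ (slct p)| * 2 ^ d ≤ mass t s := by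
  obtain ⟨P1, P2, P3, hP⟩ := cyl L D τ r am' hmono h0 c T hNT Acc E0
  have h := disc_final hd ht hs hψ (fun x z => ind (P1 x z)) (fun x y => ind (P2 x y))
    (fun y z => ind (P3 y z)) (fun _ _ => ind_abs _) (fun _ _ => ind_abs _) (fun _ _ => ind_abs _)
  refine le_trans (le_of_eq ?_) h
  congr 2
  have hind : ∀ x y z, ind (Ev L D τ r am' N c T Acc E0 ((x, y), z)) = ind (P1 x z) * (ind (P2 x y) * ind (P3 y z)) := by
    intro x y z
    rw [hP x y z]
    by_cases h1 : P1 x z
    · by_cases h2 : P2 x y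
      · by_cases h3 : P3 y z
        · rw [ind_of h1, ind_of h2, ind_of h3, ind_of ⟨h1, h2, h3⟩]; norm_num
        · rw [ind_of_not h3, ind_of_not (fun h => h3 h.2.2)]; ring
      · rw [ind_of_not h2, ind_of_not (fun h => h2 h.2.1)]; ring
    · rw [ind_of_not h1, ind_of_not (fun h => h1 h.1)]; ring
  calc ∑ p : Raw t s, ind (Ev L D τ r am' N c T Acc E0 p) * ψ (slct p)
      = ∑ x : XT t s, ∑ y : XT t s, ∑ z : ZT t s,
          ind (P1 x z) * (ind (P2 x y) * ind (P3 y z)) * ψ (sel z x y) := by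
        rw [Fintype.sum_prod_type, Fintype.sum_prod_type]
        refine sum_congr rfl (fun x _ => sum_congr rfl (fun y _ => sum_congr rfl (fun z _ => ?_)))
        rw [hind x y z]
        rfl
    _ = ∑ x : XT t s, ∑ z : ZT t s, ∑ y : XT t s,
          ind (P1 x z) * (ind (P2 x y) * ind (P3 y z)) * ψ (sel z x y) := by
        refine sum_congr rfl (fun x _ => ?_)
        rw [sum_comm]
    _ = ∑ p : XT t s × ZT t s, ∑ y : XT t s,
          ind (P1 p.1 p.2) * (ind (P2 p.1 y) * ind (P3 y p.2)) * ψ (sel p.2 p.1 y) := by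
        rw [Fintype.sum_prod_type]
    _ = _ := by
        refine sum_congr rfl (fun p _ => ?_)
        rw [mul_sum]
        refine sum_congr rfl (fun y _ => ?_)
        ring

/-- all accepted good instances -/
lemma all_transcripts {d : ℕ} (hd : 1 ≤ d) (ht : t = 512 * d ^ 2) (hs : s = 2 ^ 20 * d)
    {ψ : (Fin t → Bool) → ℝ} (hψ : IsDual t d ψ)
    (hmono : Monotone am') (h0 : am' 0 = 0) (c T : ℕ) (hNT : am' N = T) (Acc : Conf n k Q → Prop) :
    (∑ p : Raw t s, ind (Good L N c (tch L D τ r am' p) τ ∧ Acc (pth L D τ r p T)) * ψ (slct p)) * 2 ^ d ≤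
      (3 * N * (Fintype.card Q * (n * n) ^ k) ^ 2 + 1 : ℕ) ^ c * mass t s := by
  classical
  set Es := (Finset.univ : Finset (Finset (Fin N × Fin 3 × Conf n k Q × Conf n k Q))).filter
    (fun E => E.card ≤ c) with hEs
  have h1 : (∑ p : Raw t s, ind (Good L N c (tch L D τ r am' p) τ ∧ Acc (pth L D τ r p T)) * ψ (slct p))
      = ∑ E0 ∈ Es, ∑ p : Raw t s, ind (Ev L D τ r am' N c T Acc E0 p) * ψ (slct p) := by
    rw [sum_comm]
    refine sum_congr rfl (fun p _ => ?_)
    by_cases hp : Good L N c (tch L D τ r am' p) τ ∧ Acc (pth L D τ r p T)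
    · rw [ind_of hp]
      have hmem : trn L D τ r am' N p ∈ Es := by
        rw [hEs, mem_filter]
        exact ⟨mem_univ _, trn_card L D τ r am' c p hp.1⟩
      rw [sum_eq_single_of_mem _ hmem]
      · rw [ind_of ⟨hp.1, rfl, hp.2⟩]
      · intro E _ hE
        rw [ind_of_not, zero_mul]
        rintro ⟨_, h, _⟩
        exact hE h.symm
    · rw [ind_of_not hp, zero_mul]
      symm
      refine sum_eq_zero (fun E _ => ?_)
      rw [ind_of_not, zero_mul]
      rintro ⟨h, _, h'⟩
      exact hp ⟨h, h'⟩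
  rw [h1, sum_mul]
  calc ∑ E0 ∈ Es, (∑ p : Raw t s, ind (Ev L D τ r am' N c T Acc E0 p) * ψ (slct p)) * 2 ^ d
      ≤ ∑ _E0 ∈ Es, mass t s := by
        refine sum_le_sum (fun E0 _ => ?_)
        refine le_trans ?_ (one_transcript L D τ r am' hd ht hs hψ hmono h0 c T hNT Acc E0)
        exact mul_le_mul_of_nonneg_right (le_abs_self _) (by positivity)
    _ = Es.card * mass t s := by rw [sum_const, nsmul_eq_mul]
    _ ≤ _ := by
        refine mul_le_mul_of_nonneg_right ?_ (mass_nonneg t s)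
        have h2 := small_finsets (Fin N × Fin 3 × Conf n k Q × Conf n k Q) c
        have h3 : (Fintype.card (Fin N × Fin 3 × Conf n k Q × Conf n k Q) + 1) =
            3 * N * (Fintype.card Q * (n * n) ^ k) ^ 2 + 1 := by
          simp only [Fintype.card_prod, Fintype.card_fin, Fintype.card_pi, Finset.prod_const, Finset.card_univ]
          ring
        rw [h3] at h2
        exact_mod_cast h2

end

end Pool.Agent.Lib_helper65.Rand
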