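import Mathlib
import Pool.Agent.Lib_helper65.Rand.RMass

/-!
# The averaging argument
-/

namespace Pool.Agent.Lib_helper65.Rand

open Finset

/-- the deterministic machine of a seed -/
def RMachine.dm {n k : ℕ} {Q Ω : Type} (M : RMachine n k Q Ω) (ω : Ω) : DM n k Q where
  start := M.start ω
  step := fun t c b => if (M.answer c).isSome then c else M.step ω t c b
  slow := by
    intro t c b h
    split_ifs
    · exact ⟨Nat.le_succ _, Nat.le_succ _⟩
    · exact M.slow ω t c b h

lemma RMachine.dm_path {n k : ℕ} {Q Ω : Type} (M : RMachine n k Q Ω) (ω : Ω) (G : SimpleGraph (Fin n))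
    (t : ℕ) : (M.dm ω).path G t = M.run ω G t := by
  induction t with
  | zero => rfl
  | succ t ih =>
    rw [DM.path_succ, ih]
    rfl

section avg

variable {n k t s d N c T : ℕ} {Q Ω : Type} [Fintype Ω]

/-- weights of events -/
noncomputable def pr (p : Ω → ℝ) (A : Ω → Prop) : ℝ := ∑ ω, p ω * ind (A ω)

lemma pr_nonneg {p : Ω → ℝ} (hp : ∀ ω, 0 ≤ p ω) (A : Ω → Prop) : 0 ≤ pr p A :=
  sum_nonneg (fun ω _ => mul_nonneg (hp ω) (ind_nonneg _))

lemma pr_mono {p : Ω → ℝ} (hp : ∀ ω, 0 ≤ p ω) {A B : Ω → Prop} (h : ∀ ω, A ω → B ω) : pr p A ≤ pr p B :=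
  sum_le_sum (fun ω _ => mul_le_mul_of_nonneg_left (ind_mono (h ω)) (hp ω))

lemma ind_or (P P' : Prop) : ind (P ∨ P') ≤ ind P + ind P' := by
  by_cases h : P
  · rw [ind_of (Or.inl h), ind_of h]
    have := ind_nonneg P'
    linarith
  · by_cases h' : P'
    · rw [ind_of (Or.inr h'), ind_of h']
      have := ind_nonneg P
      linarith
    · rw [ind_of_not (fun hh => hh.elim h h')]
      have := ind_nonneg P
      have := ind_nonneg P'
      linarith

lemma ind_not (P : Prop) : ind P + ind (¬ P) = 1 := by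
  by_cases h : P
  · rw [ind_of h, ind_of_not (not_not.2 h)]; norm_num
  · rw [ind_of_not h, ind_of h]; norm_num

lemma pr_or {p : Ω → ℝ} (hp : ∀ ω, 0 ≤ p ω) (A B : Ω → Prop) : pr p (fun ω => A ω ∨ B ω) ≤ pr p A + pr p B := by
  unfold pr
  rw [← sum_add_distrib]
  refine sum_le_sum (fun ω _ => ?_)
  rw [← mul_add]
  exact mul_le_mul_of_nonneg_left (ind_or _ _) (hp ω)

lemma pr_not {p : Ω → ℝ} (hp1 : ∑ ω, p ω = 1) (A : Ω → Prop) : pr p A + pr p (fun ω => ¬ A ω) = 1 := by
  unfold pr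
  rw [← sum_add_distrib, ← hp1]
  refine sum_congr rfl (fun ω _ => ?_)
  rw [← mul_add, ind_not, mul_one]

lemma pr_le_one {p : Ω → ℝ} (hp : ∀ ω, 0 ≤ p ω) (hp1 : ∑ ω, p ω = 1) (A : Ω → Prop) : pr p A ≤ 1 := by
  have := pr_not hp1 A
  have := pr_nonneg hp (fun ω => ¬ A ω)
  linarith

variable (L : Layout n t s) (M : RMachine n k Q Ω) (p : Ω → ℝ)

/-- the bad event for the seed `ω` -/
def Bad (N c : ℕ) (am' : ℕ → ℕ) (τ : L.Tau) (r : {τ' : L.Tau // τ' ≠ τ} → Inst t s) (x : Raw t s) (ω : Ω) :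
    Prop := ¬ Good L N c (tch L (M.dm ω) τ r am' x) τ

open Classical in
lemma exists_tau (hp : ∀ ω, 0 ≤ p ω) (hp1 : ∑ ω, p ω = 1) [Nonempty L.Tau]
    (h1 : 200 * (N * k ^ 2) ≤ L.g * L.A.card) (h2 : 200 * (N * k) ≤ (c + 1) * L.g)
    (am' : ℕ → ℕ) (ham : ∀ j, am' (j + 1) ≤ am' j + L.w * n) :
    ∃ τ : L.Tau, ∑ r : ({τ' : L.Tau // τ' ≠ τ} → Inst t s), ∑ i : Inst t s, pr p (Bad L M N c am' τ r i.1) ≤
      (1 / 100) * (Fintype.card ({τ' : L.Tau // τ' ≠ τ} → Inst t s) * Fintype.card (Inst t s)) := by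
  -- bad events on full instances
  let B : (L.Tau → Inst t s) → Ω → L.Tau → Prop := fun ι ω τ =>
    ¬ Good L N c (fun j => touch L ((M.dm ω).path (L.graph (fun τ => (ι τ).1))) (am' j) (am' (j + 1))) τ
  have hB : ∀ ι ω, (100 : ℝ) * ∑ τ : L.Tau, ind (B ι ω τ) ≤ Fintype.card L.Tau := by
    intro ι ω
    have e0 : ∀ τ : L.Tau, ind (B ι ω τ) = if B ι ω τ then (1 : ℝ) else 0 := by
      intro τ
      by_cases h : B ι ω τ
      · rw [ind_of h, if_pos h]
      · rw [ind_of_not h, if_neg h]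
    rw [sum_congr rfl (fun τ _ => e0 τ)]
    have := good_many L N k c (fun j => touch L ((M.dm ω).path (L.graph (fun τ => (ι τ).1))) (am' j) (am' (j + 1)))
      (fun j _ => touch_card _ _ L (ham j)) h1 h2
    rw [sum_boole]
    exact_mod_cast this
  have htot : ∑ τ : L.Tau, ∑ ι : (L.Tau → Inst t s), pr p (fun ω => B ι ω τ) ≤
      ∑ _τ : L.Tau, (1 / 100 : ℝ) * Fintype.card (L.Tau → Inst t s) := by
    rw [sum_comm]
    have e1 : ∀ ι : (L.Tau → Inst t s), ∑ τ : L.Tau, pr p (fun ω => B ι ω τ) ≤ (1 / 100 : ℝ) * Fintype.card L.Tau := by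
      intro ι
      unfold pr
      rw [sum_comm]
      calc ∑ ω, ∑ τ : L.Tau, p ω * ind (B ι ω τ)
          = ∑ ω, p ω * ∑ τ : L.Tau, ind (B ι ω τ) := by
            refine sum_congr rfl (fun ω _ => ?_)
            rw [mul_sum]
        _ ≤ ∑ ω, p ω * ((1 / 100 : ℝ) * Fintype.card L.Tau) := by
            refine sum_le_sum (fun ω _ => mul_le_mul_of_nonneg_left ?_ (hp ω))
            linarith [hB ι ω]
        _ = _ := by rw [← sum_mul, hp1, one_mul]
    refine (sum_le_sum (fun ι _ => e1 ι)).trans (le_of_eq ?_)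
    simp only [sum_const, card_univ, nsmul_eq_mul]
    ring
  obtain ⟨τ, -, hτ⟩ := exists_le_of_sum_le (s := (univ : Finset L.Tau)) univ_nonempty htot
  refine ⟨τ, ?_⟩
  let e := Equiv.funSplitAt τ (Inst t s)
  have hins : ∀ (i : Inst t s) (r : {j // j ≠ τ} → Inst t s),
      (fun τ' => (e.symm (i, r) τ').1) = ins L τ r i.1 := by
    intro i r
    funext τ'
    by_cases h : τ' = τ
    · subst h
      simp [ins, e, Equiv.funSplitAt, Equiv.piSplitAt]
    · simp [ins, e, Equiv.funSplitAt, Equiv.piSplitAt, h]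
  have hcard : (Fintype.card (L.Tau → Inst t s) : ℝ) =
      Fintype.card ({τ' : L.Tau // τ' ≠ τ} → Inst t s) * Fintype.card (Inst t s) := by
    rw [Fintype.card_congr e, Fintype.card_prod]
    push_cast; ring
  rw [hcard] at hτ
  refine le_trans (le_of_eq ?_) hτ
  rw [← Equiv.sum_comp e.symm, Fintype.sum_prod_type, sum_comm]
  refine sum_congr rfl (fun i _ => sum_congr rfl (fun r _ => ?_))
  congr 1
  funext ω
  show (¬ Good L N c (tch L (M.dm ω) τ r am' i.1) τ) = _
  simp only [B]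
  rw [hins i r]
  rfl

/-- success within `T` steps with probability at least `3 / 5` -/
def Succ35 (M : RMachine n k Q Ω) (p : Ω → ℝ) (T : ℕ) : Prop :=
  ∀ G : SimpleGraph (Fin n), 3 / 5 ≤ pr p (fun ω => ∃ b, M.answer (M.run ω G T) = some b ∧ Correct G b)

open Classical in
theorem sim_bound [Fintype Q] (hd : 1 ≤ d) (ht : t = 512 * d ^ 2) (hs : s = 2 ^ 20 * d)
    (hp : ∀ ω, 0 ≤ p ω) (hp1 : ∑ ω, p ω = 1) (hM : Succ35 M p T) [Nonempty L.Tau]
    (hN : T ≤ N * (L.w * n))
    (h1 : 200 * (N * k ^ 2) ≤ L.g * L.A.card) (h2 : 200 * (N * k) ≤ (c + 1) * L.g) :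
    2 ^ d ≤ 20 * (3 * N * (Fintype.card Q * (n * n) ^ k) ^ 2 + 1) ^ c := by
  obtain ⟨ψ, hψ⟩ : ∃ ψ, IsDual t d ψ := by
    obtain ⟨ψ, hψ⟩ := dual_exists d hd
    rw [ht]
    exact ⟨ψ, hψ⟩
  set l := L.w * n with hl
  have haN : am l T N = T := min_eq_right hN
  obtain ⟨τ, hτ⟩ := exists_tau (N := N) (c := c) L M p hp hp1 h1 h2 (am l T) (fun j => am_succ l T j)
  set R := ({τ' : L.Tau // τ' ≠ τ} → Inst t s) with hR
  have hinst : Nonempty (Inst t s) := by
    have hs0 : 0 < s := by rw [hs]; positivity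
    exact ⟨⟨((fun _ => ⟨0, hs0⟩, fun _ => ⟨0, hs0⟩), fun _ _ _ => false), fun _ => rfl⟩⟩
  have hκ : (Fintype.card (Inst t s) : ℝ) = mass t s := card_inst
  have hκ0 : 0 < mass t s := by
    rw [← hκ]; exact_mod_cast Fintype.card_pos
  have hRpos : (0 : ℝ) < Fintype.card R := by
    have : Nonempty R := ⟨fun _ => hinst.some⟩
    exact_mod_cast Fintype.card_pos
  -- the accepted good event
  let Acc : Conf n k Q → Prop := fun c => M.answer c = some false
  let GA : R → Raw t s → Ω → Prop := fun r x ω =>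
    Good L N c (tch L (M.dm ω) τ r (am l T) x) τ ∧ Acc (pth L (M.dm ω) τ r x T)
  -- upper bound
  have hupper : ∀ r ω, (∑ x : Raw t s, ind (GA r x ω) * ψ (slct x)) * 2 ^ d ≤
      (3 * N * (Fintype.card Q * (n * n) ^ k) ^ 2 + 1 : ℕ) ^ c * mass t s := by
    intro r ω
    exact all_transcripts L (M.dm ω) τ r (am l T) hd ht hs hψ (am_mono l T) (am_zero l T) c T haN Acc
  -- the sum of `ψ` is zero
  have hψ0 : ∑ v, ψ v = 0 := by
    have := hψ.orth ∅ (by simp) (fun _ => false)
    simpa using this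
  have hψ1 : |ψ (fun _ => false)| ≤ 1 := by
    refine le_trans ?_ hψ.l1
    exact single_le_sum (f := fun v => |ψ v|) (fun _ _ => abs_nonneg _) (mem_univ _)
  -- pointwise bounds
  have hok : ∀ (r : R) (x : Raw t s), Ok x.1.1 x.1.2 x.2 →
      3 / 5 - pr p (Bad L M N c (am l T) τ r x) ≤ pr p (GA r x) := by
    intro r x hx
    have hG := hM (L.graph (ins L τ r x))
    have hcf : (L.graph (ins L τ r x)).CliqueFree 3 := (ins_cliqueFree L τ r x).2 hx
    have hle : pr p (fun ω => ∃ b, M.answer (M.run ω (L.graph (ins L τ r x)) T) = some b ∧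
        Correct (L.graph (ins L τ r x)) b) ≤ pr p (GA r x) + pr p (Bad L M N c (am l T) τ r x) := by
      refine (pr_mono hp ?_).trans (pr_or hp _ _)
      rintro ω ⟨b, hb1, hb2⟩
      by_cases hgood : Good L N c (tch L (M.dm ω) τ r (am l T) x) τ
      · left
        refine ⟨hgood, ?_⟩
        show M.answer (pth L (M.dm ω) τ r x T) = some false
        unfold pth
        rw [RMachine.dm_path, hb1]
        have : b = false := by
          cases b
          · rfl
          · exact absurd hcf (hb2.1 rfl)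
        rw [this]
      · right; exact hgood
    linarith
  have hnok : ∀ (r : R) (x : Raw t s), ¬ Ok x.1.1 x.1.2 x.2 → pr p (GA r x) ≤ 2 / 5 := by
    intro r x hx
    have hG := hM (L.graph (ins L τ r x))
    have hcf : ¬ (L.graph (ins L τ r x)).CliqueFree 3 := fun h => hx ((ins_cliqueFree L τ r x).1 h)
    have hle : pr p (GA r x) ≤ pr p (fun ω => ¬ ∃ b, M.answer (M.run ω (L.graph (ins L τ r x)) T) = some b ∧
        Correct (L.graph (ins L τ r x)) b) := by
      refine pr_mono hp ?_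
      rintro ω ⟨_, hacc⟩ ⟨b, hb1, hb2⟩
      have hacc' : M.answer (pth L (M.dm ω) τ r x T) = some false := hacc
      unfold pth at hacc'
      rw [RMachine.dm_path, hb1] at hacc'
      have hbf : b = false := by simpa using hacc'
      have := hb2.2 hcf
      rw [hbf] at this
      exact absurd this (by simp)
    have := pr_not hp1 (fun ω => ∃ b, M.answer (M.run ω (L.graph (ins L τ r x)) T) = some b ∧
        Correct (L.graph (ins L τ r x)) b)
    linarith
  -- lower bound for one background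
  have hlow : ∀ r : R, (12 / 100) * mass t s - 2 * ∑ i : Inst t s, pr p (Bad L M N c (am l T) τ r i.1) ≤
      2 * ∑ x : Raw t s, ψ (slct x) * pr p (GA r x) := by
    intro r
    have hF : ∑ x : Raw t s, ψ (slct x) * (2 * ind (Ok x.1.1 x.1.2 x.2) - 1) =
        mass t s * (2 * ψ (fun _ => false)) := by
      have e1 : ∀ x : Raw t s, ψ (slct x) * (2 * ind (Ok x.1.1 x.1.2 x.2) - 1) =
          (fun v : Fin t → Bool => ψ v * (2 * (if v = (fun _ => false) then (1 : ℝ) else 0) - 1)) (slct x) := by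
        intro x
        by_cases hx : Ok x.1.1 x.1.2 x.2
        · have hx' := (ok_iff x).1 hx
          simp only [ind_of hx, hx', if_true]
        · have hx' : ¬ slct x = fun _ => false := fun h => hx ((ok_iff x).2 h)
          simp only [ind_of_not hx, hx', if_false]
      rw [sum_congr rfl (fun x _ => e1 x),
        fiber_sum (s := s) (fun v : Fin t → Bool => ψ v * (2 * (if v = (fun _ => false) then (1 : ℝ) else 0) - 1))]
      congr 1
      have e2 : ∀ v : Fin t → Bool, ψ v * (2 * (if v = (fun _ => false) then (1 : ℝ) else 0) - 1) =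
          2 * (if v = (fun _ => false) then ψ v else 0) - ψ v := by
        intro v
        split_ifs <;> ring
      rw [sum_congr rfl (fun v _ => e2 v), sum_sub_distrib, ← mul_sum, hψ0, sum_ite_eq' univ]
      simp
    have habs : ∑ x : Raw t s, |ψ (slct x)| ≤ mass t s := by
      have := fiber_sum (s := s) (fun v => |ψ v|)
      rw [this]
      have := mul_le_mul_of_nonneg_left hψ.l1 hκ0.le
      linarith
    have hzero : ∑ x : Raw t s, ψ (slct x) = 0 := by
      rw [fiber_sum ψ, hψ0, mul_zero]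
    have hpt : ∀ x : Raw t s, ψ (slct x) * (2 * ind (Ok x.1.1 x.1.2 x.2) - 1) - (4 / 5) * |ψ (slct x)| -
        2 * (ind (Ok x.1.1 x.1.2 x.2) * pr p (Bad L M N c (am l T) τ r x)) ≤
        ψ (slct x) * (2 * pr p (GA r x) - 1) := by
      intro x
      have hq1 := pr_le_one hp hp1 (GA r x)
      have hq0 := pr_nonneg hp (GA r x)
      set q := pr p (GA r x) with hq
      by_cases hx : Ok x.1.1 x.1.2 x.2
      · rw [ind_of hx]
        have hb0 := pr_nonneg hp (Bad L M N c (am l T) τ r x)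
        set β := pr p (Bad L M N c (am l T) τ r x) with hβ
        have h3 := hok r x hx
        have hs1 : |ψ (slct x)| ≤ 1 := by
          rw [(ok_iff x).1 hx]; exact hψ1
        have h4 : |ψ (slct x)| * (2 - 2 * q) ≤ |ψ (slct x)| * (4 / 5 + 2 * β) :=
          mul_le_mul_of_nonneg_left (by linarith) (abs_nonneg _)
        have h5 : |ψ (slct x)| * β ≤ β := mul_le_of_le_one_left hb0 hs1
        have h6 : ψ (slct x) * (2 - 2 * q) ≤ |ψ (slct x)| * (2 - 2 * q) :=
          mul_le_mul_of_nonneg_right (le_abs_self _) (by linarith)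
        nlinarith
      · rw [ind_of_not hx]
        have h3 := hnok r x hx
        have h4 : |ψ (slct x)| * (2 * q) ≤ |ψ (slct x)| * (4 / 5) :=
          mul_le_mul_of_nonneg_left (by linarith) (abs_nonneg _)
        have h6 : -(ψ (slct x)) * (2 * q) ≤ |ψ (slct x)| * (2 * q) :=
          mul_le_mul_of_nonneg_right (neg_le_abs _) (by linarith)
        nlinarith
    have hsum := sum_le_sum (fun x (_ : x ∈ (univ : Finset (Raw t s))) => hpt x)
    rw [sum_sub_distrib, sum_sub_distrib, hF, ← mul_sum, ← mul_sum, ← sum_inst] at hsum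
    have hrhs : ∑ x : Raw t s, ψ (slct x) * (2 * pr p (GA r x) - 1) =
        2 * ∑ x : Raw t s, ψ (slct x) * pr p (GA r x) := by
      have e1 : ∀ x : Raw t s, ψ (slct x) * (2 * pr p (GA r x) - 1) =
          2 * (ψ (slct x) * pr p (GA r x)) - ψ (slct x) := by
        intro x; ring
      rw [sum_congr rfl (fun x _ => e1 x), sum_sub_distrib, ← mul_sum, hzero, sub_zero]
    rw [hrhs] at hsum
    have hz := hψ.zero
    have hz' : mass t s * (2 * (46 / 100)) ≤ mass t s * (2 * ψ (fun _ => false)) :=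
      mul_le_mul_of_nonneg_left (by linarith) hκ0.le
    linarith
  -- total
  have htotal : (1 / 10) * (Fintype.card R * mass t s) ≤
      ∑ r : R, 2 * ∑ x : Raw t s, ψ (slct x) * pr p (GA r x) := by
    have h3 := sum_le_sum (fun r (_ : r ∈ (univ : Finset R)) => hlow r)
    rw [sum_sub_distrib, sum_const, card_univ, nsmul_eq_mul] at h3
    rw [hκ] at hτ
    have h4 : ∑ r : R, 2 * ∑ i : Inst t s, pr p (Bad L M N c (am l T) τ r i.1) =
        2 * ∑ r : R, ∑ i : Inst t s, pr p (Bad L M N c (am l T) τ r i.1) := by rw [mul_sum]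
    rw [h4] at h3
    linarith
  have hswap : ∑ r : R, 2 * ∑ x : Raw t s, ψ (slct x) * pr p (GA r x) =
      ∑ r : R, ∑ ω, p ω * (2 * ∑ x : Raw t s, ind (GA r x ω) * ψ (slct x)) := by
    refine sum_congr rfl (fun r _ => ?_)
    unfold pr
    have e1 : ∀ x : Raw t s, ψ (slct x) * (∑ ω, p ω * ind (GA r x ω)) =
        ∑ ω, p ω * (ind (GA r x ω) * ψ (slct x)) := by
      intro x
      rw [mul_sum]
      refine sum_congr rfl (fun ω _ => ?_)
      ring
    rw [sum_congr rfl (fun x _ => e1 x), sum_comm, mul_sum]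
    refine sum_congr rfl (fun ω _ => ?_)
    rw [← mul_sum]
    ring
  rw [hswap] at htotal
  set X : ℝ := ((3 * N * (Fintype.card Q * (n * n) ^ k) ^ 2 + 1 : ℕ) : ℝ) ^ c with hX
  have h2d : (0 : ℝ) < 2 ^ d := by positivity
  have hfin : (∑ r : R, ∑ ω, p ω * (2 * ∑ x : Raw t s, ind (GA r x ω) * ψ (slct x))) * 2 ^ d ≤
      Fintype.card R * (2 * (X * mass t s)) := by
    rw [sum_mul]
    calc ∑ r : R, (∑ ω, p ω * (2 * ∑ x : Raw t s, ind (GA r x ω) * ψ (slct x))) * 2 ^ d
        ≤ ∑ _r : R, 2 * (X * mass t s) := by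
          refine sum_le_sum (fun r _ => ?_)
          rw [sum_mul]
          calc ∑ ω, p ω * (2 * ∑ x : Raw t s, ind (GA r x ω) * ψ (slct x)) * 2 ^ d
              ≤ ∑ ω, p ω * (2 * (X * mass t s)) := by
                refine sum_le_sum (fun ω _ => ?_)
                have := hupper r ω
                calc p ω * (2 * ∑ x : Raw t s, ind (GA r x ω) * ψ (slct x)) * 2 ^ d
                    = p ω * (2 * ((∑ x : Raw t s, ind (GA r x ω) * ψ (slct x)) * 2 ^ d)) := by ring
                  _ ≤ _ := mul_le_mul_of_nonneg_left (by linarith) (hp ω)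
            _ = _ := by rw [← sum_mul, hp1, one_mul]
      _ = _ := by rw [sum_const, card_univ, nsmul_eq_mul]
  have hlast : (1 / 10) * (Fintype.card R * mass t s) * 2 ^ d ≤ Fintype.card R * (2 * (X * mass t s)) :=
    (mul_le_mul_of_nonneg_right htotal h2d.le).trans hfin
  have hres : (2 : ℝ) ^ d ≤ 20 * X := by
    have hpos : 0 < (Fintype.card R : ℝ) * mass t s := mul_pos hRpos hκ0
    have : ((Fintype.card R : ℝ) * mass t s) * (2 ^ d) ≤ ((Fintype.card R : ℝ) * mass t s) * (20 * X) := by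
      linarith
    exact le_of_mul_le_mul_left this hpos
  rw [hX] at hres
  exact_mod_cast hres

end avg

end Pool.Agent.Lib_helper65.Rand
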