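import Mathlib
import Pool.Agent.Lib_helper65.Rand.RAvg

/-!
# A randomised machine has to read a quadratic number of cells
-/

namespace Pool.Agent.Lib_helper65.Rand

open Finset

/-- complete bipartite graph between the first `2 h` vertices and the others -/
def gBase (n h : ℕ) : SimpleGraph (Fin n) where
  Adj u v := ((u : ℕ) < 2 * h ∧ 2 * h ≤ (v : ℕ)) ∨ ((v : ℕ) < 2 * h ∧ 2 * h ≤ (u : ℕ))
  symm := ⟨fun u v h' => by tauto⟩
  loopless := ⟨fun u h' => by rcases h' with h' | h' <;> omega⟩

/-- the base graph with the additional edge `a, h + b` -/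
def gPlus (n h : ℕ) (a b : ℕ) (hab : a ≠ h + b) : SimpleGraph (Fin n) where
  Adj u v := (gBase n h).Adj u v ∨ ((u : ℕ) = a ∧ (v : ℕ) = h + b) ∨ ((v : ℕ) = a ∧ (u : ℕ) = h + b)
  symm := ⟨fun u v h' => by
    rcases h' with h' | h' | h'
    · exact Or.inl h'.symm
    · exact Or.inr (Or.inr h')
    · exact Or.inr (Or.inl h')⟩
  loopless := ⟨fun u h' => by
    rcases h' with h' | h' | h'
    · exact (gBase n h).loopless.irrefl u h'
    · omega
    · omega⟩

lemma gBase_free (n h : ℕ) : (gBase n h).CliqueFree 3 := by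
  intro s hs
  rw [SimpleGraph.is3Clique_iff] at hs
  obtain ⟨a, b, c, hab, hac, hbc, _⟩ := hs
  simp only [gBase] at hab hac hbc
  omega

lemma gPlus_not_free {n h a b : ℕ} (hab : a ≠ h + b) (hn : 4 * h ≤ n) (ha : a < h) (hb : b < h) :
    ¬ (gPlus n h a b hab).CliqueFree 3 := by
  intro hf
  have hn0 : 2 * h < n := by omega
  refine hf {⟨a, by omega⟩, ⟨h + b, by omega⟩, ⟨2 * h, hn0⟩} ?_
  rw [SimpleGraph.is3Clique_iff]
  refine ⟨_, _, _, ?_, ?_, ?_, rfl⟩
  · right; left; exact ⟨rfl, rfl⟩
  · left
    simp only [gBase]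
    left; constructor <;> omega
  · left
    simp only [gBase]
    left; constructor <;> omega

open Classical in
theorem read_bound {n k T : ℕ} {Q Ω : Type} [Fintype Ω] (M : RMachine n k Q Ω) (p : Ω → ℝ)
    (hp : ∀ ω, 0 ≤ p ω) (hp1 : ∑ ω, p ω = 1) (hM : Succ35 M p T) :
    (n / 4) ^ 2 ≤ 5 * (T * k) := by
  set h := n / 4 with hh
  have hn : 4 * h ≤ n := Nat.mul_div_le n 4
  have hne : ∀ x : Fin h × Fin h, (x.1 : ℕ) ≠ h + (x.2 : ℕ) := fun x => by have := x.1.2; omega
  -- cell of a pair is read
  let Rd : Fin h × Fin h → Ω → Prop := fun x ω => ∃ y : Fin T × Fin k,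
    ((((M.run ω (gBase n h) y.1).2 y.2).divNat : ℕ) = x.1 ∧
      (((M.run ω (gBase n h) y.1).2 y.2).modNat : ℕ) = h + x.2) ∨
    ((((M.run ω (gBase n h) y.1).2 y.2).modNat : ℕ) = x.1 ∧
      (((M.run ω (gBase n h) y.1).2 y.2).divNat : ℕ) = h + x.2)
  have hRd : ∀ x, 1 / 5 ≤ pr p (Rd x) := by
    intro x
    have h1 := hM (gBase n h)
    have h2 := hM (gPlus n h x.1 x.2 (hne x))
    set A : Ω → Prop := fun ω => ∃ b, M.answer (M.run ω (gBase n h) T) = some b ∧ Correct (gBase n h) b with hA
    set B : Ω → Prop := fun ω => ∃ b, M.answer (M.run ω (gPlus n h x.1 x.2 (hne x)) T) = some b ∧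
      Correct (gPlus n h x.1 x.2 (hne x)) b with hB
    have hcov : ∀ ω, ¬ Rd x ω → ¬ A ω ∨ ¬ B ω := by
      intro ω hR
      by_contra hcon
      push Not at hcon
      obtain ⟨⟨b, hb1, hb2⟩, ⟨b', hb1', hb2'⟩⟩ := hcon
      -- runs agree
      have hrun : ∀ t, t ≤ T → M.run ω (gPlus n h x.1 x.2 (hne x)) t = M.run ω (gBase n h) t := by
        intro t
        induction t with
        | zero => intro _; rfl
        | succ t ih =>
          intro ht
          have ih' := ih (by omega)
          simp only [RMachine.run]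
          rw [ih']
          have hscan : scan (gPlus n h x.1 x.2 (hne x)) (M.run ω (gBase n h) t).2 =
              scan (gBase n h) (M.run ω (gBase n h) t).2 := by
            funext hd
            refine propext ⟨fun hadj => ?_, fun hadj => Or.inl hadj⟩
            rcases hadj with hadj | hadj | hadj
            · exact hadj
            · exact absurd ⟨(⟨t, by omega⟩, hd), Or.inl hadj⟩ hR
            · exact absurd ⟨(⟨t, by omega⟩, hd), Or.inr hadj⟩ hR
          rw [hscan]
      rw [hrun T le_rfl] at hb1'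
      have hbb : b = b' := by rw [hb1] at hb1'; simpa using hb1'
      subst hbb
      have hx1 := x.1.2
      have hx2 := x.2.2
      have hf := gPlus_not_free (hne x) hn hx1 hx2
      have hbt : b = true := hb2'.2 hf
      exact (hb2.1 hbt) (gBase_free n h)
    have h3 := pr_not hp1 (Rd x)
    have h4 : pr p (fun ω => ¬ Rd x ω) ≤ pr p (fun ω => ¬ A ω) + pr p (fun ω => ¬ B ω) :=
      (pr_mono hp hcov).trans (pr_or hp _ _)
    have h5 := pr_not hp1 A
    have h6 := pr_not hp1 B
    linarith
  -- every seed reads few cells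
  have hcount : ∀ ω, ∑ x : Fin h × Fin h, ind (Rd x ω) ≤ T * k := by
    intro ω
    have e0 : ∀ x : Fin h × Fin h, ind (Rd x ω) = if Rd x ω then (1 : ℝ) else 0 := by
      intro x
      by_cases hx : Rd x ω
      · rw [ind_of hx, if_pos hx]
      · rw [ind_of_not hx, if_neg hx]
    rw [sum_congr rfl (fun x _ => e0 x), sum_boole]
    have hc : ((univ : Finset (Fin h × Fin h)).filter (fun x => Rd x ω)).card ≤
        (univ : Finset (Fin T × Fin k)).card := by
      by_cases hemp : Nonempty (Fin T × Fin k)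
      · have hex : ∀ x : Fin h × Fin h, ∃ y : Fin T × Fin k, Rd x ω →
            ((((M.run ω (gBase n h) y.1).2 y.2).divNat : ℕ) = x.1 ∧
              (((M.run ω (gBase n h) y.1).2 y.2).modNat : ℕ) = h + x.2) ∨
            ((((M.run ω (gBase n h) y.1).2 y.2).modNat : ℕ) = x.1 ∧
              (((M.run ω (gBase n h) y.1).2 y.2).divNat : ℕ) = h + x.2) := by
          intro x
          by_cases hx : Rd x ω
          · obtain ⟨y, hy⟩ := hx
            exact ⟨y, fun _ => hy⟩
          · exact ⟨hemp.some, fun h => absurd h hx⟩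
        choose f hf using hex
        refine Finset.card_le_card_of_injOn f (fun _ _ => Finset.mem_coe.2 (mem_univ _)) ?_
        intro x hx x' hx' hxx
        have h1 := hf x (by simpa using hx)
        have h2 := hf x' (by simpa using hx')
        rw [hxx] at h1
        have a1 := x.1.2
        have a2 := x.2.2
        have a3 := x'.1.2
        have a4 := x'.2.2
        have : (x.1 : ℕ) = x'.1 ∧ (x.2 : ℕ) = x'.2 := by
          rcases h1 with h1 | h1 <;> rcases h2 with h2 | h2 <;> constructor <;> omega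
        exact Prod.ext (Fin.ext this.1) (Fin.ext this.2)
      · have : (univ : Finset (Fin h × Fin h)).filter (fun x => Rd x ω) = ∅ := by
          rw [Finset.eq_empty_iff_forall_notMem]
          intro x hx
          obtain ⟨y, _⟩ := (mem_filter.1 hx).2
          exact hemp ⟨y⟩
        rw [this]; simp
    rw [card_univ, Fintype.card_prod, Fintype.card_fin, Fintype.card_fin] at hc
    exact_mod_cast hc
  have htot : (h : ℝ) ^ 2 * (1 / 5) ≤ T * k := by
    calc (h : ℝ) ^ 2 * (1 / 5) = ∑ _x : Fin h × Fin h, (1 / 5 : ℝ) := by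
          rw [sum_const, card_univ, Fintype.card_prod, Fintype.card_fin, nsmul_eq_mul]
          push_cast; ring
      _ ≤ ∑ x : Fin h × Fin h, pr p (Rd x) := sum_le_sum (fun x _ => hRd x)
      _ = ∑ ω, p ω * ∑ x : Fin h × Fin h, ind (Rd x ω) := by
          unfold pr
          rw [sum_comm]
          refine sum_congr rfl (fun ω _ => ?_)
          rw [mul_sum]
      _ ≤ ∑ ω, p ω * (T * k) := sum_le_sum (fun ω _ => mul_le_mul_of_nonneg_left (hcount ω) (hp ω))
      _ = T * k := by rw [← sum_mul, hp1, one_mul]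
  have : (h : ℝ) ^ 2 ≤ 5 * (T * k) := by linarith
  exact_mod_cast this

end Pool.Agent.Lib_helper65.Rand
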