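import Mathlib
import Pool.Agent.Lib_helper65.Rand.RAvg
import Pool.Agent.Lib_helper65.Rand.RRead

/-!
# The choice of the parameters

Adapted from `Pool.Agent.Lib_helper21.SeqFinal`.
-/

namespace Pool.Agent.Lib_helper65.Rand

open Finset Real

noncomputable def EE (n : ℕ) : ℝ := Real.exp (4 * √(Real.log n))

lemma EE_pos (n : ℕ) : 0 < EE n := Real.exp_pos _

lemma one_le_EE (n : ℕ) : 1 ≤ EE n := by
  unfold EE
  rw [← Real.exp_zero]
  apply Real.exp_le_exp.2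
  positivity

lemma roth_ge {m n : ℕ} (hm : 1 ≤ m) (hmn : m ≤ n) : (m : ℝ) / EE n ≤ rothNumberNat m := by
  refine le_trans ?_ (Behrend.roth_lower_bound (N := m))
  rw [div_eq_mul_inv]
  apply mul_le_mul_of_nonneg_left _ (Nat.cast_nonneg m)
  unfold EE
  rw [← Real.exp_neg]
  apply Real.exp_le_exp.2
  have h1 : Real.log m ≤ Real.log n := Real.log_le_log (by exact_mod_cast hm) (by exact_mod_cast hmn)
  have h2 : √(Real.log m) ≤ √(Real.log n) := Real.sqrt_le_sqrt h1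
  linarith

lemma floor_half (a b : ℕ) (hb : 0 < b) (h : b ≤ a) : (a : ℝ) / (2 * b) ≤ ((a / b : ℕ) : ℝ) := by
  have h1 : 1 ≤ a / b := (Nat.one_le_div_iff hb).2 h
  have h2 : a < (a / b + 1) * b := by
    have := Nat.lt_div_mul_add (a := a) hb
    rw [Nat.add_mul, one_mul]; exact this
  have h3 : (a : ℝ) < (((a / b : ℕ) : ℝ) + 1) * b := by exact_mod_cast h2
  have h1' : (1 : ℝ) ≤ ((a / b : ℕ) : ℝ) := by exact_mod_cast h1
  have hb' : (0 : ℝ) < b := by exact_mod_cast hb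
  rw [div_le_iff₀ (by positivity)]
  nlinarith

/-- existence of the layout -/
lemma layout_exists (n g : ℕ) (hg : 1 ≤ g) (h24 : 24 * g ≤ n)
    (hv : 2 ^ 61 * EE n * (g : ℝ) ^ 2 ≤ (n : ℝ) ^ 2) :
    ∃ d : ℕ, ∃ L : Layout n (512 * d ^ 2) (2 ^ 20 * d), 1 ≤ d ∧ L.g = g ∧ L.w = n / (24 * g) ∧
      (g : ℝ) / EE n ≤ L.A.card ∧
      (n : ℝ) ^ 2 / (2 ^ 61 * EE n * (g : ℝ) ^ 2) ≤ 16 * (d : ℝ) ^ 4 ∧ (n : ℝ) / (48 * g) ≤ L.w := by
  set w := n / (24 * g) with hw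
  have hg0 : 0 < g := hg
  have hw1 : 1 ≤ w := (Nat.one_le_div_iff (by omega)).2 h24
  have hwn : w ≤ n := Nat.div_le_self _ _
  have hgn : g ≤ n := by omega
  obtain ⟨A, hAs, hAc, hAf⟩ := rothNumberNat_spec g
  obtain ⟨B, hBs, hBc, hBf⟩ := rothNumberNat_spec w
  have hE := EE_pos n
  have hwlow : (n : ℝ) / (48 * g) ≤ (w : ℝ) := by
    have := floor_half n (24 * g) (by omega) h24
    refine le_trans (le_of_eq ?_) this
    push_cast
    ring
  have hn0 : (0 : ℝ) < n := by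
    have : 0 < n := by omega
    exact_mod_cast this
  have hgr : (0 : ℝ) < g := by exact_mod_cast hg0
  have hrw : (w : ℝ) / EE n ≤ rothNumberNat w := roth_ge hw1 hwn
  have hprod : (n : ℝ) ^ 2 / (2304 * EE n * (g : ℝ) ^ 2) ≤ ((w * rothNumberNat w : ℕ) : ℝ) := by
    push_cast
    have h1 : (n : ℝ) ^ 2 / (2304 * EE n * (g : ℝ) ^ 2) = ((n : ℝ) / (48 * g)) * (((n : ℝ) / (48 * g)) / EE n) := by
      field_simp
      ring
    rw [h1]
    have h0 : (0 : ℝ) ≤ (n : ℝ) / (48 * g) := by positivity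
    apply mul_le_mul hwlow _ (by positivity) (by positivity)
    refine le_trans ?_ hrw
    exact div_le_div_of_nonneg_right hwlow hE.le
  set v : ℝ := (n : ℝ) ^ 2 / (2 ^ 61 * EE n * (g : ℝ) ^ 2) with hvd
  have hv1 : 1 ≤ v := by
    rw [hvd, le_div_iff₀ (by positivity), one_mul]
    exact hv
  set d := ⌊v ^ ((1 : ℝ) / 4)⌋₊ with hd
  have hy1 : 1 ≤ v ^ ((1 : ℝ) / 4) := Real.one_le_rpow hv1 (by norm_num)
  have h4 : (v ^ ((1 : ℝ) / 4)) ^ 4 = v := by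
    rw [← Real.rpow_natCast, ← Real.rpow_mul (by linarith)]
    norm_num
  have hd1 : 1 ≤ d := by
    rw [hd]
    exact Nat.le_floor (by exact_mod_cast hy1)
  have hd1r : (1 : ℝ) ≤ d := by exact_mod_cast hd1
  have hdle : (d : ℝ) ≤ v ^ ((1 : ℝ) / 4) := Nat.floor_le (by linarith)
  have hdlt : v ^ ((1 : ℝ) / 4) < 2 * d := by
    have := Nat.lt_floor_add_one (v ^ ((1 : ℝ) / 4))
    rw [← hd] at this
    linarith
  have hd4 : (d : ℝ) ^ 4 ≤ v := by
    rw [← h4]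
    exact pow_le_pow_left₀ (by linarith) hdle 4
  have hd4' : v ≤ 16 * (d : ℝ) ^ 4 := by
    have := pow_lt_pow_left₀ hdlt (by linarith) (n := 4) (by norm_num)
    rw [h4] at this
    calc v ≤ (2 * (d : ℝ)) ^ 4 := this.le
      _ = _ := by ring
  have hcells : 512 * d ^ 2 * ((2 ^ 20 * d) * (2 ^ 20 * d)) ≤ w * rothNumberNat w := by
    have h5 : ((512 * d ^ 2 * ((2 ^ 20 * d) * (2 ^ 20 * d)) : ℕ) : ℝ) ≤ ((w * rothNumberNat w : ℕ) : ℝ) := by
      refine le_trans ?_ hprod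
      have h6 : (n : ℝ) ^ 2 / (2304 * EE n * (g : ℝ) ^ 2) = (2 ^ 61 / 2304) * v := by
        rw [hvd]
        field_simp
      have e1 : ((512 * d ^ 2 * ((2 ^ 20 * d) * (2 ^ 20 * d)) : ℕ) : ℝ) = 2 ^ 49 * (d : ℝ) ^ 4 := by
        push_cast
        ring
      rw [h6, e1]
      calc 2 ^ 49 * (d : ℝ) ^ 4 ≤ 2 ^ 49 * v := by linarith
        _ ≤ (2 ^ 61 / 2304) * v := by
            apply mul_le_mul_of_nonneg_right _ (by linarith)
            norm_num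
    exact_mod_cast h5
  have hemb : Nonempty (Coord (512 * d ^ 2) (2 ^ 20 * d) ↪ (Fin w × B)) := by
    apply Function.Embedding.nonempty_of_card_le
    simp only [Fintype.card_prod, Fintype.card_fin, Fintype.card_coe, hBc]
    exact hcells
  refine ⟨d, ⟨g, w, A, B, fun a ha => Finset.mem_range.1 (hAs ha), fun b hb => Finset.mem_range.1 (hBs hb),
    hAf, hBf, ?_, hemb.some⟩, hd1, rfl, rfl, ?_, hd4', hwlow⟩
  · have := Nat.mul_div_le n (24 * g)
    rw [← hw] at this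
    exact this
  · show (g : ℝ) / EE n ≤ A.card
    rw [hAc]
    exact roth_ge hg hgn

lemma beta_bound {n k S N cq : ℕ} (hn : 2 ≤ n) (hk : 1 ≤ k) (hN : N ≤ n ^ 3) (hcq : cq ≤ 2 ^ S) :
    ((3 * N * (cq * (n * n) ^ k) ^ 2 + 1 : ℕ) : ℝ) ≤
      (2 : ℝ) ^ (10 * Real.logb 2 n * ((S : ℝ) + k)) := by
  have hn0 : (0 : ℝ) < n := by
    have : 0 < n := by omega
    exact_mod_cast this
  have hℓ : 1 ≤ Real.logb 2 n := by
    rw [Real.le_logb_iff_rpow_le (by norm_num) hn0, Real.rpow_one]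
    exact_mod_cast hn
  have h1 : 3 * N * (cq * (n * n) ^ k) ^ 2 + 1 ≤ n ^ (5 + 4 * k) * 2 ^ (2 * S) := by
    have e1 : (cq * (n * n) ^ k) ^ 2 ≤ (2 ^ S * (n * n) ^ k) ^ 2 :=
      Nat.pow_le_pow_left (Nat.mul_le_mul_right _ hcq) 2
    have e2 : (2 ^ S * (n * n) ^ k) ^ 2 = n ^ (4 * k) * 2 ^ (2 * S) := by
      rw [mul_pow, ← pow_mul, ← sq, ← pow_mul, ← pow_mul]
      ring
    have e3 : 1 ≤ n ^ 3 * (n ^ (4 * k) * 2 ^ (2 * S)) := by
      apply Nat.one_le_iff_ne_zero.2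
      positivity
    calc 3 * N * (cq * (n * n) ^ k) ^ 2 + 1 ≤ 3 * n ^ 3 * (n ^ (4 * k) * 2 ^ (2 * S)) + 1 := by
          rw [← e2]
          gcongr
      _ ≤ 3 * n ^ 3 * (n ^ (4 * k) * 2 ^ (2 * S)) + n ^ 3 * (n ^ (4 * k) * 2 ^ (2 * S)) := by omega
      _ = 4 * (n ^ 3 * (n ^ (4 * k) * 2 ^ (2 * S))) := by ring
      _ ≤ n ^ 2 * (n ^ 3 * (n ^ (4 * k) * 2 ^ (2 * S))) := by
          apply Nat.mul_le_mul_right
          nlinarith
      _ = _ := by ring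
  have h2 : ((3 * N * (cq * (n * n) ^ k) ^ 2 + 1 : ℕ) : ℝ) ≤ ((n ^ (5 + 4 * k) * 2 ^ (2 * S) : ℕ) : ℝ) := by
    exact_mod_cast h1
  refine h2.trans ?_
  have h3 : (n : ℝ) = (2 : ℝ) ^ (Real.logb 2 n) := (Real.rpow_logb (by norm_num) (by norm_num) hn0).symm
  have h4 : ((n ^ (5 + 4 * k) * 2 ^ (2 * S) : ℕ) : ℝ) =
      (2 : ℝ) ^ (Real.logb 2 n * (5 + 4 * k) + 2 * S) := by
    push_cast
    rw [Real.rpow_add (by norm_num), Real.rpow_mul (by norm_num), ← h3]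
    congr 1
    · rw [← Real.rpow_natCast]
      push_cast
      rfl
    · rw [← Real.rpow_natCast]
      push_cast
      rfl
  rw [h4]
  apply Real.rpow_le_rpow_of_exponent_le (by norm_num)
  have hk' : (1 : ℝ) ≤ k := by exact_mod_cast hk
  have hS : (0 : ℝ) ≤ S := Nat.cast_nonneg S
  nlinarith [mul_nonneg (sub_nonneg.2 hℓ) hS]

/-- the main finite inequality -/
theorem main_finite (n : ℕ) (hn : 2 ^ 20 ≤ n)
    (hslack2 : (2 ^ 31 * EE n) ^ 9 ≤ (n : ℝ) ^ 4)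
    (k S T : ℕ) (hk : 1 ≤ k) (Q Ω : Type) [Fintype Q] [Fintype Ω] (hQ : Fintype.card Q ≤ 2 ^ S)
    (M : RMachine n k Q Ω) (p : Ω → ℝ) (hp : ∀ ω, 0 ≤ p ω) (hp1 : ∑ ω, p ω = 1)
    (hM : Succ35 M p T) :
    (n : ℝ) ^ 7 ≤ (T : ℝ) ^ 3 * (k : ℝ) ^ 4 * ((S : ℝ) + k) ^ 2 * (2 ^ 84 * Real.logb 2 n ^ 2 * EE n ^ 2) := by
  by_contra hcon
  push Not at hcon
  set E := EE n with hE
  set ℓ := Real.logb 2 n with hℓd
  set s : ℝ := (S : ℝ) + k with hs
  set F : ℝ := 2 ^ 84 * ℓ ^ 2 * E ^ 2 with hF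
  have hE1 : 1 ≤ E := one_le_EE n
  have hE0 : 0 < E := EE_pos n
  have hn1 : (1 : ℝ) ≤ n := by
    have : 1 ≤ n := by omega
    exact_mod_cast this
  have hn0 : (0 : ℝ) < n := by linarith
  have hn20 : (2 ^ 20 : ℝ) ≤ n := by exact_mod_cast hn
  have hℓ1 : 1 ≤ ℓ := by
    rw [hℓd, Real.le_logb_iff_rpow_le (by norm_num) hn0, Real.rpow_one]
    have : 2 ≤ n := by omega
    exact_mod_cast this
  have hℓ0 : 0 < ℓ := by linarith
  have hkr : (1 : ℝ) ≤ k := by exact_mod_cast hk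
  have hk0 : (0 : ℝ) < k := by linarith
  have hs0 : 0 < s := by rw [hs]; positivity
  have hks : (k : ℝ) ≤ s := by rw [hs]; linarith [Nat.cast_nonneg (α := ℝ) S]
  have hs1 : (1 : ℝ) ≤ s := by linarith
  have hT0 : (0 : ℝ) ≤ T := Nat.cast_nonneg T
  have hF1 : 1 ≤ F := by
    have h1 : 1 ≤ E ^ 2 := one_le_pow₀ hE1
    have h2 : 1 ≤ ℓ ^ 2 := one_le_pow₀ hℓ1
    rw [hF]
    nlinarith [mul_le_mul h2 h1 (by norm_num) (by positivity)]
  set b : ℝ := 10 * ℓ * s with hb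
  have hb0 : 0 < b := by rw [hb]; positivity
  have hb10 : 10 ≤ b := by
    rw [hb]
    nlinarith [mul_le_mul hℓ1 hs1 (by norm_num) (by linarith)]
  -- the read bound
  have hread : (n : ℝ) ^ 2 ≤ 125 * (T * k) := by
    have h1 := read_bound M p hp hp1 hM
    have h2 : (((n / 4 : ℕ) : ℝ)) ^ 2 ≤ 5 * (T * k) := by exact_mod_cast h1
    have h3 : (n : ℝ) / 5 ≤ ((n / 4 : ℕ) : ℝ) := by
      have h4 : n ≤ 5 * (n / 4) := by omega
      have h5 : (n : ℝ) ≤ 5 * ((n / 4 : ℕ) : ℝ) := by exact_mod_cast h4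
      linarith
    have h4 : ((n : ℝ) / 5) ^ 2 ≤ (((n / 4 : ℕ) : ℝ)) ^ 2 := pow_le_pow_left₀ (by positivity) h3 2
    have h5 : (n : ℝ) ^ 2 = 25 * ((n : ℝ) / 5) ^ 2 := by ring
    linarith
  have hTpos : (0 : ℝ) < T := by
    by_contra hneg
    have : (T : ℝ) = 0 := le_antisymm (not_lt.1 hneg) hT0
    rw [this] at hread
    nlinarith
  -- the number of blocks
  set A : ℝ := 19200 * E * (k : ℝ) ^ 2 * T / (n : ℝ) ^ 2 with hA
  have hA0 : 0 < A := by rw [hA]; positivity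
  have hA1 : 150 * E * k ≤ A := by
    rw [hA, le_div_iff₀ (by positivity)]
    have h1 : E * k * (n : ℝ) ^ 2 ≤ E * k * (125 * (T * k)) :=
      mul_le_mul_of_nonneg_left hread (by positivity)
    have h2 : 0 ≤ E * k * T * k := by positivity
    nlinarith
  have hEk : 1 ≤ E * k := by nlinarith
  have hA2 : 1 ≤ A := by nlinarith
  set g : ℕ := ⌈A⌉₊ with hg
  have hgA : A ≤ g := Nat.le_ceil A
  have hgA2 : (g : ℝ) ≤ 2 * A := by
    have := Nat.ceil_lt_add_one hA0.le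
    rw [← hg] at this
    linarith
  have hgr1 : (1 : ℝ) ≤ g := hA2.trans hgA
  have hg0 : (0 : ℝ) < g := by linarith
  have hg1 : 1 ≤ g := by exact_mod_cast hgr1
  have hgup : (g : ℝ) * (n : ℝ) ^ 2 ≤ 2 ^ 16 * E * (k : ℝ) ^ 2 * T := by
    have h1 : (g : ℝ) * (n : ℝ) ^ 2 ≤ 2 * A * (n : ℝ) ^ 2 := mul_le_mul_of_nonneg_right hgA2 (by positivity)
    have h2 : 2 * A * (n : ℝ) ^ 2 = 38400 * (E * (k : ℝ) ^ 2 * T) := by
      rw [hA]
      field_simp
      ring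
    have h3 : 0 ≤ E * (k : ℝ) ^ 2 * T := by positivity
    nlinarith
  -- consequences of the negated inequality
  have hkT : ((k : ℝ) ^ 2 * T) ^ 3 < (n : ℝ) ^ 7 := by
    refine lt_of_le_of_lt ?_ hcon
    calc ((k : ℝ) ^ 2 * T) ^ 3 = (T : ℝ) ^ 3 * (k : ℝ) ^ 4 * (k : ℝ) ^ 2 * 1 := by ring
      _ ≤ (T : ℝ) ^ 3 * (k : ℝ) ^ 4 * s ^ 2 * F := by
          apply mul_le_mul _ hF1 (by norm_num) (by positivity)
          apply mul_le_mul_of_nonneg_left _ (by positivity)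
          exact pow_le_pow_left₀ hk0.le hks 2
  have hv : 2 ^ 61 * E * (g : ℝ) ^ 2 ≤ (n : ℝ) ^ 2 := by
    -- multiply by n^4
    have h1 : 2 ^ 61 * E * (g : ℝ) ^ 2 * (n : ℝ) ^ 4 ≤ 2 ^ 93 * E ^ 3 * ((k : ℝ) ^ 2 * T) ^ 2 := by
      calc 2 ^ 61 * E * (g : ℝ) ^ 2 * (n : ℝ) ^ 4 = 2 ^ 61 * E * ((g : ℝ) * (n : ℝ) ^ 2) ^ 2 := by ring
        _ ≤ 2 ^ 61 * E * (2 ^ 16 * E * (k : ℝ) ^ 2 * T) ^ 2 := by
            apply mul_le_mul_of_nonneg_left _ (by positivity)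
            exact pow_le_pow_left₀ (by positivity) hgup 2
        _ = _ := by ring
    have h2 : (2 ^ 93 * E ^ 3 * ((k : ℝ) ^ 2 * T) ^ 2) ^ 3 ≤ ((n : ℝ) ^ 6) ^ 3 := by
      calc (2 ^ 93 * E ^ 3 * ((k : ℝ) ^ 2 * T) ^ 2) ^ 3
          = (2 ^ 31 * E) ^ 9 * (((k : ℝ) ^ 2 * T) ^ 3) ^ 2 := by ring
        _ ≤ (n : ℝ) ^ 4 * ((n : ℝ) ^ 7) ^ 2 := by
            apply mul_le_mul hslack2 _ (by positivity) (by positivity)
            exact pow_le_pow_left₀ (by positivity) hkT.le 2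
        _ = _ := by ring
    have h3 : 2 ^ 93 * E ^ 3 * ((k : ℝ) ^ 2 * T) ^ 2 ≤ (n : ℝ) ^ 6 :=
      le_of_pow_le_pow_left₀ (by norm_num) (by positivity) h2
    have h4 : 2 ^ 61 * E * (g : ℝ) ^ 2 * (n : ℝ) ^ 4 ≤ (n : ℝ) ^ 2 * (n : ℝ) ^ 4 := by
      calc _ ≤ _ := h1.trans h3
        _ = _ := by ring
    exact le_of_mul_le_mul_right h4 (by positivity)
  have h24 : 24 * g ≤ n := by
    have h1 : (24 * (g : ℝ)) ^ 2 ≤ (n : ℝ) ^ 2 := by
      refine le_trans ?_ hv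
      have : 0 ≤ (E - 1) * (g : ℝ) ^ 2 := mul_nonneg (by linarith) (by positivity)
      nlinarith [sq_nonneg (g : ℝ)]
    have h2 : 24 * (g : ℝ) ≤ n := le_of_pow_le_pow_left₀ (by norm_num) (by positivity) h1
    exact_mod_cast h2
  obtain ⟨d, L, hd1, hLg, hLw, hLA, hLd, hLw2⟩ := layout_exists n g hg1 h24 hv
  rw [← hE] at hLA hLd
  have hw1 : 1 ≤ L.w := by
    rw [hLw]
    exact (Nat.one_le_div_iff (by omega)).2 h24
  have hwr : (0 : ℝ) < L.w := by exact_mod_cast hw1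
  set N : ℕ := T / (L.w * n) + 1 with hN
  have hnpos : 0 < n := by omega
  have hwn : 0 < L.w * n := Nat.mul_pos hw1 hnpos
  have hNT : T ≤ N * (L.w * n) := by
    have := Nat.lt_div_mul_add (a := T) hwn
    rw [hN, Nat.add_mul, one_mul]
    exact this.le
  have hNr : (N : ℝ) ≤ 49 * g * T / (n : ℝ) ^ 2 := by
    rw [hN]
    push_cast
    have h1 : ((T / (L.w * n) : ℕ) : ℝ) ≤ (T : ℝ) / ((L.w * n : ℕ) : ℝ) := Nat.cast_div_le
    have h2 : (T : ℝ) / ((L.w * n : ℕ) : ℝ) ≤ 48 * g * T / (n : ℝ) ^ 2 := by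
      push_cast
      rw [div_le_div_iff₀ (by positivity) (by positivity)]
      have h3 : (n : ℝ) ≤ 48 * g * L.w := by
        rw [div_le_iff₀ (by positivity)] at hLw2
        linarith
      calc (T : ℝ) * (n : ℝ) ^ 2 = (T * n) * n := by ring
        _ ≤ (T * n) * (48 * g * L.w) := mul_le_mul_of_nonneg_left h3 (by positivity)
        _ = _ := by ring
    have h3 : 1 ≤ g * T / (n : ℝ) ^ 2 := by
      rw [le_div_iff₀ (by positivity), one_mul]
      have h4 : 150 * (k : ℝ) ≤ g := by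
        have : 150 * (k : ℝ) ≤ 150 * E * k := by nlinarith
        linarith
      calc (n : ℝ) ^ 2 ≤ 125 * (T * k) := hread
        _ ≤ 150 * k * T := by nlinarith
        _ ≤ g * T := mul_le_mul_of_nonneg_right h4 hT0
    have e : 49 * g * T / (n : ℝ) ^ 2 = 48 * g * T / (n : ℝ) ^ 2 + g * T / (n : ℝ) ^ 2 := by ring
    rw [e]
    linarith
  -- hypothesis 1
  have hh1 : 200 * (N * k ^ 2) ≤ L.g * L.A.card := by
    have hr : (200 : ℝ) * (N * (k : ℝ) ^ 2) ≤ g * ((g : ℝ) / E) := by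
      have e1 : (200 : ℝ) * (N * (k : ℝ) ^ 2) ≤ 200 * ((49 * g * T / (n : ℝ) ^ 2) * (k : ℝ) ^ 2) := by
        apply mul_le_mul_of_nonneg_left _ (by norm_num)
        exact mul_le_mul_of_nonneg_right hNr (by positivity)
      refine e1.trans ?_
      have e2 : 200 * ((49 * g * T / (n : ℝ) ^ 2) * (k : ℝ) ^ 2) = (g / E) * (9800 * E * (k : ℝ) ^ 2 * T / (n : ℝ) ^ 2) := by
        field_simp
        ring
      rw [e2, mul_comm (g : ℝ) ((g : ℝ) / E)]
      apply mul_le_mul_of_nonneg_left _ (by positivity)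
      refine le_trans ?_ hgA
      rw [hA]
      apply div_le_div_of_nonneg_right _ (by positivity)
      have : 0 ≤ E * (k : ℝ) ^ 2 * T := by positivity
      nlinarith
    have hr2 : (g : ℝ) * ((g : ℝ) / E) ≤ (L.g : ℝ) * L.A.card := by
      rw [hLg]
      exact mul_le_mul_of_nonneg_left hLA hg0.le
    exact_mod_cast hr.trans hr2
  set c : ℕ := 200 * (N * k) / g with hc
  have hh2 : 200 * (N * k) ≤ (c + 1) * L.g := by
    rw [hLg, hc]
    have := Nat.lt_div_mul_add (a := 200 * (N * k)) (b := g) hg1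
    calc 200 * (N * k) ≤ 200 * (N * k) / g * g + g := this.le
      _ = (200 * (N * k) / g + 1) * g := by ring
  have hA0' : 0 < L.A.card := by
    have : (0 : ℝ) < L.A.card := lt_of_lt_of_le (by positivity) hLA
    exact_mod_cast this
  have : Nonempty L.Tau := by
    obtain ⟨a, ha⟩ := Finset.card_pos.1 hA0'
    exact ⟨⟨⟨0, by rw [hLg]; omega⟩, ⟨a, ha⟩⟩⟩
  have hsim := sim_bound L M p (T := T) (N := N) (c := c) hd1 rfl rfl hp hp1 hM hNT hh1 hh2
  -- N ≤ n ^ 3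
  have hTn : T < n ^ 3 := by
    have h1 : (T : ℝ) ^ 3 < ((n : ℝ) ^ 3) ^ 3 := by
      have h2 : (T : ℝ) ^ 3 ≤ ((k : ℝ) ^ 2 * T) ^ 3 := by
        apply pow_le_pow_left₀ hT0
        have : 1 ≤ (k : ℝ) ^ 2 := one_le_pow₀ hkr
        nlinarith
      have h3 : (n : ℝ) ^ 7 ≤ ((n : ℝ) ^ 3) ^ 3 := by
        rw [← pow_mul]
        exact pow_le_pow_right₀ hn1 (by norm_num)
      linarith
    have h2 : (T : ℝ) < (n : ℝ) ^ 3 := lt_of_pow_lt_pow_left₀ 3 (by positivity) h1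
    exact_mod_cast h2
  have hNn : N ≤ n ^ 3 := by
    rw [hN]
    have : T / (L.w * n) ≤ T := Nat.div_le_self _ _
    omega
  have hbeta := beta_bound (n := n) (k := k) (S := S) (N := N) (cq := Fintype.card Q) (by omega) hk hNn hQ
  have hpow : (2 : ℝ) ^ (d : ℝ) ≤ (2 : ℝ) ^ (5 + b * c) := by
    have h1 : ((2 ^ d : ℕ) : ℝ) ≤ ((20 * (3 * N * (Fintype.card Q * (n * n) ^ k) ^ 2 + 1) ^ c : ℕ) : ℝ) := by
      exact_mod_cast hsim
    rw [Real.rpow_natCast]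
    push_cast at h1
    refine h1.trans ?_
    rw [Real.rpow_add (by norm_num), Real.rpow_mul (by norm_num), Real.rpow_natCast]
    apply mul_le_mul _ _ (by positivity) (by positivity)
    · norm_num
    · apply pow_le_pow_left₀ (by positivity)
      have h2 := hbeta
      push_cast at h2
      rw [hb, hs]
      exact h2
  have hdle : (d : ℝ) ≤ 5 + b * c := by
    exact (Real.rpow_le_rpow_left_iff (by norm_num)).1 hpow
  have hcr : (c : ℝ) ≤ 9800 * k * T / (n : ℝ) ^ 2 := by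
    rw [hc]
    refine (Nat.cast_div_le).trans ?_
    push_cast
    rw [div_le_iff₀ hg0]
    calc 200 * ((N : ℝ) * k) ≤ 200 * ((49 * g * T / (n : ℝ) ^ 2) * k) := by
          apply mul_le_mul_of_nonneg_left _ (by norm_num)
          exact mul_le_mul_of_nonneg_right hNr hk0.le
      _ = _ := by ring
  have hdle2 : (d : ℝ) * (n : ℝ) ^ 2 ≤ 2 ^ 14 * (b * k * T) := by
    have h1 : (c : ℝ) * (n : ℝ) ^ 2 ≤ 9800 * k * T := by
      rwa [le_div_iff₀ (by positivity)] at hcr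
    have h2 : (d : ℝ) * (n : ℝ) ^ 2 ≤ (5 + b * c) * (n : ℝ) ^ 2 :=
      mul_le_mul_of_nonneg_right hdle (by positivity)
    have h3 : b * (c * (n : ℝ) ^ 2) ≤ b * (9800 * k * T) := mul_le_mul_of_nonneg_left h1 hb0.le
    have h4 : 5 * (n : ℝ) ^ 2 ≤ 63 * (b * (T * k)) := by
      have h5 : 10 * (T * (k : ℝ)) ≤ b * (T * k) := mul_le_mul_of_nonneg_right hb10 (by positivity)
      have h7 : 0 ≤ b * (T * k) := by positivity
      linarith
    have h6 : 0 ≤ b * k * T := by positivity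
    have e1 : (5 + b * c) * (n : ℝ) ^ 2 = 5 * (n : ℝ) ^ 2 + b * (c * (n : ℝ) ^ 2) := by ring
    have e2 : b * (9800 * k * T) = 9800 * (b * k * T) := by ring
    have e3 : b * (T * k) = b * k * T := by ring
    rw [e1] at h2
    rw [e2] at h3
    rw [e3] at h4
    linarith
  -- the final contradiction
  have hfin1 : (n : ℝ) ^ 14 ≤ 2 ^ 153 * E ^ 3 * b ^ 4 * (k : ℝ) ^ 8 * (T : ℝ) ^ 6 := by
    rw [div_le_iff₀ (by positivity)] at hLd
    calc (n : ℝ) ^ 14 = (n : ℝ) ^ 2 * (n : ℝ) ^ 12 := by ring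
      _ ≤ (16 * (d : ℝ) ^ 4 * (2 ^ 61 * E * (g : ℝ) ^ 2)) * (n : ℝ) ^ 12 :=
          mul_le_mul_of_nonneg_right hLd (by positivity)
      _ = 2 ^ 65 * E * (((d : ℝ) * (n : ℝ) ^ 2) ^ 4 * ((g : ℝ) * (n : ℝ) ^ 2) ^ 2) := by ring
      _ ≤ 2 ^ 65 * E * ((2 ^ 14 * (b * k * T)) ^ 4 * (2 ^ 16 * E * (k : ℝ) ^ 2 * T) ^ 2) := by
          apply mul_le_mul_of_nonneg_left _ (by positivity)
          apply mul_le_mul _ _ (by positivity) (by positivity)
          · exact pow_le_pow_left₀ (by positivity) hdle2 4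
          · exact pow_le_pow_left₀ (by positivity) hgup 2
      _ = _ := by ring
  have hsq : ((T : ℝ) ^ 3 * (k : ℝ) ^ 4 * s ^ 2 * F) ^ 2 < ((n : ℝ) ^ 7) ^ 2 :=
    pow_lt_pow_left₀ hcon (by positivity) (by norm_num)
  have hX : 0 < (T : ℝ) ^ 6 * (k : ℝ) ^ 8 * s ^ 4 * ℓ ^ 4 * E ^ 3 := by positivity
  have h9 : ((T : ℝ) ^ 3 * (k : ℝ) ^ 4 * s ^ 2 * F) ^ 2 =
      2 ^ 168 * E * ((T : ℝ) ^ 6 * (k : ℝ) ^ 8 * s ^ 4 * ℓ ^ 4 * E ^ 3) := by
    rw [hF]; ring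
  have h10 : 2 ^ 153 * E ^ 3 * b ^ 4 * (k : ℝ) ^ 8 * (T : ℝ) ^ 6 =
      2 ^ 153 * 10 ^ 4 * ((T : ℝ) ^ 6 * (k : ℝ) ^ 8 * s ^ 4 * ℓ ^ 4 * E ^ 3) := by
    rw [hb]; ring
  have h11 : ((n : ℝ) ^ 7) ^ 2 = (n : ℝ) ^ 14 := by ring
  rw [h9, h11] at hsq
  rw [h10] at hfin1
  set X := (T : ℝ) ^ 6 * (k : ℝ) ^ 8 * s ^ 4 * ℓ ^ 4 * E ^ 3 with hXd
  have h12 : 2 ^ 168 * 1 * X ≤ 2 ^ 168 * E * X := by
    apply mul_le_mul_of_nonneg_right _ hX.le
    linarith
  have h13 : (2 : ℝ) ^ 168 * 1 * X < 2 ^ 153 * 10 ^ 4 * X := by linarith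
  have h14 : (2 : ℝ) ^ 153 * 10 ^ 4 * X ≤ 2 ^ 168 * 1 * X := by
    apply mul_le_mul_of_nonneg_right _ hX.le
    norm_num
  linarith

/-- `n ^ (2 ε)` dominates the losses -/
lemma slack (ε : ℝ) (hε : 0 < ε) : ∃ n0 : ℕ, ∀ n ≥ n0, 2 ^ 20 ≤ n ∧
    5832 * (2 ^ 84 * Real.logb 2 n ^ 2 * EE n ^ 2) ≤ (n : ℝ) ^ ε ∧ (2 ^ 31 * EE n) ^ 9 ≤ (n : ℝ) ^ 4 := by
  set Y : ℝ := max (200 / ε) 300 with hY
  refine ⟨⌈Real.exp (Y ^ 2)⌉₊ + 2 ^ 20, fun n hn => ?_⟩
  have hn20 : 2 ^ 20 ≤ n := by omega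
  have hnpos : (0 : ℝ) < n := by
    have : 0 < n := by omega
    exact_mod_cast this
  have hnexp : Real.exp (Y ^ 2) ≤ n := by
    refine (Nat.le_ceil _).trans ?_
    have : ⌈Real.exp (Y ^ 2)⌉₊ ≤ n := by omega
    exact_mod_cast this
  have hlog : Y ^ 2 ≤ Real.log n := by
    rw [Real.le_log_iff_exp_le hnpos]
    exact hnexp
  have hY56 : (300 : ℝ) ≤ Y := le_max_right _ _
  have hYε : 200 / ε ≤ Y := le_max_left _ _
  set y : ℝ := √(Real.log n) with hy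
  have hlog0 : 0 ≤ Real.log n := le_trans (sq_nonneg _) hlog
  have hyy : y ^ 2 = Real.log n := Real.sq_sqrt hlog0
  have hyY : Y ≤ y := by
    rw [hy]
    exact Real.le_sqrt_of_sq_le hlog
  have hy56 : 300 ≤ y := hY56.trans hyY
  have hyε : 200 ≤ ε * y := by
    have := hYε.trans hyY
    rw [div_le_iff₀ hε] at this
    linarith
  have hE : EE n = Real.exp (4 * y) := rfl
  have hpow : (n : ℝ) ^ ε = Real.exp (ε * y ^ 2) := by
    rw [Real.rpow_def_of_pos hnpos, hyy, mul_comm]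
  have hn4 : (n : ℝ) ^ 4 = Real.exp (4 * y ^ 2) := by
    rw [hyy, mul_comm, Real.exp_mul, Real.exp_log hnpos]
    norm_num
  have two_le : (2 : ℝ) ≤ Real.exp 1 := by
    have := Real.add_one_le_exp (1 : ℝ)
    linarith
  refine ⟨hn20, ?_, ?_⟩
  · rw [hpow, hE]
    have hlb : Real.logb 2 n ≤ 2 * Real.exp (2 * y) := by
      rw [Real.logb, ← hyy, div_le_iff₀ (Real.log_pos (by norm_num))]
      have h1 : y ≤ Real.exp y := by linarith [Real.add_one_le_exp y]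
      have h2 : y ^ 2 ≤ Real.exp (2 * y) := by
        have := pow_le_pow_left₀ (by linarith) h1 2
        rwa [← Real.exp_nat_mul] at this
      have h3 : (0.5 : ℝ) ≤ Real.log 2 := by linarith [Real.log_two_gt_d9]
      nlinarith [Real.exp_pos (2 * y)]
    have hlb0 : 0 ≤ Real.logb 2 n := by
      apply Real.logb_nonneg (by norm_num)
      have : 1 ≤ n := by omega
      exact_mod_cast this
    calc 5832 * (2 ^ 84 * Real.logb 2 n ^ 2 * Real.exp (4 * y) ^ 2)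
        ≤ 5832 * (2 ^ 84 * (2 * Real.exp (2 * y)) ^ 2 * Real.exp (4 * y) ^ 2) := by
          gcongr
      _ = 5832 * 2 ^ 86 * Real.exp (12 * y) := by
          have e1 : Real.exp (4 * y) ^ 2 = Real.exp (8 * y) := by
            rw [← Real.exp_nat_mul]
            congr 1
            push_cast
            ring
          have e3 : Real.exp (2 * y) ^ 2 = Real.exp (4 * y) := by
            rw [← Real.exp_nat_mul]
            congr 1
            push_cast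
            ring
          have e2 : Real.exp (12 * y) = Real.exp (4 * y) * Real.exp (8 * y) := by
            rw [← Real.exp_add]
            congr 1
            ring
          rw [mul_pow, e1, e2, e3]
          ring
      _ ≤ 2 ^ 99 * Real.exp (12 * y) := by
          apply mul_le_mul_of_nonneg_right _ (Real.exp_pos _).le
          norm_num
      _ ≤ Real.exp 1 ^ 99 * Real.exp (12 * y) := by
          gcongr
      _ = Real.exp (99 + 12 * y) := by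
          rw [← Real.exp_nat_mul, ← Real.exp_add]
          norm_num
      _ ≤ Real.exp (ε * y ^ 2) := by
          apply Real.exp_le_exp.2
          nlinarith
  · rw [hn4, hE]
    calc (2 ^ 31 * Real.exp (4 * y)) ^ 9 = 2 ^ 279 * Real.exp (36 * y) := by
          rw [mul_pow, ← Real.exp_nat_mul, ← pow_mul]
          congr 1
          congr 1
          push_cast
          ring
      _ ≤ Real.exp 1 ^ 279 * Real.exp (36 * y) := by gcongr
      _ = Real.exp (279 + 36 * y) := by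
          rw [← Real.exp_nat_mul, ← Real.exp_add]
          norm_num
      _ ≤ Real.exp (4 * y ^ 2) := by
          apply Real.exp_le_exp.2
          nlinarith

end Pool.Agent.Lib_helper65.Rand
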