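import Mathlib
import Pool.Agent.Lib_helper65.Rand.RFinal

/-!
# From arbitrary random seeds to finitely many
-/

namespace Pool.Agent.Lib_helper65.Rand

open Finset MeasureTheory

section reduce

variable {n k : ℕ} {Q Ω : Type} [Fintype Q] [MeasurableSpace Ω]

lemma measurable_conf {M : RMachine n k Q Ω}
    (hM : ∀ (G : SimpleGraph (Fin n)) (t : ℕ) (c : Conf n k Q), MeasurableSet {ω | M.run ω G t = c})
    (G : SimpleGraph (Fin n)) (t : ℕ) (P : Conf n k Q → Prop) : MeasurableSet {ω | P (M.run ω G t)} := by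
  have e : {ω | P (M.run ω G t)} = ⋃ c ∈ {c | P c}, {ω | M.run ω G t = c} := by
    ext ω
    simp
  rw [e]
  exact MeasurableSet.biUnion (Set.to_countable _) (fun c _ => hM G t c)

omit [Fintype Q] [MeasurableSpace Ω] in
/-- a machine that has answered stays where it is -/
lemma run_of_isSome (M : RMachine n k Q Ω) (ω : Ω) (G : SimpleGraph (Fin n)) (t : ℕ)
    (h : (M.answer (M.run ω G t)).isSome) (m : ℕ) : M.run ω G (t + m) = M.run ω G t := by
  induction m with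
  | zero => rfl
  | succ m ih =>
    have h1 : M.run ω G (t + (m + 1)) = if (M.answer (M.run ω G (t + m))).isSome then M.run ω G (t + m)
        else M.step ω (t + m) (M.run ω G (t + m)) (scan G (M.run ω G (t + m)).2) := rfl
    rw [h1, ih, if_pos h]

omit [Fintype Q] [MeasurableSpace Ω] in
lemma run_of_isSome' (M : RMachine n k Q Ω) (ω : Ω) (G : SimpleGraph (Fin n)) {t m : ℕ} (htm : t ≤ m)
    (h : (M.answer (M.run ω G t)).isSome) : M.run ω G m = M.run ω G t := by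
  obtain ⟨j, rfl⟩ := Nat.exists_eq_add_of_le htm
  exact run_of_isSome M ω G t h j

variable (μ : Measure Ω) [IsProbabilityMeasure μ]

/-- Markov's inequality for the running time -/
lemma none_le {M : RMachine n k Q Ω} {T : ℝ} (hT : M.ExpectedTimeLE μ T) (G : SimpleGraph (Fin n))
    (m : ℕ) : (m : ℝ) * μ.real {ω | M.answer (M.run ω G m) = none} ≤ T := by
  refine le_trans ?_ (hT G m)
  have h1 : ∀ t ∈ range m, μ.real {ω | M.answer (M.run ω G m) = none} ≤
      μ.real {ω | M.answer (M.run ω G t) = none} := by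
    intro t ht
    refine measureReal_mono (fun ω hω => ?_)
    simp only [Set.mem_setOf_eq] at hω ⊢
    by_contra hne
    have h2 : (M.answer (M.run ω G t)).isSome := by
      rw [Option.isSome_iff_ne_none]
      exact hne
    rw [run_of_isSome' M ω G (Finset.mem_range.1 ht).le h2] at hω
    exact hne hω
  have h2 := sum_le_sum h1
  rw [sum_const, card_range, nsmul_eq_mul] at h2
  exact h2

/-- success at time `m` -/
lemma success_at {M : RMachine n k Q Ω} {T : ℝ} (hM : M.DetectsTriangles μ) (hT : M.ExpectedTimeLE μ T)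
    (G : SimpleGraph (Fin n)) (m : ℕ) (hm : 15 * T ≤ m) (hT0 : 0 < T) :
    3 / 5 ≤ μ.real {ω | ∃ b, M.answer (M.run ω G m) = some b ∧ Correct G b} := by
  have h1 := none_le μ hT G m
  have hm0 : (0 : ℝ) < m := by linarith
  have h2 : μ.real {ω | M.answer (M.run ω G m) = none} ≤ 1 / 15 := by
    have h3 : (m : ℝ) * μ.real {ω | M.answer (M.run ω G m) = none} ≤ m * (1 / 15) := by linarith
    exact le_of_mul_le_mul_left h3 hm0
  have h3 : {ω | ∃ t b, M.answer (M.run ω G t) = some b ∧ Correct G b} ⊆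
      {ω | ∃ b, M.answer (M.run ω G m) = some b ∧ Correct G b} ∪
        {ω | M.answer (M.run ω G m) = none} := by
    rintro ω ⟨t, b, hb, hc⟩
    by_cases hn : M.answer (M.run ω G m) = none
    · exact Or.inr hn
    · left
      refine ⟨b, ?_, hc⟩
      rcases le_total t m with h | h
      · rw [run_of_isSome' M ω G h (by rw [hb]; rfl)]
        exact hb
      · rw [← run_of_isSome' M ω G h (Option.isSome_iff_ne_none.2 hn)]
        exact hb
  have h4 := (measureReal_mono h3 (μ := μ)).trans (measureReal_union_le _ _)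
  have h5 := hM.2 G
  linarith

/-- the expected time cannot be below `1 / 3` -/
lemma time_ge {M : RMachine n k Q Ω} {T : ℝ} (hn : 3 ≤ n) (hM : M.DetectsTriangles μ)
    (hT : M.ExpectedTimeLE μ T) : 1 / 3 ≤ T := by
  by_contra hlt
  push Not at hlt
  set A : SimpleGraph (Fin n) → Set Ω := fun G =>
    {ω | ∃ t b, M.answer (M.run ω G t) = some b ∧ Correct G b} with hA
  have hmeas : ∀ G, MeasurableSet (A G) := by
    intro G
    have e : A G = ⋃ t : ℕ, {ω | ∃ b, M.answer (M.run ω G t) = some b ∧ Correct G b} := by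
      ext ω
      simp [hA]
    rw [e]
    exact MeasurableSet.iUnion (fun t =>
      measurable_conf hM.1 G t (fun c => ∃ b, M.answer c = some b ∧ Correct G b))
  have h0 : μ.real {ω | M.answer (M.start ω) = none} < 1 / 3 := by
    have h1 := hT ⊥ 1
    rw [sum_range_one] at h1
    exact lt_of_le_of_lt h1 hlt
  have hsub : A ⊤ ∩ A ⊥ ⊆ {ω | M.answer (M.start ω) = none} := by
    rintro ω ⟨⟨t, b, hb, hc⟩, ⟨t', b', hb', hc'⟩⟩
    by_contra hne
    have hs : (M.answer (M.start ω)).isSome := Option.isSome_iff_ne_none.2 hne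
    have e1 : M.run ω ⊤ t = M.start ω := run_of_isSome' M ω ⊤ (Nat.zero_le t) hs
    have e2 : M.run ω ⊥ t' = M.start ω := run_of_isSome' M ω ⊥ (Nat.zero_le t') hs
    rw [e1] at hb
    rw [e2, hb] at hb'
    have hbb : b = b' := Option.some.inj hb'
    subst hbb
    have h3 : ¬ (⊤ : SimpleGraph (Fin n)).CliqueFree 3 := by
      exact SimpleGraph.IsContained.not_cliqueFree
        ⟨(SimpleGraph.Embedding.completeGraph (Fin.castLEEmb hn)).toCopy⟩
    have h4 : (⊥ : SimpleGraph (Fin n)).CliqueFree 3 := SimpleGraph.cliqueFree_bot (by norm_num)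
    exact (hc'.1 (hc.2 h3)) h4
  have h1 := hM.2 ⊤
  have h2 := hM.2 ⊥
  have h3 : μ.real (A ⊤ ∪ A ⊥) + μ.real (A ⊤ ∩ A ⊥) = μ.real (A ⊤) + μ.real (A ⊥) :=
    measureReal_union_add_inter (hmeas ⊥)
  have h4 : μ.real (A ⊤ ∪ A ⊥) ≤ 1 := measureReal_le_one
  have h5 : μ.real (A ⊤ ∩ A ⊥) ≤ μ.real {ω | M.answer (M.start ω) = none} := measureReal_mono hsub
  have h1' : 2 / 3 ≤ μ.real (A ⊤) := h1
  have h2' : 2 / 3 ≤ μ.real (A ⊥) := h2
  linarith

open Classical in
/-- finitely many seeds suffice -/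
lemma finite_seeds {M : RMachine n k Q Ω}
    (hM : ∀ (G : SimpleGraph (Fin n)) (t : ℕ) (c : Conf n k Q), MeasurableSet {ω | M.run ω G t = c})
    (m : ℕ) (hsucc : ∀ G, 3 / 5 ≤ μ.real {ω | ∃ b, M.answer (M.run ω G m) = some b ∧ Correct G b}) :
    ∃ (Ω' : Type) (_ : Fintype Ω') (M' : RMachine n k Q Ω') (p : Ω' → ℝ), (∀ ω, 0 ≤ p ω) ∧
      ∑ ω, p ω = 1 ∧ Succ35 M' p m := by
  let D := SimpleGraph (Fin n) → Fin (m + 1) → Conf n k Q
  let Φ : Ω → D := fun ω G t => M.run ω G t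
  have : Finite D := by
    show Finite (SimpleGraph (Fin n) → Fin (m + 1) → Conf n k Q)
    infer_instance
  have : Fintype D := Fintype.ofFinite D
  let Ω' := {φ : D // ∃ ω, Φ ω = φ}
  have : Fintype Ω' := Fintype.ofFinite Ω'
  let ρ : Ω' → Ω := fun φ => φ.2.choose
  have hρ : ∀ φ : Ω', Φ (ρ φ) = φ.1 := fun φ => φ.2.choose_spec
  let Ψ : Ω → Ω' := fun ω => ⟨Φ ω, ω, rfl⟩
  let M' : RMachine n k Q Ω' :=
    { start := fun φ => M.start (ρ φ)
      step := fun φ => M.step (ρ φ)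
      slow := fun φ => M.slow (ρ φ)
      answer := M.answer }
  have hrun : ∀ (φ : Ω') (G : SimpleGraph (Fin n)) (t : ℕ), M'.run φ G t = M.run (ρ φ) G t := by
    intro φ G t
    induction t with
    | zero => rfl
    | succ t ih =>
      show (if (M.answer (M'.run φ G t)).isSome then M'.run φ G t
        else M.step (ρ φ) t (M'.run φ G t) (scan G (M'.run φ G t).2)) = _
      rw [ih]
      rfl
  have hmeasΨ : ∀ φ : Ω', MeasurableSet (Ψ ⁻¹' {φ}) := by
    intro φ
    have e : Ψ ⁻¹' {φ} = ⋂ G : SimpleGraph (Fin n), ⋂ t : Fin (m + 1), {ω | M.run ω G t = φ.1 G t} := by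
      ext ω
      simp only [Set.mem_preimage, Set.mem_singleton_iff, Set.mem_iInter, Set.mem_setOf_eq]
      constructor
      · intro h G t
        rw [← h]
      · intro h
        apply Subtype.ext
        funext G t
        exact h G t
    rw [e]
    exact MeasurableSet.iInter (fun G => MeasurableSet.iInter (fun t => hM G t _))
  let p : Ω' → ℝ := fun φ => μ.real (Ψ ⁻¹' {φ})
  have hp0 : ∀ φ, 0 ≤ p φ := fun φ => measureReal_nonneg
  have hpr : ∀ P : Ω' → Prop, pr p P = μ.real {ω | P (Ψ ω)} := by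
    intro P
    have e : {ω | P (Ψ ω)} = ⋃ φ ∈ (univ : Finset Ω').filter P, Ψ ⁻¹' {φ} := by
      ext ω
      simp
    rw [e, measureReal_biUnion_finset]
    · unfold pr
      rw [sum_filter]
      refine sum_congr rfl (fun φ _ => ?_)
      by_cases h : P φ
      · rw [ind_of h, if_pos h, mul_one]
      · rw [ind_of_not h, if_neg h, mul_zero]
    · intro φ _ φ' _ hne
      apply Disjoint.preimage
      simpa using hne
    · intro φ _
      exact hmeasΨ φ
  refine ⟨Ω', inferInstance, M', p, hp0, ?_, ?_⟩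
  · have h1 := hpr (fun _ => True)
    have h2 : {ω : Ω | True} = Set.univ := Set.setOf_true
    rw [h2, probReal_univ] at h1
    rw [← h1]
    unfold pr
    refine sum_congr rfl (fun φ _ => ?_)
    rw [ind_of trivial, mul_one]
  · intro G
    rw [hpr]
    refine (hsucc G).trans (le_of_eq ?_)
    congr 1
    ext ω
    have h1 : M'.run (Ψ ω) G m = M.run ω G m := by
      rw [hrun]
      have := congrFun (congrFun (hρ (Ψ ω)) G) ⟨m, Nat.lt_succ_self m⟩
      exact this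
    simp only [Set.mem_setOf_eq]
    rw [h1]

end reduce

theorem main (ε : ℝ) (hε : 0 < ε) : ∃ n0 : ℕ, ∀ n ≥ n0, ∀ (k S : ℕ) (T : ℝ), 1 ≤ k →
    ∀ (Q Ω : Type) [Fintype Q] [MeasurableSpace Ω] (μ : Measure Ω) [IsProbabilityMeasure μ],
      Fintype.card Q ≤ 2 ^ S → ∀ M : RMachine n k Q Ω, M.DetectsTriangles μ → M.ExpectedTimeLE μ T →
      (n : ℝ) ^ (7 / 2 - ε) ≤ T ^ (3 / 2 : ℝ) * (k : ℝ) ^ 2 * ((S : ℝ) + k) := by
  obtain ⟨n0, hn0⟩ := slack (2 * ε) (by linarith)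
  refine ⟨n0, fun n hn k S T hk Q Ω _ _ μ _ hQ M hM hT => ?_⟩
  obtain ⟨h1, h2, h3⟩ := hn0 n hn
  have hn3 : 3 ≤ n := le_trans (by norm_num) h1
  have hT1 : 1 / 3 ≤ T := time_ge μ hn3 hM hT
  have hT0 : 0 < T := by linarith
  set m := ⌈15 * T⌉₊ with hm
  have hmT : 15 * T ≤ m := Nat.le_ceil _
  have hmT' : (m : ℝ) ≤ 18 * T := by
    have := Nat.ceil_lt_add_one (by positivity : 0 ≤ 15 * T)
    rw [← hm] at this
    linarith
  obtain ⟨Ω', _, M', p, hp, hp1, hS⟩ := finite_seeds μ hM.1 m (fun G => success_at μ hM hT G m hmT hT0)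
  have h := main_finite n h1 h3 k S m hk Q Ω' hQ M' p hp hp1 hS
  have hnpos : (0 : ℝ) < n := by
    have : 0 < n := lt_of_lt_of_le (by norm_num) hn3
    exact_mod_cast this
  have hF0 : 0 ≤ 2 ^ 84 * Real.logb 2 n ^ 2 * EE n ^ 2 :=
    mul_nonneg (mul_nonneg (pow_nonneg (by norm_num) _) (sq_nonneg _)) (sq_nonneg _)
  generalize 2 ^ 84 * Real.logb 2 n ^ 2 * EE n ^ 2 = F at h h2 hF0
  have hk0 : (0 : ℝ) ≤ k := Nat.cast_nonneg k
  have hs0 : (0 : ℝ) ≤ (S : ℝ) + k := by positivity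
  have h4 : (n : ℝ) ^ 7 ≤ (T ^ 3 * (k : ℝ) ^ 4 * ((S : ℝ) + k) ^ 2) * (n : ℝ) ^ (2 * ε) := by
    calc (n : ℝ) ^ 7 ≤ (m : ℝ) ^ 3 * (k : ℝ) ^ 4 * ((S : ℝ) + k) ^ 2 * F := h
      _ ≤ (18 * T) ^ 3 * (k : ℝ) ^ 4 * ((S : ℝ) + k) ^ 2 * F := by gcongr
      _ = (T ^ 3 * (k : ℝ) ^ 4 * ((S : ℝ) + k) ^ 2) * (5832 * F) := by ring
      _ ≤ _ := mul_le_mul_of_nonneg_left h2 (by positivity)
  have h5 : (n : ℝ) ^ (7 - 2 * ε) ≤ T ^ 3 * (k : ℝ) ^ 4 * ((S : ℝ) + k) ^ 2 := by
    rw [Real.rpow_sub hnpos, div_le_iff₀ (Real.rpow_pos_of_pos hnpos _)]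
    refine le_trans (le_of_eq ?_) h4
    rw [← Real.rpow_natCast]
    norm_num
  have h6 : (n : ℝ) ^ (7 / 2 - ε) = ((n : ℝ) ^ (7 - 2 * ε)) ^ ((1 : ℝ) / 2) := by
    rw [← Real.rpow_mul hnpos.le]
    congr 1
    ring
  have h7 : T ^ (3 / 2 : ℝ) * (k : ℝ) ^ 2 * ((S : ℝ) + k) =
      (T ^ 3 * (k : ℝ) ^ 4 * ((S : ℝ) + k) ^ 2) ^ ((1 : ℝ) / 2) := by
    have e1 : T ^ 3 * (k : ℝ) ^ 4 * ((S : ℝ) + k) ^ 2 = (T ^ (3 / 2 : ℝ) * (k : ℝ) ^ 2 * ((S : ℝ) + k)) ^ 2 := by
      have e2 : (T ^ (3 / 2 : ℝ)) ^ 2 = T ^ 3 := by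
        rw [← Real.rpow_natCast, ← Real.rpow_mul hT0.le, ← Real.rpow_natCast]
        norm_num
      rw [mul_pow, mul_pow, e2]
      ring
    rw [e1, ← Real.sqrt_eq_rpow, Real.sqrt_sq (by positivity)]
  rw [h6, h7]
  exact Real.rpow_le_rpow (by positivity) h5 (by norm_num)

end Pool.Agent.Lib_helper65.Rand
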